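import Pool.Agent.Helper401.OB.Domain

set_option autoImplicit false

open MeasureTheory Set Filter Topology
open scoped ENNReal NNReal

namespace Pool.Agent.Helper401.OB


theorem Fa_anti (f : ℝ → ℝ) : Antitone (fun l : ℝ => mu.real {y | l < |f y|}) := by
  intro a b hab
  refine measureReal_mono ?_ (measure_ne_top _ _)
  intro y hy
  exact lt_of_le_of_lt hab hy

theorem Fa_meas (f : ℝ → ℝ) :
    Measurable (fun l : ℝ => ENNReal.ofReal (l ^ 2 * (mu.real {y | l < |f y|}) ^ 2)) :=
  ((measurable_id.pow_const 2).mul ((Fa_anti f).measurable.pow_const 2)).ennreal_ofReal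

theorem Fa_nonneg (f : ℝ → ℝ) (l : ℝ) : 0 ≤ mu.real {y | l < |f y|} := measureReal_nonneg

theorem Fa_le_one (f : ℝ → ℝ) (l : ℝ) : mu.real {y | l < |f y|} ≤ 1 := measureReal_le_one

theorem exists_cube (a : ℝ≥0∞) (h0 : a ≠ 0) (h1 : a ≠ ∞) : ∃ c : ℝ, 0 < c ∧ ENNReal.ofReal (|c| ^ 3) = a⁻¹ := by
  have ha : 0 < a.toReal := ENNReal.toReal_pos h0 h1
  refine ⟨a.toReal ^ (-(1 / 3) : ℝ), Real.rpow_pos_of_pos ha _, ?_⟩
  rw [abs_of_pos (Real.rpow_pos_of_pos ha _), ← Real.rpow_natCast, ← Real.rpow_mul ha.le]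
  norm_num
  rw [Real.rpow_neg_one, ENNReal.ofReal_inv_of_pos ha, ENNReal.ofReal_toReal h1]


theorem A_mono {f g : ℝ → ℝ} (h : ∀ᵐ y ∂mu, |f y| ≤ |g y|) : A f ≤ A g := by
  refine lintegral_mono fun l => ENNReal.ofReal_le_ofReal ?_
  have h1 : mu.real {y | l < |f y|} ≤ mu.real {y | l < |g y|} := by
    refine ENNReal.toReal_mono (measure_ne_top _ _) (measure_mono_ae ?_)
    filter_upwards [h] with y hy hy'
    exact lt_of_lt_of_le hy' hy
  exact mul_le_mul_of_nonneg_left (pow_le_pow_left₀ (Fa_nonneg f l) h1 2) (sq_nonneg l)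

theorem A_congr {f g : ℝ → ℝ} (h : f =ᵐ[mu] g) : A f = A g := by
  refine le_antisymm (A_mono ?_) (A_mono ?_)
  · filter_upwards [h] with y hy
    rw [hy]
  · filter_upwards [h] with y hy
    rw [hy]

theorem A_zero : A (fun _ => 0) = 0 := by
  unfold A
  rw [lintegral_eq_zero_iff (Fa_meas _)]
  refine (ae_restrict_iff' measurableSet_Ioi).2 (Eventually.of_forall fun l hl => ?_)
  have hl' : (0 : ℝ) < l := hl
  have : {y : ℝ | l < |(0 : ℝ)|} = ∅ := by
    ext y
    simp only [abs_zero, mem_empty_iff_false, iff_false]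
    exact not_lt.2 hl'.le
  simp only [this]
  simp

theorem A_smul (c : ℝ) (f : ℝ → ℝ) : A (fun y => c * f y) = ENNReal.ofReal (|c| ^ 3) * A f := by
  rcases eq_or_ne c 0 with rfl | hc
  · simp only [zero_mul, A_zero]
    simp
  have ha : 0 < |c| := abs_pos.2 hc
  have h1 := lintegral_image_eq_lintegral_abs_deriv_mul (s := Ioi (0 : ℝ)) (f := fun x => |c| * x)
    (f' := fun _ => |c|) measurableSet_Ioi
    (fun x _ => by simpa using ((hasDerivAt_id x).const_mul |c|).hasDerivWithinAt)
    (fun x _ y _ hxy => mul_left_cancel₀ ha.ne' hxy)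
    (fun l => ENNReal.ofReal (l ^ 2 * (mu.real {y | l < |c * f y|}) ^ 2))
  have h2 : (fun x => |c| * x) '' Ioi (0 : ℝ) = Ioi 0 := by
    ext x
    constructor
    · rintro ⟨y, hy, rfl⟩
      exact mul_pos ha hy
    · intro hx
      exact ⟨x / |c|, div_pos hx ha, by field_simp⟩
  rw [h2] at h1
  unfold A
  rw [h1, ← lintegral_const_mul' _ _ ENNReal.ofReal_ne_top]
  refine lintegral_congr fun x => ?_
  have h3 : {y : ℝ | |c| * x < |c * f y|} = {y | x < |f y|} := by
    ext y
    show |c| * x < |c * f y| ↔ x < |f y|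
    rw [abs_mul]
    exact mul_lt_mul_iff_right₀ ha
  rw [h3, abs_abs, ← ENNReal.ofReal_mul ha.le, ← ENNReal.ofReal_mul (by positivity)]
  congr 1
  ring

theorem A_add (f g : ℝ → ℝ) : A (fun y => f y + g y) ≤ 16 * (A f + A g) := by
  have h1 : A (fun y => f y + g y) ≤ 2 * A (fun y => 2 * f y) + 2 * A (fun y => 2 * g y) := by
    unfold A
    rw [← lintegral_const_mul _ (Fa_meas _), ← lintegral_const_mul _ (Fa_meas _),
      ← lintegral_add_left ((Fa_meas _).const_mul _)]
    refine lintegral_mono fun l => ?_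
    have h2 : mu.real {y | l < |f y + g y|} ≤ mu.real {y | l < |2 * f y|} + mu.real {y | l < |2 * g y|} := by
      refine le_trans (measureReal_mono ?_ (measure_ne_top _ _)) (measureReal_union_le _ _)
      intro y hy
      have hy' : l < |f y + g y| := hy
      have h3 := abs_add_le (f y) (g y)
      rcases le_total |f y| |g y| with h4 | h4
      · right
        show l < |2 * g y|
        rw [abs_mul, abs_two]; linarith
      · left
        show l < |2 * f y|
        rw [abs_mul, abs_two]; linarith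
    have h5 := Fa_nonneg (fun y => f y + g y) l
    have h6 := Fa_nonneg (fun y => 2 * f y) l
    have h7 := Fa_nonneg (fun y => 2 * g y) l

    have h8 : l ^ 2 * (mu.real {y | l < |f y + g y|}) ^ 2 ≤
        2 * (l ^ 2 * (mu.real {y | l < |2 * f y|}) ^ 2) + 2 * (l ^ 2 * (mu.real {y | l < |2 * g y|}) ^ 2) := by
      have h9 : (mu.real {y | l < |f y + g y|}) ^ 2 ≤
          2 * (mu.real {y | l < |2 * f y|}) ^ 2 + 2 * (mu.real {y | l < |2 * g y|}) ^ 2 := by
        nlinarith [pow_le_pow_left₀ h5 h2 2, sq_nonneg (mu.real {y | l < |2 * f y|} - mu.real {y | l < |2 * g y|})]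
      have := mul_le_mul_of_nonneg_left h9 (sq_nonneg l)
      linarith
    refine (ENNReal.ofReal_le_ofReal h8).trans (le_of_eq ?_)
    rw [ENNReal.ofReal_add (by positivity) (by positivity), ENNReal.ofReal_mul (p := 2) (by norm_num),
      ENNReal.ofReal_mul (p := 2) (by norm_num)]
    norm_num
  refine h1.trans (le_of_eq ?_)
  rw [A_smul, A_smul]
  have h10 : ENNReal.ofReal (|(2 : ℝ)| ^ 3) = 8 := by
    rw [abs_two]; norm_num
  rw [h10, mul_add, ← mul_assoc, ← mul_assoc]
  norm_num

theorem A_bdd {f : ℝ → ℝ} {H : ℝ} (hH : 0 ≤ H) (h : ∀ᵐ y ∂mu, |f y| ≤ H) :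
    A f ≤ ENNReal.ofReal (H ^ 3) := by
  have h1 : A f ≤ ∫⁻ l in Ioi (0 : ℝ), (Ioc 0 H).indicator (fun _ => ENNReal.ofReal (H ^ 2)) l := by
    refine setLIntegral_mono' measurableSet_Ioi fun l hl => ?_
    by_cases hlH : l ≤ H
    · have hl0 : (0 : ℝ) < l := hl
      rw [indicator_of_mem (show l ∈ Ioc 0 H from ⟨hl, hlH⟩)]
      refine ENNReal.ofReal_le_ofReal ?_
      have h2 : (mu.real {y | l < |f y|}) ^ 2 ≤ 1 := pow_le_one₀ (Fa_nonneg f l) (Fa_le_one f l)
      have h3 : l ^ 2 ≤ H ^ 2 := pow_le_pow_left₀ hl0.le hlH 2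
      nlinarith [sq_nonneg l, sq_nonneg (mu.real {y | l < |f y|})]
    · have h2 : mu {y | l < |f y|} = 0 := by
        rw [ae_iff] at h
        refine measure_mono_null ?_ h
        intro y hy hy'
        have hy2 : l < |f y| := hy
        linarith [not_le.1 hlH]
      have h3 : mu.real {y | l < |f y|} = 0 := by rw [measureReal_def, h2]; rfl
      rw [h3]
      simp
  refine h1.trans ?_
  rw [lintegral_indicator measurableSet_Ioc, setLIntegral_const]
  calc ENNReal.ofReal (H ^ 2) * (volume.restrict (Ioi 0)) (Ioc 0 H)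
      ≤ ENNReal.ofReal (H ^ 2) * volume (Ioc 0 H) := mul_le_mul_right (Measure.restrict_apply_le _ _) _
    _ = ENNReal.ofReal (H ^ 3) := by
        rw [Real.volume_Ioc, sub_zero, ← ENNReal.ofReal_mul (by positivity)]
        congr 1

theorem A_eq_zero {f : ℝ → ℝ} (h : A f = 0) : ∀ᵐ y ∂mu, f y = 0 := by
  unfold A at h
  rw [lintegral_eq_zero_iff (Fa_meas f), Filter.EventuallyEq, ae_restrict_iff' measurableSet_Ioi] at h
  have h1 : ∀ l : ℝ, 0 < l → mu {y | l < |f y|} = 0 := by
    intro l hl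
    by_contra hne
    have h2 : volume (Ioo 0 l) ≠ 0 := by
      rw [Real.volume_Ioo]; simpa using hl
    have h3 : ∃ x ∈ Ioo 0 l, ENNReal.ofReal (x ^ 2 * (mu.real {y | x < |f y|}) ^ 2) = 0 := by
      by_contra hno
      push Not at hno
      refine h2 (measure_mono_null ?_ h)
      intro x hx hx'
      exact hno x hx (hx' hx.1)
    obtain ⟨x, hx, hx0⟩ := h3
    rw [ENNReal.ofReal_eq_zero] at hx0
    have h4 : 0 < mu.real {y | l < |f y|} := by
      refine lt_of_le_of_ne measureReal_nonneg (fun h => hne ?_)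
      exact (measureReal_eq_zero_iff).1 h.symm
    have h5 : mu.real {y | l < |f y|} ≤ mu.real {y | x < |f y|} := Fa_anti f hx.2.le
    have h6 : 0 < x ^ 2 * (mu.real {y | x < |f y|}) ^ 2 := by
      have := hx.1
      have := h4.trans_le h5
      positivity
    linarith
  rw [ae_iff]
  have h7 : {y | ¬f y = 0} ⊆ ⋃ k : ℕ, {y | (1 / ((k : ℝ) + 1)) < |f y|} := by
    intro y hy
    have hy' : f y ≠ 0 := hy
    obtain ⟨k, hk⟩ := exists_nat_one_div_lt (abs_pos.2 hy')
    exact mem_iUnion.2 ⟨k, hk⟩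
  refine measure_mono_null h7 (measure_iUnion_null fun k => h1 _ (by positivity))

theorem A_integrable {f : ℝ → ℝ} (hf : Measurable f) (hA : A f ≠ ∞) : Integrable f mu := by
  by_cases h0 : A f = 0
  · have h1 := A_eq_zero h0
    have h2 : f =ᵐ[mu] fun _ => (0 : ℝ) := h1
    exact (integrable_zero ℝ ℝ mu).congr h2.symm
  obtain ⟨c, hc, hc3⟩ := exists_cube (A f) h0 hA
  have h1 : A (fun y => c * f y) ≤ 1 := by
    rw [A_smul, hc3, ENNReal.inv_mul_cancel h0 hA]
  have h2 := l1_bound (hf.const_mul c) h1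
  have h3 : Integrable (fun y => c * f y) mu := by
    refine ⟨(hf.const_mul c).aestronglyMeasurable, ?_⟩
    rw [hasFiniteIntegral_iff_norm]
    exact lt_of_le_of_lt h2 (by norm_num)
  have h4 := h3.const_mul c⁻¹
  refine h4.congr (Eventually.of_forall fun y => ?_)
  simp only
  rw [← mul_assoc, inv_mul_cancel₀ hc.ne', one_mul]

/-- truncation bands are superadditive -/
theorem A_bands {f : ℝ → ℝ} (hf : Measurable f) {H : ℕ → ℝ} (hH : Monotone H) :
    ∑' k, A (fun y => if H k < |f y| ∧ |f y| ≤ H (k + 1) then f y else 0) ≤ A f := by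
  unfold A
  rw [← lintegral_tsum fun k => (Fa_meas _).aemeasurable]
  refine setLIntegral_mono' measurableSet_Ioi fun l hl => ?_
  have hl0 : (0 : ℝ) < l := hl
  have e : ∀ T : Set ℝ, ENNReal.ofReal (l ^ 2 * (mu.real T) ^ 2) = ENNReal.ofReal (l ^ 2) * (mu T) ^ 2 := by
    intro T
    rw [ENNReal.ofReal_mul (sq_nonneg l), ENNReal.ofReal_pow measureReal_nonneg, measureReal_def,
      ENNReal.ofReal_toReal (measure_ne_top _ _)]
  simp only [e]
  rw [ENNReal.tsum_mul_left]
  refine mul_le_mul_right ?_ _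
  set T : ℕ → Set ℝ := fun k => {y | l < |if H k < |f y| ∧ |f y| ≤ H (k + 1) then f y else 0|} with hT
  have hT' : ∀ k y, y ∈ T k → H k < |f y| ∧ |f y| ≤ H (k + 1) ∧ l < |f y| := by
    intro k y hy
    have hy' : l < |if H k < |f y| ∧ |f y| ≤ H (k + 1) then f y else 0| := hy
    split_ifs at hy' with h
    · exact ⟨h.1, h.2, hy'⟩
    · rw [abs_zero] at hy'; linarith
  have hTm : ∀ k, MeasurableSet (T k) := by
    intro k
    refine measurableSet_lt measurable_const ?_
    refine Measurable.abs (Measurable.ite ?_ hf measurable_const)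
    exact (measurableSet_lt measurable_const hf.abs).inter (measurableSet_le hf.abs measurable_const)
  have hTd : Pairwise (Function.onFun Disjoint T) := by
    have key : ∀ i j, i < j → Disjoint (T i) (T j) := by
      intro i j hij
      refine disjoint_left.2 fun y hy hy' => ?_
      have h1 := (hT' i y hy).2.1
      have h2 := (hT' j y hy').1
      have h3 := hH (show i + 1 ≤ j from hij)
      linarith
    intro i j hij
    rcases lt_or_gt_of_ne hij with h | h
    · exact key i j h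
    · exact (key j i h).symm
  have h1 : ∑' k, mu (T k) ≤ mu {y | l < |f y|} := by
    rw [← measure_iUnion hTd hTm]
    refine measure_mono (iUnion_subset fun k y hy => (hT' k y hy).2.2)
  have h2 : ∑' k, (mu (T k)) ^ 2 ≤ (∑' k, mu (T k)) ^ 2 := by
    have h3 : ∀ k, (mu (T k)) ^ 2 ≤ mu (T k) * ∑' k, mu (T k) := by
      intro k
      rw [sq]
      exact mul_le_mul_right (ENNReal.le_tsum k) _
    refine (ENNReal.tsum_le_tsum h3).trans (le_of_eq ?_)
    rw [ENNReal.tsum_mul_right, sq]
  exact h2.trans (pow_le_pow_left₀ bot_le h1 2)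

/-- scaling principle -/
theorem A_scaling {S : (ℝ → ℝ) → (ℝ → ℝ)} {C : ℝ≥0∞} (hC : C ≠ ∞)
    (hS : ∀ (c : ℝ) (f : ℝ → ℝ), S (fun y => c * f y) = fun y => c * S f y)
    (hb : ∀ f : ℝ → ℝ, Measurable f → A f ≤ 1 → A (S f) ≤ C) {f : ℝ → ℝ} (hf : Measurable f)
    (hfin : A f ≠ ∞) : A (S f) ≤ C * A f := by
  by_cases h0 : A f = 0
  · have h1 : ∀ c : ℝ, ENNReal.ofReal (|c| ^ 3) * A (S f) ≤ C := by
      intro c
      have h2 := hb (fun y => c * f y) (hf.const_mul c) (by rw [A_smul, h0, mul_zero]; exact bot_le)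
      rwa [hS, A_smul] at h2
    have h3 : A (S f) = 0 := by
      by_contra hne
      have hfinS : A (S f) ≠ ∞ := by
        intro hinf
        have := h1 1
        rw [hinf] at this
        simp at this
        exact hC this
      have hx : 0 < (A (S f)).toReal := ENNReal.toReal_pos hne hfinS
      set x := (A (S f)).toReal with hxdef
      set c : ℝ := C.toReal / x + 1 with hc
      have hc1 : 1 ≤ c := by
        have : 0 ≤ C.toReal / x := by positivity
        linarith
      have h4 := h1 c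
      have h5 := ENNReal.toReal_mono hC h4
      rw [ENNReal.toReal_mul, ENNReal.toReal_ofReal (by positivity), abs_of_nonneg (by linarith)] at h5
      have h6 : c ≤ c ^ 3 := by
        calc c = c ^ 1 := (pow_one c).symm
          _ ≤ c ^ 3 := pow_le_pow_right₀ hc1 (by norm_num)
      have h7 : c * x ≤ c ^ 3 * x := mul_le_mul_of_nonneg_right h6 hx.le
      have h8 : c * x = C.toReal + x := by rw [hc]; field_simp
      linarith
    rw [h3]; exact bot_le
  · obtain ⟨c, hc, hc3⟩ := exists_cube (A f) h0 hfin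
    have h2 := hb (fun y => c * f y) (hf.const_mul c) (by rw [A_smul, hc3, ENNReal.inv_mul_cancel h0 hfin])
    rw [hS, A_smul, hc3] at h2
    calc A (S f) = (A f)⁻¹ * A (S f) * A f := by
          rw [mul_comm (A f)⁻¹, mul_assoc, ENNReal.inv_mul_cancel h0 hfin, mul_one]
      _ ≤ C * A f := mul_le_mul_left h2 _

end Pool.Agent.Helper401.OB

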