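import Pool.Agent.Helper401.OB.Vtail

set_option autoImplicit false

open MeasureTheory Set Filter Topology
open scoped ENNReal NNReal

namespace Pool.Agent.Helper401.OB


theorem step_tf (n j : ℕ) : Step (3 * n ^ 6) (tf n j) := by
  unfold tf
  apply Step.mul (step_const _ _)
  apply step_sum
  intro m hm
  rw [Finset.mem_Ico] at hm
  exact (step_const _ _).mul ((step_ind m _).mono hm.2.le)

theorem step_gf (n j : ℕ) : Step (3 * n ^ 6 + j + 1) (gf n j) := by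
  unfold gf
  exact ((step_tf n j).mono (by omega)).mul (step_rad _)

theorem coef_self {n j : ℕ} (hn : 1 ≤ n) (hj : j < 8 ^ (3 * n ^ 6)) : 1 ≤ coef n j (gf n j) := by
  set M := n ^ 6 with hM
  have hn0 : (0 : ℝ) < n := by exact_mod_cast hn
  have hcoef : coef n j (gf n j) = ∫ y, tf n j y * vfn n j y ∂mu := by
    unfold coef gf
    congr 1
    funext y
    have h1 := rad_sq (3 * n ^ 6 + j + 1) y
    calc tf n j y * rad (3 * n ^ 6 + j + 1) y * vfn n j y * rad (3 * n ^ 6 + j + 1) y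
        = tf n j y * vfn n j y * rad (3 * n ^ 6 + j + 1) y ^ 2 := by ring
      _ = tf n j y * vfn n j y := by rw [h1, mul_one]
  have hint : ∫ y, ((n:ℝ) ^ 6)⁻¹ * ∑ m ∈ Finset.Ico (2 * n ^ 6) (3 * n ^ 6),
      8 ^ m * ind m (j / 8 ^ (3 * n ^ 6 - m)) y ∂mu = 1 := by
    rw [integral_const_mul, integral_finsetSum _
      (fun m _ => (step_ind m _).integrable.const_mul _)]
    have h2 : ∀ m ∈ Finset.Ico (2 * n ^ 6) (3 * n ^ 6),
        ∫ y, (8 : ℝ) ^ m * ind m (j / 8 ^ (3 * n ^ 6 - m)) y ∂mu = 1 := by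
      intro m hm
      rw [Finset.mem_Ico] at hm
      rw [integral_const_mul, integral_ind]
      · exact mul_inv_cancel₀ (by positivity)
      · rw [Nat.div_lt_iff_lt_mul (by positivity), ← pow_add]
        have : m + (3 * n ^ 6 - m) = 3 * n ^ 6 := by omega
        rw [this]; exact hj
    rw [Finset.sum_congr rfl h2, Finset.sum_const, Nat.card_Ico, nsmul_eq_mul, mul_one]
    have h3 : 3 * n ^ 6 - 2 * n ^ 6 = n ^ 6 := by omega
    rw [h3]
    push_cast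
    exact inv_mul_cancel₀ (by positivity)
  rw [hcoef, ← hint]
  have hsi : Step (3 * n ^ 6) (fun y => ((n:ℝ) ^ 6)⁻¹ * ∑ m ∈ Finset.Ico (2 * n ^ 6) (3 * n ^ 6),
      8 ^ m * ind m (j / 8 ^ (3 * n ^ 6 - m)) y) := by
    apply Step.mul (step_const _ _)
    apply step_sum
    intro m hm
    rw [Finset.mem_Ico] at hm
    exact (step_const _ _).mul ((step_ind m _).mono hm.2.le)
  apply integral_mono hsi.integrable ((step_tf n j).mul (step_vfn n j)).integrable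
  intro y
  simp only [tf, vfn]
  have hnn4 : ∀ m ∈ Finset.Ico (2 * n ^ 6) (3 * n ^ 6),
      0 ≤ (4 : ℝ) ^ m * ind m (j / 8 ^ (3 * n ^ 6 - m)) y := fun m _ =>
    mul_nonneg (by positivity) (ind_nonneg _ _ _)
  have hnn2 : ∀ m ∈ Finset.Ico (2 * n ^ 6) (3 * n ^ 6),
      0 ≤ (2 : ℝ) ^ m * ind m (j / 8 ^ (3 * n ^ 6 - m)) y := fun m _ =>
    mul_nonneg (by positivity) (ind_nonneg _ _ _)
  have h4 : ∑ m ∈ Finset.Ico (2 * n ^ 6) (3 * n ^ 6), (8 : ℝ) ^ m * ind m (j / 8 ^ (3 * n ^ 6 - m)) y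
      ≤ (∑ m ∈ Finset.Ico (2 * n ^ 6) (3 * n ^ 6), 4 ^ m * ind m (j / 8 ^ (3 * n ^ 6 - m)) y)
        * ∑ m ∈ Finset.Ico (2 * n ^ 6) (3 * n ^ 6), 2 ^ m * ind m (j / 8 ^ (3 * n ^ 6 - m)) y := by
    rw [Finset.sum_mul]
    apply Finset.sum_le_sum
    intro m hm
    have h5 : (8 : ℝ) ^ m * ind m (j / 8 ^ (3 * n ^ 6 - m)) y
        = (4 ^ m * ind m (j / 8 ^ (3 * n ^ 6 - m)) y) * (2 ^ m * ind m (j / 8 ^ (3 * n ^ 6 - m)) y) := by
      have h6 := ind_sq m (j / 8 ^ (3 * n ^ 6 - m)) y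
      have h7 : (8 : ℝ) ^ m = 4 ^ m * 2 ^ m := by rw [← mul_pow]; norm_num
      rw [h7]
      calc (4 : ℝ) ^ m * 2 ^ m * ind m (j / 8 ^ (3 * n ^ 6 - m)) y
          = 4 ^ m * 2 ^ m * ind m (j / 8 ^ (3 * n ^ 6 - m)) y ^ 2 := by rw [h6]
        _ = _ := by ring
    rw [h5]
    apply mul_le_mul_of_nonneg_left _ (hnn4 m hm)
    exact Finset.single_le_sum (f := fun m => (2 : ℝ) ^ m * ind m (j / 8 ^ (3 * n ^ 6 - m)) y) hnn2 hm
  calc ((n:ℝ) ^ 6)⁻¹ * ∑ m ∈ Finset.Ico (2 * n ^ 6) (3 * n ^ 6), 8 ^ m * ind m (j / 8 ^ (3 * n ^ 6 - m)) y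
      ≤ ((n:ℝ) ^ 6)⁻¹ * ((∑ m ∈ Finset.Ico (2 * n ^ 6) (3 * n ^ 6), 4 ^ m * ind m (j / 8 ^ (3 * n ^ 6 - m)) y)
        * ∑ m ∈ Finset.Ico (2 * n ^ 6) (3 * n ^ 6), 2 ^ m * ind m (j / 8 ^ (3 * n ^ 6 - m)) y) := by
        gcongr
    _ = _ := by
        rw [show ((n:ℝ) ^ 6)⁻¹ = ((n:ℝ) ^ 2)⁻¹ * ((n:ℝ) ^ 4)⁻¹ by
          rw [← mul_inv, ← pow_add]]
        ring

theorem coef_ne {n j i : ℕ} (hij : i ≠ j) : coef n i (gf n j) = 0 := by
  unfold coef gf
  rcases lt_or_gt_of_ne hij with h | h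
  · have hs : Step (3 * n ^ 6 + i + 1) (fun y => tf n j y * vfn n i y * rad (3 * n ^ 6 + i + 1) y) :=
      (((step_tf n j).mono (by omega)).mul ((step_vfn n i).mono (by omega))).mul (step_rad _)
    have h1 := integral_mul_rad' (m := 3 * n ^ 6 + j + 1) (by omega) hs
    rw [← h1]
    congr 1
    funext y
    ring
  · have hs : Step (3 * n ^ 6 + j + 1) (fun y => tf n j y * rad (3 * n ^ 6 + j + 1) y * vfn n i y) :=
      (((step_tf n j).mono (by omega)).mul (step_rad _)).mul ((step_vfn n i).mono (by omega))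
    exact integral_mul_rad' (m := 3 * n ^ 6 + i + 1) (by omega) hs

theorem coef_up {n n' j i : ℕ} (hj : j < 8 ^ (3 * n ^ 6))
    (h : 3 * n ^ 6 + 8 ^ (3 * n ^ 6) + 1 ≤ n' ^ 6) : coef n' i (gf n j) = 0 := by
  unfold coef
  have hs : Step (3 * n' ^ 6) (fun y => gf n j y * vfn n' i y) :=
    ((step_gf n j).mono (by omega)).mul (step_vfn n' i)
  exact integral_mul_rad' (m := 3 * n' ^ 6 + i + 1) (by omega) hs

theorem coef_down {n n' j i : ℕ} (hi : i < 8 ^ (3 * n' ^ 6))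
    (h : 3 * n' ^ 6 + 8 ^ (3 * n' ^ 6) + 1 ≤ n ^ 6) : coef n' i (gf n j) = 0 := by
  unfold coef gf
  have hs : Step (3 * n ^ 6) (fun y => tf n j y * vfn n' i y * rad (3 * n' ^ 6 + i + 1) y) :=
    ((step_tf n j).mul ((step_vfn n' i).mono (by omega))).mul ((step_rad _).mono (by omega))
  have h1 := integral_mul_rad' (m := 3 * n ^ 6 + j + 1) (by omega) hs
  rw [← h1]
  congr 1
  funext y
  ring

end Pool.Agent.Helper401.OB

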