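import Pool.Agent.Helper401.OB.Basic

set_option autoImplicit false

open MeasureTheory Set Filter Topology
open scoped ENNReal NNReal

namespace Pool.Agent.Helper401.OB

/-- the image function -/
noncomputable def ufn (n x : ℕ) (y : ℝ) : ℝ :=
  ((n:ℝ) ^ 2)⁻¹ * ∑ m ∈ Finset.range (n ^ 6), 4 ^ m * ind m (x / 8 ^ (n ^ 6 - m)) y

/-- position on the image side -/
def xpos (n j : ℕ) : ℕ := (j / 8 ^ (n ^ 6)) % 8 ^ (n ^ 6)

noncomputable def hfn (n : ℕ) (c : ℕ → ℝ) (y : ℝ) : ℝ :=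
  ∑ j ∈ Finset.range (8 ^ (3 * n ^ 6)), c j * ufn n (xpos n j) y * rad (3 * n ^ 6 + j + 1) y

/-- the domain function, spread over the scales `2M ≤ m < 3M`, `M = n ^ 6` -/
noncomputable def vfn (n j : ℕ) (y : ℝ) : ℝ :=
  ((n:ℝ) ^ 4)⁻¹ * ∑ m ∈ Finset.Ico (2 * n ^ 6) (3 * n ^ 6), 2 ^ m * ind m (j / 8 ^ (3 * n ^ 6 - m)) y

noncomputable def Vfn (n : ℕ) (d : ℕ → ℝ) (y : ℝ) : ℝ :=
  ∑ j ∈ Finset.range (8 ^ (3 * n ^ 6)), d j * vfn n j y * rad (3 * n ^ 6 + j + 1) y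

noncomputable def coef (n j : ℕ) (f : ℝ → ℝ) : ℝ :=
  ∫ y, f y * vfn n j y * rad (3 * n ^ 6 + j + 1) y ∂mu

/-- test function without sign -/
noncomputable def tf (n j : ℕ) (y : ℝ) : ℝ :=
  ((n:ℝ) ^ 2)⁻¹ * ∑ m ∈ Finset.Ico (2 * n ^ 6) (3 * n ^ 6), 4 ^ m * ind m (j / 8 ^ (3 * n ^ 6 - m)) y

/-- test function -/
noncomputable def gf (n j : ℕ) (y : ℝ) : ℝ := tf n j y * rad (3 * n ^ 6 + j + 1) y

/-- one generation of the operator -/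
noncomputable def Tn (n : ℕ) (f : ℝ → ℝ) : ℝ → ℝ := hfn n (fun j => coef n j f)

end Pool.Agent.Helper401.OB
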