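import Pool.Agent.Helper401.OB.Basic

set_option autoImplicit false

open MeasureTheory Set Filter Topology
open scoped ENNReal NNReal

namespace Pool.Agent.Helper401.OB

/-- layer cake -/
theorem layer {f V : ℝ → ℝ} (hf : Measurable f) (hV : Measurable V) :
    ∫⁻ y, ENNReal.ofReal (|f y| * |V y|) ∂mu =
      ∫⁻ s in Ioi (0:ℝ), ∫⁻ y in {y | s < |f y|}, ENNReal.ofReal |V y| ∂mu := by
  have hVm : Measurable (fun y => ENNReal.ofReal |V y|) := by fun_prop
  have hfm : Measurable (fun y => ENNReal.ofReal |f y|) := by fun_prop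
  have h1 := lintegral_eq_lintegral_meas_lt (mu.withDensity (fun y => ENNReal.ofReal |V y|))
    (f := fun y => |f y|) (Filter.Eventually.of_forall fun y => abs_nonneg _)
    (hf.abs).aemeasurable
  rw [lintegral_withDensity_eq_lintegral_mul mu hVm hfm] at h1
  calc ∫⁻ y, ENNReal.ofReal (|f y| * |V y|) ∂mu
      = ∫⁻ y, ((fun y => ENNReal.ofReal |V y|) * (fun y => ENNReal.ofReal |f y|)) y ∂mu := by
        apply lintegral_congr
        intro y
        simp only [Pi.mul_apply]
        rw [mul_comm |f y|, ENNReal.ofReal_mul (abs_nonneg _)]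
    _ = _ := h1
    _ = _ := by
        apply lintegral_congr
        intro s
        rw [withDensity_apply _ (measurableSet_lt measurable_const hf.abs)]

theorem F_le_one (f : ℝ → ℝ) (s : ℝ) : mu.real {y | s < |f y|} ≤ 1 := by
  exact measureReal_le_one

theorem F_anti (f : ℝ → ℝ) : Antitone (fun s : ℝ => mu.real {y | s < |f y|}) := by
  intro a b hab
  apply measureReal_mono
  · intro y hy
    exact lt_of_le_of_lt hab hy
  · exact measure_ne_top _ _

theorem F_meas (f : ℝ → ℝ) : Measurable (fun s : ℝ => mu.real {y | s < |f y|}) :=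
  (F_anti f).measurable

theorem tail_two (a c : ℝ) (ha : 0 < a) (hc : 0 ≤ c) :
    ∫⁻ t in Ioi a, ENNReal.ofReal (c / t ^ 2) = ENNReal.ofReal (c / a) := by
  have h1 : ∀ t ∈ Ioi a, c / t ^ 2 = c * t ^ (-2 : ℝ) := by
    intro t ht
    have : 0 < t := lt_trans ha ht
    rw [Real.rpow_neg this.le, show (2 : ℝ) = ((2 : ℕ) : ℝ) by norm_num, Real.rpow_natCast]
    rfl
  rw [setLIntegral_congr_fun (g := fun t => ENNReal.ofReal (c * t ^ (-2 : ℝ))) measurableSet_Ioi
    (fun t ht => by simp only [h1 t ht])]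
  rw [← ofReal_integral_eq_lintegral_ofReal, integral_const_mul,
    integral_Ioi_rpow_of_lt (by norm_num) ha]
  · congr 1
    norm_num
    rw [Real.rpow_neg_one]
    rfl
  · exact (integrableOn_Ioi_rpow_of_lt (by norm_num) ha).const_mul c
  · filter_upwards [ae_restrict_mem measurableSet_Ioi] with t ht
    have : 0 < t := lt_trans ha ht
    simp only [Pi.zero_apply]
    positivity

theorem tail_th (a c : ℝ) (ha : 0 < a) (hc : 0 ≤ c) :
    ∫⁻ t in Ioi a, ENNReal.ofReal (c * t ^ (-3 / 2 : ℝ)) = ENNReal.ofReal (2 * c / Real.sqrt a) := by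
  rw [← ofReal_integral_eq_lintegral_ofReal, integral_const_mul,
    integral_Ioi_rpow_of_lt (by norm_num) ha]
  · congr 1
    have h : (-3 / 2 : ℝ) + 1 = -(1 / 2) := by norm_num
    rw [h, Real.rpow_neg ha.le, Real.sqrt_eq_rpow]
    field_simp
  · exact (integrableOn_Ioi_rpow_of_lt (by norm_num) ha).const_mul c
  · filter_upwards [ae_restrict_mem measurableSet_Ioi] with t ht
    have : 0 < t := lt_trans ha ht
    simp only [Pi.zero_apply]
    positivity

theorem mid_one (b c : ℝ) (hb : 1 ≤ b) (hc : 0 ≤ c) :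
    ∫⁻ t in Ioc 1 b, ENNReal.ofReal (c / t) = ENNReal.ofReal (c * Real.log b) := by
  have hi : IntervalIntegrable (fun t : ℝ => c * t⁻¹) volume 1 b := by
    apply ContinuousOn.intervalIntegrable
    apply ContinuousOn.mul continuousOn_const
    apply ContinuousOn.inv₀ continuousOn_id
    intro t ht
    rw [uIcc_of_le hb] at ht
    have : (0 : ℝ) < t := lt_of_lt_of_le one_pos ht.1
    exact this.ne'
  have h2 : IntegrableOn (fun t : ℝ => c / t) (Ioc 1 b) :=
    ((intervalIntegrable_iff_integrableOn_Ioc_of_le hb).1 hi)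
  rw [← ofReal_integral_eq_lintegral_ofReal h2]
  · congr 1
    rw [← intervalIntegral.integral_of_le hb]
    have h3 : ∫ t in (1 : ℝ)..b, c / t = c * ∫ t in (1 : ℝ)..b, t⁻¹ := by
      rw [← intervalIntegral.integral_const_mul]
      rfl
    rw [h3, integral_inv_of_pos one_pos (lt_of_lt_of_le one_pos hb), div_one]
  · filter_upwards [ae_restrict_mem measurableSet_Ioc] with t ht
    have : 0 < t := lt_trans one_pos ht.1
    simp only [Pi.zero_apply]
    positivity

/-- weak type bound -/
theorem A_weak {f : ℝ → ℝ} (hA : A f ≤ 1) {s : ℝ} (hs : 0 < s) :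
    (mu.real {y | s < |f y|}) ^ 2 * s ^ 3 ≤ 3 := by
  set F := mu.real {y | s < |f y|} with hF
  have hF0 : 0 ≤ F := measureReal_nonneg
  have h1 : ∫⁻ l in Ioc (0:ℝ) s, ENNReal.ofReal (l ^ 2 * F ^ 2) ≤ 1 := by
    refine le_trans ?_ hA
    unfold A
    refine le_trans ?_ (lintegral_mono_set (fun (x : ℝ) (hx : x ∈ Ioc (0 : ℝ) s) => (hx.1 : x ∈ Ioi (0 : ℝ))))
    apply setLIntegral_mono' measurableSet_Ioc
    intro l hl
    apply ENNReal.ofReal_le_ofReal
    apply mul_le_mul_of_nonneg_left _ (sq_nonneg _)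
    exact pow_le_pow_left₀ hF0 (F_anti f hl.2) 2
  have hi : IntervalIntegrable (fun l : ℝ => l ^ 2 * F ^ 2) volume 0 s :=
    (by fun_prop : Continuous fun l : ℝ => l ^ 2 * F ^ 2).intervalIntegrable _ _
  have h2 : IntegrableOn (fun l : ℝ => l ^ 2 * F ^ 2) (Ioc 0 s) :=
    ((intervalIntegrable_iff_integrableOn_Ioc_of_le hs.le).1 hi)
  rw [← ofReal_integral_eq_lintegral_ofReal h2 (Filter.Eventually.of_forall fun l => by
    simp only [Pi.zero_apply]; positivity), ← intervalIntegral.integral_of_le hs.le,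
    intervalIntegral.integral_mul_const, integral_pow] at h1
  have h3 := ENNReal.ofReal_le_one.1 h1
  norm_num at h3
  linarith

theorem l1_bound {f : ℝ → ℝ} (hf : Measurable f) (hA : A f ≤ 1) :
    ∫⁻ y, ENNReal.ofReal |f y| ∂mu ≤ 3 := by
  have h1 := lintegral_eq_lintegral_meas_lt mu
    (f := fun y => |f y|) (Filter.Eventually.of_forall fun y => abs_nonneg _)
    (hf.abs).aemeasurable
  rw [h1]
  have hsplit : Ioi (0 : ℝ) = Ioc 0 1 ∪ Ioi 1 := (Ioc_union_Ioi_eq_Ioi zero_le_one).symm
  rw [hsplit]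
  refine (lintegral_union_le _ _ _).trans ?_
  have e1 : ∫⁻ t in Ioc (0 : ℝ) 1, mu {a | t < |f a|} ≤ 1 := by
    calc ∫⁻ t in Ioc (0 : ℝ) 1, mu {a | t < |f a|} ≤ ∫⁻ t in Ioc (0 : ℝ) 1, 1 := by
          apply lintegral_mono
          intro t
          exact prob_le_one
      _ = 1 := by simp
  have e2 : ∫⁻ t in Ioi (1 : ℝ), mu {a | t < |f a|} ≤ 2 := by
    calc ∫⁻ t in Ioi (1 : ℝ), mu {a | t < |f a|}
        ≤ ∫⁻ t in Ioi (1 : ℝ), (ENNReal.ofReal (t ^ 2 * (mu.real {y | t < |f y|}) ^ 2) +
          ENNReal.ofReal ((1 / 4) / t ^ 2)) := by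
          apply setLIntegral_mono' measurableSet_Ioi
          intro t ht
          have ht0 : (0 : ℝ) < t := lt_trans one_pos ht
          rw [← ENNReal.ofReal_add (by positivity) (by positivity), ← ofReal_measureReal]
          apply ENNReal.ofReal_le_ofReal
          set F := mu.real {y | t < |f y|}
          have h5 : 0 ≤ (t * F - 1 / (2 * t)) ^ 2 := sq_nonneg _
          have h6 : (t * F - 1 / (2 * t)) ^ 2 = t ^ 2 * F ^ 2 - F + (1 / 4) / t ^ 2 := by
            field_simp
            ring
          linarith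
      _ = (∫⁻ t in Ioi (1 : ℝ), ENNReal.ofReal (t ^ 2 * (mu.real {y | t < |f y|}) ^ 2)) +
          (∫⁻ t in Ioi (1 : ℝ), ENNReal.ofReal ((1 / 4) / t ^ 2)) := by
          rw [lintegral_add_right _ (by fun_prop)]
      _ ≤ 1 + 1 := by
          apply add_le_add
          · refine le_trans ?_ hA
            unfold A
            exact lintegral_mono_set (Ioi_subset_Ioi zero_le_one)
          · rw [tail_two 1 (1 / 4) one_pos (by norm_num)]
            rw [ENNReal.ofReal_le_one]
            norm_num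
      _ = 2 := by norm_num
  calc _ ≤ (1 : ℝ≥0∞) + 2 := add_le_add e1 e2
    _ = 3 := by norm_num

/-- the inequality (star) of the hint -/
theorem star_le {n : ℕ} {f V : ℝ → ℝ} (hf : Measurable f) (hV : Measurable V)
    (htail : ∀ t : ℝ, 0 < t → ∫⁻ y, ENNReal.ofReal (if t < |V y| then |V y| else 0) ∂mu ≤
      ENNReal.ofReal (5000 / ((n:ℝ) ^ 12 * t ^ 2))) (s t : ℝ) (ht : 0 < t) :
    ∫⁻ y in {y | s < |f y|}, ENNReal.ofReal |V y| ∂mu ≤
      ENNReal.ofReal (t * mu.real {y | s < |f y|} + 5000 / ((n:ℝ) ^ 12 * t ^ 2)) := by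
  have hm : Measurable (fun y => if t < |V y| then |V y| else 0) :=
    Measurable.ite (measurableSet_lt measurable_const hV.abs) hV.abs measurable_const
  calc ∫⁻ y in {y | s < |f y|}, ENNReal.ofReal |V y| ∂mu
      ≤ ∫⁻ y in {y | s < |f y|}, (ENNReal.ofReal t +
        ENNReal.ofReal (if t < |V y| then |V y| else 0)) ∂mu := by
        apply lintegral_mono
        intro y
        show ENNReal.ofReal |V y| ≤ ENNReal.ofReal t +
          ENNReal.ofReal (if t < |V y| then |V y| else 0)
        split_ifs with h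
        · exact le_add_self
        · push Not at h
          exact le_add_right (ENNReal.ofReal_le_ofReal h)
    _ = ENNReal.ofReal t * mu {y | s < |f y|} +
        ∫⁻ y in {y | s < |f y|}, ENNReal.ofReal (if t < |V y| then |V y| else 0) ∂mu := by
        rw [lintegral_add_left measurable_const, setLIntegral_const]
    _ ≤ ENNReal.ofReal (t * mu.real {y | s < |f y|}) +
        ENNReal.ofReal (5000 / ((n:ℝ) ^ 12 * t ^ 2)) := by
        apply add_le_add
        · rw [ENNReal.ofReal_mul ht.le, ofReal_measureReal]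
        · exact (setLIntegral_le_lintegral _ _).trans (htail t ht)
    _ = _ := by
        rw [← ENNReal.ofReal_add]
        · exact mul_nonneg ht.le measureReal_nonneg
        · positivity

theorem domain_abs {n : ℕ} (hn : 1 ≤ n) {f V : ℝ → ℝ} (hf : Measurable f) (hV : Measurable V)
    (htail : ∀ t : ℝ, 0 < t → ∫⁻ y, ENNReal.ofReal (if t < |V y| then |V y| else 0) ∂mu ≤
      ENNReal.ofReal (5000 / ((n:ℝ) ^ 12 * t ^ 2)))
    (hmax : ∀ y, |V y| ≤ 64 ^ (n ^ 6)) (hA : A f ≤ 1) :
    ∫⁻ y, ENNReal.ofReal (|f y| * |V y|) ∂mu ≤ ENNReal.ofReal 60000 := by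
  have hn' : (1 : ℝ) ≤ n := by exact_mod_cast hn
  have hn0 : (0 : ℝ) < n := by linarith
  rw [layer hf hV]
  set G : ℝ → ℝ≥0∞ := fun s => ∫⁻ y in {y | s < |f y|}, ENNReal.ofReal |V y| ∂mu with hG
  set s1 : ℝ := 64 ^ (2 * n ^ 6) with hs1
  have hs1' : (1 : ℝ) ≤ s1 := one_le_pow₀ (by norm_num)
  have hAr : ∀ S : Set ℝ, S ⊆ Ioi 0 →
      ∫⁻ t in S, ENNReal.ofReal (t ^ 2 * (mu.real {y | t < |f y|}) ^ 2) ≤ 1 := by
    intro S hS
    refine le_trans ?_ hA
    unfold A
    exact lintegral_mono_set hS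
  have hsplit : Ioi (0 : ℝ) = Ioc 0 1 ∪ (Ioc 1 s1 ∪ Ioi s1) := by
    rw [Ioc_union_Ioi_eq_Ioi hs1', Ioc_union_Ioi_eq_Ioi zero_le_one]
  have e1 : ∫⁻ s in Ioc (0 : ℝ) 1, G s ≤ ENNReal.ofReal 5001 := by
    calc ∫⁻ s in Ioc (0 : ℝ) 1, G s ≤ ∫⁻ s in Ioc (0 : ℝ) 1, ENNReal.ofReal 5001 := by
          apply lintegral_mono
          intro s
          refine (star_le hf hV htail s (1 / (n : ℝ) ^ 4) (by positivity)).trans ?_
          apply ENNReal.ofReal_le_ofReal
          have h1 := F_le_one f s
          have h0 : 0 ≤ mu.real {y | s < |f y|} := measureReal_nonneg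
          have h2 : 5000 / ((n:ℝ) ^ 12 * (1 / (n : ℝ) ^ 4) ^ 2) = 5000 / (n : ℝ) ^ 4 := by
            field_simp
          rw [h2]
          have h3 : (1 : ℝ) ≤ (n : ℝ) ^ 4 := one_le_pow₀ hn'
          have h4 : 5000 / (n : ℝ) ^ 4 ≤ 5000 := div_le_self (by norm_num) h3
          have h5 : 1 / (n : ℝ) ^ 4 ≤ 1 := div_le_self (by norm_num) h3
          have h6 : 1 / (n : ℝ) ^ 4 * mu.real {y | s < |f y|} ≤ 1 := mul_le_one₀ h5 h0 h1
          linarith
      _ = ENNReal.ofReal 5001 := by
          rw [setLIntegral_const]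
          simp
  have e2 : ∫⁻ s in Ioc 1 s1, G s ≤ ENNReal.ofReal 50010 := by
    calc ∫⁻ s in Ioc 1 s1, G s
        ≤ ∫⁻ s in Ioc 1 s1, (ENNReal.ofReal 5001 *
            ENNReal.ofReal (s ^ 2 * (mu.real {y | s < |f y|}) ^ 2) +
            ENNReal.ofReal ((5001 / (n : ℝ) ^ 6) / s)) := by
          apply setLIntegral_mono' measurableSet_Ioc
          intro s hs
          have hs0 : (0 : ℝ) < s := lt_trans one_pos hs.1
          have h0 : 0 ≤ mu.real {y | s < |f y|} := measureReal_nonneg
          rw [← ENNReal.ofReal_mul (by norm_num), ← ENNReal.ofReal_add (by positivity) (by positivity)]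
          set F := mu.real {y | s < |f y|} with hF
          by_cases hc : 1 ≤ (n : ℝ) ^ 3 * (s * Real.sqrt s) * F
          · have hFpos : 0 < F := by
              rcases h0.lt_or_eq with h | h
              · exact h
              · rw [← h] at hc
                simp at hc
                linarith
            refine (star_le hf hV htail s (s ^ 2 * F) (by positivity)).trans ?_
            apply ENNReal.ofReal_le_ofReal
            rw [← hF]
            have h4 : 1 ≤ ((n : ℝ) ^ 3 * (s * Real.sqrt s) * F) ^ 4 := one_le_pow₀ hc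
            have h5 : ((n : ℝ) ^ 3 * (s * Real.sqrt s) * F) ^ 4 = (n : ℝ) ^ 12 * s ^ 6 * F ^ 4 := by
              have : Real.sqrt s ^ 4 = s ^ 2 := by
                calc Real.sqrt s ^ 4 = (Real.sqrt s ^ 2) ^ 2 := by ring
                  _ = s ^ 2 := by rw [Real.sq_sqrt hs0.le]
              calc _ = (n : ℝ) ^ 12 * s ^ 4 * (Real.sqrt s ^ 4) * F ^ 4 := by ring
                _ = _ := by rw [this]; ring
            rw [h5] at h4
            have h6 : 5000 / ((n : ℝ) ^ 12 * (s ^ 2 * F) ^ 2) ≤ 5000 * (s ^ 2 * F ^ 2) := by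
              rw [div_le_iff₀ (by positivity)]
              have : 5000 * (s ^ 2 * F ^ 2) * ((n : ℝ) ^ 12 * (s ^ 2 * F) ^ 2) =
                5000 * ((n : ℝ) ^ 12 * s ^ 6 * F ^ 4) := by ring
              rw [this]
              linarith
            have h7 : 0 ≤ 5001 / (n : ℝ) ^ 6 / s := by positivity
            have h8 : s ^ 2 * F * F = s ^ 2 * F ^ 2 := by ring
            rw [h8]
            linarith
          · push Not at hc
            have hsq : 0 < Real.sqrt s := Real.sqrt_pos.2 hs0
            refine (star_le hf hV htail s (Real.sqrt s / (n : ℝ) ^ 3) (by positivity)).trans ?_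
            apply ENNReal.ofReal_le_ofReal
            rw [← hF]
            have h4 : 5000 / ((n : ℝ) ^ 12 * (Real.sqrt s / (n : ℝ) ^ 3) ^ 2) =
                5000 / (n : ℝ) ^ 6 / s := by
              rw [div_pow, Real.sq_sqrt hs0.le]
              field_simp
            rw [h4]
            have h5 : Real.sqrt s / (n : ℝ) ^ 3 * F ≤ 1 / (n : ℝ) ^ 6 / s := by
              rw [div_div, le_div_iff₀ (by positivity)]
              have : Real.sqrt s / (n : ℝ) ^ 3 * F * ((n : ℝ) ^ 6 * s) =
                  (n : ℝ) ^ 3 * (s * Real.sqrt s) * F := by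
                field_simp
              rw [this]
              exact hc.le
            have h6 : 0 ≤ 5001 * (s ^ 2 * F ^ 2) := by positivity
            have h7 : 1 / (n : ℝ) ^ 6 / s + 5000 / (n : ℝ) ^ 6 / s = 5001 / (n : ℝ) ^ 6 / s := by
              field_simp
              norm_num
            linarith
      _ = ENNReal.ofReal 5001 * (∫⁻ s in Ioc 1 s1, ENNReal.ofReal (s ^ 2 * (mu.real {y | s < |f y|}) ^ 2)) +
            (∫⁻ s in Ioc 1 s1, ENNReal.ofReal ((5001 / (n : ℝ) ^ 6) / s)) := by
          rw [lintegral_add_right _ (by fun_prop), lintegral_const_mul' _ _ ENNReal.ofReal_ne_top]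
      _ ≤ ENNReal.ofReal 5001 * 1 + ENNReal.ofReal 45009 := by
          apply add_le_add
          · apply mul_le_mul_right
            exact hAr _ (fun x hx => lt_trans one_pos hx.1)
          · rw [mid_one s1 _ hs1' (by positivity)]
            apply ENNReal.ofReal_le_ofReal
            rw [hs1, Real.log_pow]
            have h1 : Real.log 64 = 6 * Real.log 2 := by
              rw [show (64 : ℝ) = 2 ^ 6 by norm_num, Real.log_pow]
              norm_num
            rw [h1]
            push_cast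
            have h2 : 5001 / (n : ℝ) ^ 6 * (2 * (n : ℝ) ^ 6 * (6 * Real.log 2)) =
                5001 * 12 * Real.log 2 := by
              field_simp
              ring
            rw [h2]
            have h3 := Real.log_two_lt_d9
            linarith
      _ = ENNReal.ofReal 50010 := by
          rw [mul_one, ← ENNReal.ofReal_add (by norm_num) (by norm_num)]
          norm_num
  have e3 : ∫⁻ s in Ioi s1, G s ≤ ENNReal.ofReal 2 := by
    calc ∫⁻ s in Ioi s1, G s
        ≤ ∫⁻ s in Ioi s1, (ENNReal.ofReal (s ^ 2 * (mu.real {y | s < |f y|}) ^ 2) +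
            ENNReal.ofReal ((s1 / 4) / s ^ 2)) := by
          apply setLIntegral_mono' measurableSet_Ioi
          intro s hs
          have hs0 : (0 : ℝ) < s := lt_trans (by linarith) hs
          have h0 : 0 ≤ mu.real {y | s < |f y|} := measureReal_nonneg
          have hs10 : 0 < s1 := by linarith
          rw [← ENNReal.ofReal_add (by positivity) (by positivity)]
          calc G s ≤ ∫⁻ y in {y | s < |f y|}, ENNReal.ofReal (64 ^ (n ^ 6)) ∂mu := by
                apply lintegral_mono
                intro y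
                exact ENNReal.ofReal_le_ofReal (hmax y)
            _ = ENNReal.ofReal (64 ^ (n ^ 6) * mu.real {y | s < |f y|}) := by
                rw [setLIntegral_const, ENNReal.ofReal_mul (by positivity), ofReal_measureReal]
            _ ≤ _ := by
                apply ENNReal.ofReal_le_ofReal
                set F := mu.real {y | s < |f y|}
                set m : ℝ := 64 ^ (n ^ 6) with hm
                have hsm : s1 = m ^ 2 := by
                  rw [hs1, hm, ← pow_mul, mul_comm]
                rw [hsm]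
                have h5 : 0 ≤ (s * F - m / (2 * s)) ^ 2 := sq_nonneg _
                have h6 : (s * F - m / (2 * s)) ^ 2 = s ^ 2 * F ^ 2 - m * F + (m ^ 2 / 4) / s ^ 2 := by
                  field_simp
                  ring
                linarith
      _ = (∫⁻ s in Ioi s1, ENNReal.ofReal (s ^ 2 * (mu.real {y | s < |f y|}) ^ 2)) +
            (∫⁻ s in Ioi s1, ENNReal.ofReal ((s1 / 4) / s ^ 2)) := by
          rw [lintegral_add_right _ (by fun_prop)]
      _ ≤ 1 + ENNReal.ofReal 1 := by
          apply add_le_add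
          · exact hAr _ (fun x hx => lt_trans (lt_of_lt_of_le one_pos hs1') hx)
          · rw [tail_two s1 _ (by linarith) (by linarith)]
            apply ENNReal.ofReal_le_ofReal
            have : s1 / 4 / s1 = 1 / 4 := by
              field_simp
            rw [this]
            norm_num
      _ = ENNReal.ofReal 2 := by
          rw [show (1 : ℝ≥0∞) = ENNReal.ofReal 1 by simp, ← ENNReal.ofReal_add (by norm_num) (by norm_num)]
          norm_num
  rw [hsplit]
  calc ∫⁻ s in Ioc 0 1 ∪ (Ioc 1 s1 ∪ Ioi s1), G s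
      ≤ (∫⁻ s in Ioc (0 : ℝ) 1, G s) + ((∫⁻ s in Ioc 1 s1, G s) + (∫⁻ s in Ioi s1, G s)) := by
        refine (lintegral_union_le _ _ _).trans ?_
        gcongr
        exact lintegral_union_le _ _ _
    _ ≤ ENNReal.ofReal 5001 + (ENNReal.ofReal 50010 + ENNReal.ofReal 2) := by
        gcongr
    _ = ENNReal.ofReal 55013 := by
        rw [← ENNReal.ofReal_add (by norm_num) (by norm_num),
          ← ENNReal.ofReal_add (by norm_num) (by norm_num)]
        norm_num
    _ ≤ ENNReal.ofReal 60000 := ENNReal.ofReal_le_ofReal (by norm_num)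

theorem domain_flat {n : ℕ} (hn : 1 ≤ n) {f V : ℝ → ℝ} (hf : Measurable f) (hV : Measurable V)
    (htail : ∀ t : ℝ, 0 < t → ∫⁻ y, ENNReal.ofReal (if t < |V y| then |V y| else 0) ∂mu ≤
      ENNReal.ofReal (5000 / ((n:ℝ) ^ 12 * t ^ 2)))
    {H : ℝ} (hH : ∀ y, |f y| ≤ H) :
    ∫⁻ y, ENNReal.ofReal (|f y| * |V y|) ∂mu ≤ ENNReal.ofReal (5001 * H / (n:ℝ) ^ 4) := by
  have hn' : (1 : ℝ) ≤ n := by exact_mod_cast hn
  have hn0 : (0 : ℝ) < n := by linarith
  have hH0 : 0 ≤ H := le_trans (abs_nonneg _) (hH 0)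
  have h1 := star_le (f := fun _ => 1) measurable_const hV htail 0 (1 / (n : ℝ) ^ 4) (by positivity)
  have hset : {y : ℝ | (0 : ℝ) < |(fun _ : ℝ => (1 : ℝ)) y|} = univ := by
    ext y
    simp
  rw [hset, Measure.restrict_univ] at h1
  have h2 : mu.real univ = 1 := by simp
  rw [h2] at h1
  have h3 : 1 / (n : ℝ) ^ 4 * 1 + 5000 / ((n:ℝ) ^ 12 * (1 / (n : ℝ) ^ 4) ^ 2) = 5001 / (n : ℝ) ^ 4 := by
    field_simp
    norm_num
  rw [h3] at h1
  calc ∫⁻ y, ENNReal.ofReal (|f y| * |V y|) ∂mu
      ≤ ∫⁻ y, ENNReal.ofReal H * ENNReal.ofReal |V y| ∂mu := by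
        apply lintegral_mono
        intro y
        show ENNReal.ofReal (|f y| * |V y|) ≤ ENNReal.ofReal H * ENNReal.ofReal |V y|
        rw [← ENNReal.ofReal_mul hH0]
        apply ENNReal.ofReal_le_ofReal
        exact mul_le_mul_of_nonneg_right (hH y) (abs_nonneg _)
    _ = ENNReal.ofReal H * ∫⁻ y, ENNReal.ofReal |V y| ∂mu := by
        rw [lintegral_const_mul' _ _ ENNReal.ofReal_ne_top]
    _ ≤ ENNReal.ofReal H * ENNReal.ofReal (5001 / (n : ℝ) ^ 4) := by
        gcongr
    _ = _ := by
        rw [← ENNReal.ofReal_mul hH0]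
        congr 1
        ring

theorem domain_high {n : ℕ} {f V : ℝ → ℝ} (hf : Measurable f) (hV : Measurable V)
    (hmax : ∀ y, |V y| ≤ 64 ^ (n ^ 6)) (hA : A f ≤ 1) {H : ℝ} (hH : 0 < H)
    (hfH : ∀ y, f y = 0 ∨ H < |f y|) :
    ∫⁻ y, ENNReal.ofReal (|f y| * |V y|) ∂mu ≤ ENNReal.ofReal (6 * 64 ^ (n ^ 6) / Real.sqrt H) := by
  have hsH : 0 < Real.sqrt H := Real.sqrt_pos.2 hH
  have hF : ∀ s : ℝ, 0 < s → mu.real {y | s < |f y|} ≤ Real.sqrt 3 * s ^ (-3 / 2 : ℝ) := by
    intro s hs
    have h1 := A_weak hA hs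
    have h0 : 0 ≤ mu.real {y | s < |f y|} := measureReal_nonneg
    apply le_of_sq_le_sq _ (by positivity)
    rw [mul_pow, Real.sq_sqrt (by norm_num), ← Real.rpow_natCast (s ^ (-3 / 2 : ℝ)) 2,
      ← Real.rpow_mul hs.le]
    have h2 : ((-3 / 2 : ℝ) * ((2 : ℕ) : ℝ)) = -((3 : ℕ) : ℝ) := by push_cast; norm_num
    rw [h2, Real.rpow_neg hs.le, Real.rpow_natCast, ← div_eq_mul_inv, le_div_iff₀ (by positivity)]
    exact h1
  have hint : ∫⁻ y, ENNReal.ofReal |f y| ∂mu ≤ ENNReal.ofReal (6 / Real.sqrt H) := by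
    rw [lintegral_eq_lintegral_meas_lt mu
      (f := fun y => |f y|) (Filter.Eventually.of_forall fun y => abs_nonneg _)
      (hf.abs).aemeasurable]
    have hsplit : Ioi (0 : ℝ) = Ioc 0 H ∪ Ioi H := (Ioc_union_Ioi_eq_Ioi hH.le).symm
    rw [hsplit]
    have h3 : Real.sqrt 3 ≤ 2 := by
      rw [Real.sqrt_le_left (by norm_num)]
      norm_num
    have e1 : ∫⁻ t in Ioc (0 : ℝ) H, mu {a | t < |f a|} ≤ ENNReal.ofReal (2 / Real.sqrt H) := by
      calc ∫⁻ t in Ioc (0 : ℝ) H, mu {a | t < |f a|}
          ≤ ∫⁻ t in Ioc (0 : ℝ) H, ENNReal.ofReal (2 * H ^ (-3 / 2 : ℝ)) := by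
            apply setLIntegral_mono' measurableSet_Ioc
            intro t ht
            have hset : {a | t < |f a|} ⊆ {a | H < |f a|} := by
              intro y hy
              rcases hfH y with h | h
              · rw [mem_ofPred_eq, h, abs_zero] at hy
                exact absurd hy (not_lt.2 ht.1.le)
              · exact h
            refine (measure_mono hset).trans ?_
            rw [← ofReal_measureReal]
            apply ENNReal.ofReal_le_ofReal
            refine (hF H hH).trans ?_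
            exact mul_le_mul_of_nonneg_right h3 (by positivity)
        _ = ENNReal.ofReal (2 / Real.sqrt H) := by
            rw [setLIntegral_const, Real.volume_Ioc, sub_zero, ← ENNReal.ofReal_mul (by positivity)]
            congr 1
            have h5 : H ^ (-3 / 2 : ℝ) * H = 1 / Real.sqrt H := by
              rw [Real.sqrt_eq_rpow, one_div, ← Real.rpow_neg hH.le]
              nth_rewrite 2 [← Real.rpow_one H]
              rw [← Real.rpow_add hH]
              norm_num
            rw [mul_assoc, h5]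
            ring
    have e2 : ∫⁻ t in Ioi H, mu {a | t < |f a|} ≤ ENNReal.ofReal (4 / Real.sqrt H) := by
      calc ∫⁻ t in Ioi H, mu {a | t < |f a|}
          ≤ ∫⁻ t in Ioi H, ENNReal.ofReal (2 * t ^ (-3 / 2 : ℝ)) := by
            apply setLIntegral_mono' measurableSet_Ioi
            intro t ht
            have ht0 : 0 < t := lt_trans hH ht
            rw [← ofReal_measureReal]
            apply ENNReal.ofReal_le_ofReal
            refine (hF t ht0).trans ?_
            exact mul_le_mul_of_nonneg_right h3 (by positivity)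
        _ = ENNReal.ofReal (4 / Real.sqrt H) := by
            rw [tail_th H 2 hH (by norm_num)]
            norm_num
    refine (lintegral_union_le _ _ _).trans ?_
    refine (add_le_add e1 e2).trans ?_
    rw [← ENNReal.ofReal_add (by positivity) (by positivity)]
    apply ENNReal.ofReal_le_ofReal
    rw [← add_div]
    norm_num
  calc ∫⁻ y, ENNReal.ofReal (|f y| * |V y|) ∂mu
      ≤ ∫⁻ y, ENNReal.ofReal (64 ^ (n ^ 6)) * ENNReal.ofReal |f y| ∂mu := by
        apply lintegral_mono
        intro y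
        show ENNReal.ofReal (|f y| * |V y|) ≤ ENNReal.ofReal (64 ^ (n ^ 6)) * ENNReal.ofReal |f y|
        rw [← ENNReal.ofReal_mul (by positivity), mul_comm]
        apply ENNReal.ofReal_le_ofReal
        exact mul_le_mul_of_nonneg_right (hmax y) (abs_nonneg _)
    _ = ENNReal.ofReal (64 ^ (n ^ 6)) * ∫⁻ y, ENNReal.ofReal |f y| ∂mu := by
        rw [lintegral_const_mul' _ _ ENNReal.ofReal_ne_top]
    _ ≤ ENNReal.ofReal (64 ^ (n ^ 6)) * ENNReal.ofReal (6 / Real.sqrt H) := by
        gcongr
    _ = _ := by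
        rw [← ENNReal.ofReal_mul (by positivity)]
        congr 1
        ring

end Pool.Agent.Helper401.OB

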