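import Mathlib

set_option autoImplicit false

namespace Pool.Agent.Helper401.OB

theorem dual {a b : ℕ} (c : ℕ → ℝ) {K : ℝ}
    (hK : ∀ d D : ℕ → ℝ, (∀ J, 0 ≤ D J) →
      (∀ J < a, ∑ i ∈ Finset.range b, d (J * b + i) ^ 2 ≤ D J ^ 2) →
      ∑ J ∈ Finset.range a, D J ^ 3 ≤ 1 →
      |∑ J ∈ Finset.range a, ∑ i ∈ Finset.range b, c (J * b + i) * d (J * b + i)| ≤ K) :
    (∑ J ∈ Finset.range a,
      (Real.sqrt (Real.sqrt (∑ i ∈ Finset.range b, c (J * b + i) ^ 2))) ^ 3) ^ 2 ≤ K ^ 3 := by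
  set w : ℕ → ℝ := fun J => Real.sqrt (Real.sqrt (∑ i ∈ Finset.range b, c (J * b + i) ^ 2)) with hw
  have hw0 : ∀ J, 0 ≤ w J := fun J => Real.sqrt_nonneg _
  have hw4 : ∀ J, ∑ i ∈ Finset.range b, c (J * b + i) ^ 2 = w J ^ 4 := by
    intro J
    have h1 : 0 ≤ ∑ i ∈ Finset.range b, c (J * b + i) ^ 2 :=
      Finset.sum_nonneg fun i _ => sq_nonneg _
    have h2 : w J ^ 2 = Real.sqrt (∑ i ∈ Finset.range b, c (J * b + i) ^ 2) :=
      Real.sq_sqrt (Real.sqrt_nonneg _)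
    calc ∑ i ∈ Finset.range b, c (J * b + i) ^ 2
        = Real.sqrt (∑ i ∈ Finset.range b, c (J * b + i) ^ 2) ^ 2 := (Real.sq_sqrt h1).symm
      _ = w J ^ 4 := by rw [← h2]; ring
  have hK0 : 0 ≤ K := by
    have := hK (fun _ => 0) (fun _ => 0) (fun _ => le_rfl) (by simp) (by simp)
    simpa using this
  have hW0 : 0 ≤ ∑ J ∈ Finset.range a, w J ^ 3 := Finset.sum_nonneg fun J _ => pow_nonneg (hw0 J) 3
  change (∑ J ∈ Finset.range a, w J ^ 3) ^ 2 ≤ K ^ 3
  set W := ∑ J ∈ Finset.range a, w J ^ 3 with hW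
  rcases hW0.eq_or_lt with h0 | hpos
  · rw [← h0, zero_pow two_ne_zero]
    exact pow_nonneg hK0 3
  obtain ⟨θ, hθ, hθ3⟩ : ∃ θ : ℝ, 0 < θ ∧ θ ^ 3 = W := by
    refine ⟨W ^ (1 / 3 : ℝ), by positivity, ?_⟩
    rw [← Real.rpow_natCast, ← Real.rpow_mul hpos.le]
    norm_num
  have key := hK (fun k => c k / (w (k / b) * θ)) (fun J => w J / θ)
    (fun J => div_nonneg (hw0 J) hθ.le) ?_ ?_
  · have e1 : ∀ J ∈ Finset.range a, ∑ i ∈ Finset.range b,
        c (J * b + i) * (c (J * b + i) / (w ((J * b + i) / b) * θ)) = w J ^ 3 / θ := by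
      intro J _
      have e2 : ∀ i ∈ Finset.range b, c (J * b + i) * (c (J * b + i) / (w ((J * b + i) / b) * θ)) =
          c (J * b + i) ^ 2 / (w J * θ) := by
        intro i hi
        rw [Finset.mem_range] at hi
        have e3 : (J * b + i) / b = J := by
          rw [mul_comm, Nat.mul_add_div (by omega), Nat.div_eq_of_lt hi, add_zero]
        rw [e3]
        ring
      rw [Finset.sum_congr rfl e2, ← Finset.sum_div, hw4]
      by_cases h : w J = 0
      · rw [h]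
        simp
      · field_simp
    rw [Finset.sum_congr rfl e1, ← Finset.sum_div, ← hW, ← hθ3] at key
    have e4 : θ ^ 3 / θ = θ ^ 2 := by field_simp
    rw [e4, abs_of_pos (by positivity)] at key
    calc W ^ 2 = (θ ^ 2) ^ 3 := by rw [← hθ3]; ring
      _ ≤ K ^ 3 := by gcongr
  · intro J _
    have e2 : ∀ i ∈ Finset.range b, (c (J * b + i) / (w ((J * b + i) / b) * θ)) ^ 2 =
        c (J * b + i) ^ 2 / (w J * θ) ^ 2 := by
      intro i hi
      rw [Finset.mem_range] at hi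
      have e3 : (J * b + i) / b = J := by
        rw [mul_comm, Nat.mul_add_div (by omega), Nat.div_eq_of_lt hi, add_zero]
      rw [e3, div_pow]
    rw [Finset.sum_congr rfl e2, ← Finset.sum_div, hw4]
    by_cases h : w J = 0
    · rw [h]
      simp
    · apply le_of_eq
      field_simp
  · have e1 : ∀ J ∈ Finset.range a, (w J / θ) ^ 3 = w J ^ 3 / θ ^ 3 := fun J _ => div_pow _ _ _
    rw [Finset.sum_congr rfl e1, ← Finset.sum_div, ← hW, hθ3, div_self hpos.ne']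

end Pool.Agent.Helper401.OB
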