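import Mathlib

set_option autoImplicit false

open MeasureTheory Set
open scoped ENNReal

namespace Pool.Agent.Helper401.OB

noncomputable def Th (B : ℕ) (z : ℝ) : ℝ :=
  ∑ m ∈ Finset.range B, ((8:ℝ) ^ m)⁻¹ * min 1 (4 * 16 ^ m / z ^ 2)

theorem Th_nonneg (B : ℕ) (z : ℝ) : 0 ≤ Th B z := by
  unfold Th
  positivity

theorem geo8 (B : ℕ) : ∑ m ∈ Finset.range B, ((8:ℝ) ^ m)⁻¹ ≤ 8 / 7 := by
  have h : ∑ m ∈ Finset.range B, ((8:ℝ) ^ m)⁻¹ + 8 / 7 * ((8:ℝ) ^ B)⁻¹ = 8 / 7 := by
    induction B with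
    | zero => simp
    | succ n ih =>
      rw [Finset.sum_range_succ]
      rw [pow_succ, mul_inv]
      linarith
  have : 0 ≤ 8 / 7 * ((8:ℝ) ^ B)⁻¹ := by positivity
  linarith

theorem geo2 (B : ℕ) : ∑ m ∈ Finset.range B, ((2:ℝ) ^ m) ≤ 2 ^ B := by
  have h : ∑ m ∈ Finset.range B, ((2:ℝ) ^ m) + 1 = 2 ^ B := by
    induction B with
    | zero => simp
    | succ n ih =>
      rw [Finset.sum_range_succ, pow_succ]
      linarith
  linarith

theorem term_eq (m : ℕ) (z : ℝ) : ((8:ℝ) ^ m)⁻¹ * (4 * 16 ^ m / z ^ 2) = 4 / z ^ 2 * 2 ^ m := by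
  have h : (16:ℝ) ^ m = 8 ^ m * 2 ^ m := by
    rw [← mul_pow]; norm_num
  rw [h]
  have h8 : (8:ℝ) ^ m ≠ 0 := by positivity
  field_simp

theorem Th_le_two (B : ℕ) (z : ℝ) : Th B z ≤ 2 := by
  have h : Th B z ≤ ∑ m ∈ Finset.range B, ((8:ℝ) ^ m)⁻¹ := by
    unfold Th
    apply Finset.sum_le_sum
    intro m _
    have : ((8:ℝ) ^ m)⁻¹ * min 1 (4 * 16 ^ m / z ^ 2) ≤ ((8:ℝ) ^ m)⁻¹ * 1 :=
      mul_le_mul_of_nonneg_left (min_le_left _ _) (by positivity)
    rwa [mul_one] at this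
  have := geo8 B
  linarith

theorem measurable_Th (B : ℕ) : Measurable (Th B) := by
  unfold Th
  fun_prop

theorem Th_le' (B : ℕ) {z : ℝ} (hz : 0 < z) : Th B z ≤ 4 * 2 ^ B / z ^ 2 := by
  have h : Th B z ≤ ∑ m ∈ Finset.range B, 4 / z ^ 2 * 2 ^ m := by
    unfold Th
    apply Finset.sum_le_sum
    intro m _
    rw [← term_eq]
    exact mul_le_mul_of_nonneg_left (min_le_right _ _) (by positivity)
  rw [← Finset.mul_sum] at h
  have h2 : 4 / z ^ 2 * ∑ m ∈ Finset.range B, (2:ℝ) ^ m ≤ 4 / z ^ 2 * 2 ^ B :=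
    mul_le_mul_of_nonneg_left (geo2 B) (by positivity)
  have h3 : 4 / z ^ 2 * 2 ^ B = 4 * 2 ^ B / z ^ 2 := by ring
  linarith

theorem Th_le (B : ℕ) {z : ℝ} (hz : 0 < z) : Th B z ≤ 10 / (z * Real.sqrt z) := by
  classical
  set s := Real.sqrt z with hs
  have hs0 : 0 < s := Real.sqrt_pos.2 hz
  have hzs : z = s ^ 2 := (Real.sq_sqrt hz.le).symm
  have hex : ∃ n : ℕ, s ≤ 2 ^ n := by
    obtain ⟨n, hn⟩ := pow_unbounded_of_one_lt s (one_lt_two)
    exact ⟨n, hn.le⟩
  obtain ⟨n, hn, hmin⟩ : ∃ n : ℕ, s ≤ 2 ^ n ∧ ∀ m < n, (2:ℝ) ^ m < s :=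
    ⟨Nat.find hex, Nat.find_spec hex, fun m hm => not_le.1 (Nat.find_min hex hm)⟩
  have h1 : Th B z ≤ ∑ m ∈ Finset.range B,
      ((if m < n then 4 / z ^ 2 * 2 ^ m else 0) + (if n ≤ m then ((8:ℝ) ^ m)⁻¹ else 0)) := by
    unfold Th
    apply Finset.sum_le_sum
    intro m _
    rcases lt_or_ge m n with h | h
    · rw [if_pos h, if_neg (by omega), add_zero, ← term_eq]
      exact mul_le_mul_of_nonneg_left (min_le_right _ _) (by positivity)
    · rw [if_neg (by omega), if_pos h, zero_add]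
      have : ((8:ℝ) ^ m)⁻¹ * min 1 (4 * 16 ^ m / z ^ 2) ≤ ((8:ℝ) ^ m)⁻¹ * 1 :=
        mul_le_mul_of_nonneg_left (min_le_left _ _) (by positivity)
      rwa [mul_one] at this
  rw [Finset.sum_add_distrib, ← Finset.sum_filter, ← Finset.sum_filter] at h1
  have h2 : ∑ m ∈ Finset.range B with m < n, 4 / z ^ 2 * (2:ℝ) ^ m ≤ 4 / z ^ 2 * (2 * s) := by
    have hsub : ∑ m ∈ Finset.range B with m < n, 4 / z ^ 2 * (2:ℝ) ^ m ≤
        ∑ m ∈ Finset.range n, 4 / z ^ 2 * (2:ℝ) ^ m := by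
      apply Finset.sum_le_sum_of_subset_of_nonneg
      · intro m hm
        rw [Finset.mem_filter] at hm
        exact Finset.mem_range.2 hm.2
      · intro m _ _
        positivity
    refine hsub.trans ?_
    rw [← Finset.mul_sum]
    apply mul_le_mul_of_nonneg_left _ (by positivity)
    rcases Nat.eq_zero_or_pos n with h0 | h0
    · rw [h0]; simp; positivity
    · refine (geo2 n).trans ?_
      have := hmin (n - 1) (by omega)
      have e : (2:ℝ) ^ n = 2 * 2 ^ (n - 1) := by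
        rw [← pow_succ']
        congr 1
        omega
      rw [e]
      linarith
  have h3 : ∑ m ∈ Finset.range B with n ≤ m, ((8:ℝ) ^ m)⁻¹ ≤ 8 / 7 * (s ^ 3)⁻¹ := by
    have hsub : ∑ m ∈ Finset.range B with n ≤ m, ((8:ℝ) ^ m)⁻¹ =
        ∑ m ∈ Finset.Ico n B, ((8:ℝ) ^ m)⁻¹ := by
      apply Finset.sum_congr _ (fun _ _ => rfl)
      ext m
      simp [and_comm]
    rw [hsub, Finset.sum_Ico_eq_sum_range]
    have e : ∀ i : ℕ, ((8:ℝ) ^ (n + i))⁻¹ = ((8:ℝ) ^ n)⁻¹ * ((8:ℝ) ^ i)⁻¹ := by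
      intro i
      rw [pow_add, mul_inv]
    simp_rw [e]
    rw [← Finset.mul_sum, mul_comm]
    apply mul_le_mul (geo8 _) _ (by positivity) (by norm_num)
    apply inv_anti₀ (by positivity)
    have : (8:ℝ) ^ n = (2 ^ n) ^ 3 := by
      rw [← pow_mul, mul_comm, pow_mul]; norm_num
    rw [this]
    exact pow_le_pow_left₀ hs0.le hn 3
  have h4 : 4 / z ^ 2 * (2 * s) = 8 * (s ^ 3)⁻¹ := by
    rw [hzs]
    field_simp
    norm_num
  have h5 : 10 / (z * s) = 10 * (s ^ 3)⁻¹ := by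
    rw [hzs]
    field_simp
  rw [h5]
  have h6 : 0 < (s ^ 3)⁻¹ := by positivity
  linarith

theorem Th_scale {B : ℕ} (hB : 1 ≤ B) {a : ℝ} (ha : 0 < a) :
    ∫⁻ l in Ioi (0:ℝ), ENNReal.ofReal (l ^ 2 * (Th B (a * l)) ^ 2) ≤
      ENNReal.ofReal (200 * B / a ^ 3) := by
  set c1 : ℝ := 1 / a with hc1
  set c2 : ℝ := 4 ^ B / a with hc2
  have hc1p : 0 < c1 := by positivity
  have hc2p : 0 < c2 := by positivity
  have h4B : (1:ℝ) ≤ 4 ^ B := one_le_pow₀ (by norm_num)
  have hc12 : c1 ≤ c2 := by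
    rw [hc1, hc2]
    gcongr
  have hcover : Ioi (0:ℝ) ⊆ Ioc 0 c1 ∪ (Ioc c1 c2 ∪ Ioi c2) := by
    intro l hl
    rw [mem_Ioi] at hl
    rcases le_or_gt l c1 with h | h
    · exact Or.inl ⟨hl, h⟩
    · rcases le_or_gt l c2 with h' | h'
      · exact Or.inr (Or.inl ⟨h, h'⟩)
      · exact Or.inr (Or.inr h')
  -- first piece
  have p1 : ∫⁻ l in Ioc 0 c1, ENNReal.ofReal (l ^ 2 * (Th B (a * l)) ^ 2) ≤
      ENNReal.ofReal (4 / a ^ 3) := by
    calc ∫⁻ l in Ioc 0 c1, ENNReal.ofReal (l ^ 2 * (Th B (a * l)) ^ 2)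
        ≤ ∫⁻ l in Ioc 0 c1, ENNReal.ofReal (4 / a ^ 2) := by
          apply setLIntegral_mono' measurableSet_Ioc
          intro l hl
          apply ENNReal.ofReal_le_ofReal
          have h1 : l ^ 2 ≤ 1 / a ^ 2 := by
            have : l ^ 2 ≤ c1 ^ 2 := pow_le_pow_left₀ hl.1.le hl.2 2
            rw [hc1, div_pow, one_pow] at this
            exact this
          have h2 : (Th B (a * l)) ^ 2 ≤ 4 := by
            have := pow_le_pow_left₀ (Th_nonneg B (a * l)) (Th_le_two B (a * l)) 2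
            norm_num at this
            exact this
          calc l ^ 2 * (Th B (a * l)) ^ 2 ≤ (1 / a ^ 2) * 4 :=
                mul_le_mul h1 h2 (by positivity) (by positivity)
            _ = 4 / a ^ 2 := by ring
      _ = ENNReal.ofReal (4 / a ^ 3) := by
          rw [setLIntegral_const, Real.volume_Ioc, ← ENNReal.ofReal_mul (by positivity)]
          congr 1
          rw [hc1, sub_zero]
          field_simp
  -- second piece
  have p2 : ∫⁻ l in Ioc c1 c2, ENNReal.ofReal (l ^ 2 * (Th B (a * l)) ^ 2) ≤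
      ENNReal.ofReal (100 / a ^ 3 * (B * Real.log 4)) := by
    calc ∫⁻ l in Ioc c1 c2, ENNReal.ofReal (l ^ 2 * (Th B (a * l)) ^ 2)
        ≤ ∫⁻ l in Ioc c1 c2, ENNReal.ofReal (100 / a ^ 3 * l⁻¹) := by
          apply setLIntegral_mono' measurableSet_Ioc
          intro l hl
          apply ENNReal.ofReal_le_ofReal
          have hl0 : 0 < l := hc1p.trans hl.1
          have hal : 0 < a * l := mul_pos ha hl0
          have h2 := pow_le_pow_left₀ (Th_nonneg B (a * l)) (Th_le B hal) 2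
          have hsq : Real.sqrt (a * l) ^ 2 = a * l := Real.sq_sqrt hal.le
          rw [div_pow, mul_pow, hsq] at h2
          calc l ^ 2 * (Th B (a * l)) ^ 2 ≤ l ^ 2 * (10 ^ 2 / ((a * l) ^ 2 * (a * l))) :=
                mul_le_mul_of_nonneg_left h2 (by positivity)
            _ = 100 / a ^ 3 * l⁻¹ := by
                field_simp
                norm_num
      _ = ENNReal.ofReal (∫ l in Ioc c1 c2, 100 / a ^ 3 * l⁻¹) := by
          rw [ofReal_integral_eq_lintegral_ofReal]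
          · apply ContinuousOn.integrableOn_Icc (a := c1) (b := c2) _ |>.mono_set Ioc_subset_Icc_self
            apply ContinuousOn.mul continuousOn_const
            apply ContinuousOn.inv₀ continuousOn_id
            intro x hx
            exact (hc1p.trans_le hx.1).ne'
          · rw [Filter.EventuallyLE, ae_restrict_iff' measurableSet_Ioc]
            refine Filter.Eventually.of_forall fun l hl => ?_
            have hl0 : 0 < l := hc1p.trans hl.1
            simp only [Pi.zero_apply]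
            positivity
      _ ≤ ENNReal.ofReal (100 / a ^ 3 * (B * Real.log 4)) := by
          apply ENNReal.ofReal_le_ofReal
          rw [← intervalIntegral.integral_of_le hc12, intervalIntegral.integral_const_mul,
            integral_inv_of_pos hc1p hc2p]
          have : c2 / c1 = 4 ^ B := by
            rw [hc1, hc2]
            field_simp
          rw [this, Real.log_pow]
  -- third piece
  have p3 : ∫⁻ l in Ioi c2, ENNReal.ofReal (l ^ 2 * (Th B (a * l)) ^ 2) ≤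
      ENNReal.ofReal (16 / a ^ 3) := by
    have hint : IntegrableOn (fun l : ℝ => l ^ (-2 : ℝ)) (Ioi c2) :=
      integrableOn_Ioi_rpow_of_lt (by norm_num) hc2p
    calc ∫⁻ l in Ioi c2, ENNReal.ofReal (l ^ 2 * (Th B (a * l)) ^ 2)
        ≤ ∫⁻ l in Ioi c2, ENNReal.ofReal (16 * 4 ^ B / a ^ 4 * l ^ (-2 : ℝ)) := by
          apply setLIntegral_mono' measurableSet_Ioi
          intro l hl
          apply ENNReal.ofReal_le_ofReal
          have hl0 : 0 < l := hc2p.trans hl
          have hal : 0 < a * l := mul_pos ha hl0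
          have h2 := pow_le_pow_left₀ (Th_nonneg B (a * l)) (Th_le' B hal) 2
          have e : l ^ (-2 : ℝ) = (l ^ 2)⁻¹ := by
            rw [Real.rpow_neg hl0.le]
            norm_cast
          rw [e]
          have h4 : ((2:ℝ) ^ B) ^ 2 = 4 ^ B := by
            rw [← pow_mul, mul_comm, pow_mul]; norm_num
          calc l ^ 2 * (Th B (a * l)) ^ 2 ≤ l ^ 2 * (4 * 2 ^ B / (a * l) ^ 2) ^ 2 :=
                mul_le_mul_of_nonneg_left h2 (by positivity)
            _ = 16 * (2 ^ B) ^ 2 / a ^ 4 * (l ^ 2)⁻¹ := by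
                field_simp
                norm_num
            _ = 16 * 4 ^ B / a ^ 4 * (l ^ 2)⁻¹ := by rw [h4]
      _ = ENNReal.ofReal (∫ l in Ioi c2, 16 * 4 ^ B / a ^ 4 * l ^ (-2 : ℝ)) := by
          rw [ofReal_integral_eq_lintegral_ofReal]
          · exact hint.const_mul _
          · rw [Filter.EventuallyLE, ae_restrict_iff' measurableSet_Ioi]
            refine Filter.Eventually.of_forall fun l hl => ?_
            have hl0 : 0 < l := hc2p.trans hl
            simp only [Pi.zero_apply]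
            positivity
      _ ≤ ENNReal.ofReal (16 / a ^ 3) := by
          apply ENNReal.ofReal_le_ofReal
          rw [integral_const_mul, integral_Ioi_rpow_of_lt (by norm_num) hc2p]
          have e : (-2 : ℝ) + 1 = -1 := by norm_num
          rw [e, Real.rpow_neg_one, hc2]
          apply le_of_eq
          field_simp
  calc ∫⁻ l in Ioi (0:ℝ), ENNReal.ofReal (l ^ 2 * (Th B (a * l)) ^ 2)
      ≤ ∫⁻ l in Ioc 0 c1 ∪ (Ioc c1 c2 ∪ Ioi c2), ENNReal.ofReal (l ^ 2 * (Th B (a * l)) ^ 2) :=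
        lintegral_mono_set hcover
    _ ≤ (∫⁻ l in Ioc 0 c1, ENNReal.ofReal (l ^ 2 * (Th B (a * l)) ^ 2)) +
        (∫⁻ l in Ioc c1 c2 ∪ Ioi c2, ENNReal.ofReal (l ^ 2 * (Th B (a * l)) ^ 2)) :=
        lintegral_union_le _ _ _
    _ ≤ (∫⁻ l in Ioc 0 c1, ENNReal.ofReal (l ^ 2 * (Th B (a * l)) ^ 2)) +
        ((∫⁻ l in Ioc c1 c2, ENNReal.ofReal (l ^ 2 * (Th B (a * l)) ^ 2)) +
         (∫⁻ l in Ioi c2, ENNReal.ofReal (l ^ 2 * (Th B (a * l)) ^ 2))) :=
        add_le_add le_rfl (lintegral_union_le _ _ _)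
    _ ≤ ENNReal.ofReal (4 / a ^ 3) + (ENNReal.ofReal (100 / a ^ 3 * (B * Real.log 4)) +
          ENNReal.ofReal (16 / a ^ 3)) := add_le_add p1 (add_le_add p2 p3)
    _ = ENNReal.ofReal (4 / a ^ 3 + (100 / a ^ 3 * (B * Real.log 4) + 16 / a ^ 3)) := by
        have hlog : 0 ≤ Real.log 4 := Real.log_nonneg (by norm_num)
        rw [ENNReal.ofReal_add (by positivity) (by positivity),
          ENNReal.ofReal_add (by positivity) (by positivity)]
    _ ≤ ENNReal.ofReal (200 * B / a ^ 3) := by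
        apply ENNReal.ofReal_le_ofReal
        have hlog : Real.log 4 ≤ 1.3863 := by
          have : (4:ℝ) = 2 ^ 2 := by norm_num
          rw [this, Real.log_pow]
          have := Real.log_two_lt_d9
          push_cast
          linarith
        have hB' : (1:ℝ) ≤ B := by exact_mod_cast hB
        have e : 4 / a ^ 3 + (100 / a ^ 3 * (B * Real.log 4) + 16 / a ^ 3) =
            (20 + 100 * (B * Real.log 4)) / a ^ 3 := by ring
        rw [e]
        apply div_le_div_of_nonneg_right _ (by positivity)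
        nlinarith [mul_le_mul_of_nonneg_left hlog (by positivity : (0:ℝ) ≤ B)]

theorem Th_int {B : ℕ} (hB : 1 ≤ B) :
    ∫⁻ z in Ioi (0:ℝ), ENNReal.ofReal (z ^ 2 * (Th B z) ^ 2) ≤ ENNReal.ofReal (200 * B) := by
  have := Th_scale hB one_pos
  simpa using this

end Pool.Agent.Helper401.OB

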