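import Pool.Agent.Helper401.OB.Moments
import Pool.Agent.Helper401.OB.Th
import Pool.Agent.Helper401.OB.Defs

set_option autoImplicit false

open MeasureTheory Set Filter Topology
open scoped ENNReal NNReal

namespace Pool.Agent.Helper401.OB



theorem step_ufn (n x : ℕ) : Step (n ^ 6) (ufn n x) := by
  have h1 : Step (n ^ 6) (fun y => ∑ m ∈ Finset.range (n ^ 6),
      4 ^ m * ind m (x / 8 ^ (n ^ 6 - m)) y) := by
    refine step_sum _ fun m hm => ?_
    have h2 : Step (n ^ 6) (ind m (x / 8 ^ (n ^ 6 - m))) :=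
      (step_ind m _).mono (Finset.mem_range.1 hm).le
    exact (step_const (n ^ 6) ((4:ℝ) ^ m)).mul h2
  exact h1.comp (fun t => ((n:ℝ) ^ 2)⁻¹ * t)

theorem ind_zero_or_one (n i : ℕ) (y : ℝ) : ind n i y = 0 ∨ ind n i y = 1 := by
  unfold ind; split_ifs <;> simp

theorem geom4 (k : ℕ) : ∑ m ∈ Finset.range (k + 1), (4:ℝ) ^ m ≤ 2 * 4 ^ k := by
  induction k with
  | zero => simp
  | succ k ih =>
    rw [Finset.sum_range_succ]
    have : (4:ℝ) ^ (k + 1) = 4 * 4 ^ k := by ring
    have hp : (0:ℝ) < 4 ^ k := by positivity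
    linarith

/-- pointwise bound of the truncated square -/
theorem ufn_min (n x : ℕ) {l : ℝ} (hl : 0 < l) (y : ℝ) :
    min 1 ((ufn n x y) ^ 2 / l ^ 2) ≤ ∑ m ∈ Finset.range (n ^ 6),
      ind m (x / 8 ^ (n ^ 6 - m)) y * min 1 (4 * 16 ^ m / ((n:ℝ) ^ 2 * l) ^ 2) := by
  classical
  have hterm : ∀ m ∈ Finset.range (n ^ 6), 0 ≤
      ind m (x / 8 ^ (n ^ 6 - m)) y * min 1 (4 * 16 ^ m / ((n:ℝ) ^ 2 * l) ^ 2) := by
    intro m _
    exact mul_nonneg (ind_nonneg _ _ _) (le_min zero_le_one (by positivity))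
  by_cases hex : ((Finset.range (n ^ 6)).filter
      (fun m => ind m (x / 8 ^ (n ^ 6 - m)) y = 1)).Nonempty
  · set S := (Finset.range (n ^ 6)).filter (fun m => ind m (x / 8 ^ (n ^ 6 - m)) y = 1) with hS
    set m0 := S.max' hex with hm0
    have hm0S : m0 ∈ S := Finset.max'_mem _ _
    rw [hS, Finset.mem_filter, Finset.mem_range] at hm0S
    obtain ⟨hlt, h1⟩ := hm0S
    have hn : 0 < n := by
      rcases Nat.eq_zero_or_pos n with h | h
      · rw [h] at hlt
        norm_num at hlt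
      · exact h
    have hn' : (0:ℝ) < n := by exact_mod_cast hn
    have hsum : ∑ m ∈ Finset.range (n ^ 6), 4 ^ m * ind m (x / 8 ^ (n ^ 6 - m)) y ≤
        2 * (4:ℝ) ^ m0 := by
      have h2 : ∑ m ∈ Finset.range (n ^ 6), 4 ^ m * ind m (x / 8 ^ (n ^ 6 - m)) y =
          ∑ m ∈ Finset.range (m0 + 1), 4 ^ m * ind m (x / 8 ^ (n ^ 6 - m)) y := by
        symm
        apply Finset.sum_subset
        · intro m hm
          rw [Finset.mem_range] at hm ⊢
          omega
        · intro m hm hm'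
          rw [Finset.mem_range] at hm hm'
          rcases ind_zero_or_one m (x / 8 ^ (n ^ 6 - m)) y with h | h
          · rw [h, mul_zero]
          · have : m ∈ S := by
              rw [hS, Finset.mem_filter, Finset.mem_range]
              exact ⟨hm, h⟩
            have := Finset.le_max' S m this
            omega
      rw [h2]
      refine le_trans (Finset.sum_le_sum fun m _ => ?_) (geom4 m0)
      have := ind_le_one m (x / 8 ^ (n ^ 6 - m)) y
      have hp : (0:ℝ) < 4 ^ m := by positivity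
      nlinarith
    have hsum0 : 0 ≤ ∑ m ∈ Finset.range (n ^ 6), (4:ℝ) ^ m * ind m (x / 8 ^ (n ^ 6 - m)) y :=
      Finset.sum_nonneg fun m _ => mul_nonneg (by positivity) (ind_nonneg _ _ _)
    have hu0 : 0 ≤ ufn n x y := mul_nonneg (by positivity) hsum0
    have hu : ufn n x y ≤ ((n:ℝ) ^ 2)⁻¹ * (2 * (4:ℝ) ^ m0) :=
      mul_le_mul_of_nonneg_left hsum (by positivity)
    have hsq : (ufn n x y) ^ 2 / l ^ 2 ≤ 4 * 16 ^ m0 / ((n:ℝ) ^ 2 * l) ^ 2 := by
      have h3 : (ufn n x y) ^ 2 ≤ (((n:ℝ) ^ 2)⁻¹ * (2 * (4:ℝ) ^ m0)) ^ 2 :=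
        pow_le_pow_left₀ hu0 hu 2
      have h4 : (((n:ℝ) ^ 2)⁻¹ * (2 * (4:ℝ) ^ m0)) ^ 2 / l ^ 2 =
          4 * 16 ^ m0 / ((n:ℝ) ^ 2 * l) ^ 2 := by
        have h5 : (16:ℝ) ^ m0 = (4 ^ m0) ^ 2 := by
          rw [← pow_mul, mul_comm, pow_mul]
          norm_num
        rw [h5]
        field_simp
        try ring
      rw [← h4]
      gcongr
    refine le_trans (min_le_min le_rfl hsq) ?_
    have h6 := Finset.single_le_sum hterm (Finset.mem_range.2 hlt)
    rw [h1, one_mul] at h6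
    exact h6
  · have hz : ∀ m ∈ Finset.range (n ^ 6), ind m (x / 8 ^ (n ^ 6 - m)) y = 0 := by
      intro m hm
      rcases ind_zero_or_one m (x / 8 ^ (n ^ 6 - m)) y with h | h
      · exact h
      · exact absurd ⟨m, Finset.mem_filter.2 ⟨hm, h⟩⟩ hex
    have hu : ufn n x y = 0 := by
      unfold ufn
      rw [Finset.sum_eq_zero, mul_zero]
      intro m hm
      rw [hz m hm, mul_zero]
    rw [hu]
    have : min 1 ((0:ℝ) ^ 2 / l ^ 2) = 0 := by simp
    rw [this]
    exact Finset.sum_nonneg hterm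

theorem sum_range_mul_aux (f : ℕ → ℝ) (A B : ℕ) :
    ∑ j ∈ Finset.range (A * B), f j =
      ∑ J ∈ Finset.range A, ∑ i ∈ Finset.range B, f (J * B + i) := by
  induction A with
  | zero => simp
  | succ A ih =>
    rw [Nat.succ_mul, Finset.sum_range_add, ih, Finset.sum_range_succ]

theorem min_one_add {a b : ℝ} (ha : 0 ≤ a) (hb : 0 ≤ b) : min 1 (a + b) ≤ min 1 a + min 1 b := by
  rcases le_total 1 a with h | h
  · rw [min_eq_left h]
    have : 0 ≤ min 1 b := le_min zero_le_one hb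
    exact (min_le_left _ _).trans (by linarith)
  · rcases le_total 1 b with h' | h'
    · rw [min_eq_left h']
      have : 0 ≤ min 1 a := le_min zero_le_one ha
      exact (min_le_left _ _).trans (by linarith)
    · rw [min_eq_right h, min_eq_right h']
      exact min_le_right _ _

theorem min_one_sum (s : Finset ℕ) (f : ℕ → ℝ) (hf : ∀ i ∈ s, 0 ≤ f i) :
    min 1 (∑ i ∈ s, f i) ≤ ∑ i ∈ s, min 1 (f i) := by
  classical
  induction s using Finset.induction_on with
  | empty => simp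
  | insert a s ha ih =>
    rw [Finset.sum_insert ha, Finset.sum_insert ha]
    have h1 := min_one_add (hf a (Finset.mem_insert_self _ _))
      (Finset.sum_nonneg fun i hi => hf i (Finset.mem_insert_of_mem hi))
    have h2 := ih fun i hi => hf i (Finset.mem_insert_of_mem hi)
    linarith

/-- one block -/
theorem block_bound (n x : ℕ) (hx : x < 8 ^ (n ^ 6)) {w l : ℝ} (hw : 0 ≤ w) (hl : 0 < l) :
    ∫ y, min 1 (w ^ 4 * ufn n x y ^ 2 / l ^ 2) ∂mu ≤ Th (n ^ 6) ((n:ℝ) ^ 2 * l / w ^ 2) := by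
  rcases hw.eq_or_lt with h | h
  · rw [← h]
    have h1 : ∀ y, min 1 ((0:ℝ) ^ 4 * ufn n x y ^ 2 / l ^ 2) = 0 := by
      intro y
      simp
    simp only [h1, integral_zero]
    exact Th_nonneg _ _
  · have hl' : 0 < l / w ^ 2 := by positivity
    have hint : ∀ m ∈ Finset.range (n ^ 6), Integrable (fun y =>
        ind m (x / 8 ^ (n ^ 6 - m)) y * min 1 (4 * 16 ^ m / ((n:ℝ) ^ 2 * (l / w ^ 2)) ^ 2)) mu :=
      fun m _ => (step_ind m _).integrable.mul_const _
    have h2 : ∫ y, min 1 (w ^ 4 * ufn n x y ^ 2 / l ^ 2) ∂mu ≤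
        ∫ y, ∑ m ∈ Finset.range (n ^ 6),
          ind m (x / 8 ^ (n ^ 6 - m)) y * min 1 (4 * 16 ^ m / ((n:ℝ) ^ 2 * (l / w ^ 2)) ^ 2) ∂mu := by
      refine integral_mono ?_ (integrable_finsetSum _ hint) ?_
      · exact ((step_ufn n x).comp (fun t => min 1 (w ^ 4 * t ^ 2 / l ^ 2))).integrable
      · intro y
        have h3 := ufn_min n x hl' y
        have h4 : w ^ 4 * ufn n x y ^ 2 / l ^ 2 = ufn n x y ^ 2 / (l / w ^ 2) ^ 2 := by
          field_simp
        show min 1 (w ^ 4 * ufn n x y ^ 2 / l ^ 2) ≤ _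
        rw [h4]
        exact h3
    refine h2.trans (le_of_eq ?_)
    rw [integral_finsetSum _ hint]
    unfold Th
    refine Finset.sum_congr rfl fun m hm => ?_
    rw [integral_mul_const, integral_ind]
    · rw [← mul_div_assoc ((n:ℝ) ^ 2)]
    · rw [Finset.mem_range] at hm
      rw [Nat.div_lt_iff_lt_mul (by positivity), ← pow_add]
      have : m + (n ^ 6 - m) = n ^ 6 := by omega
      rw [this]
      exact hx

theorem image_dist {n : ℕ} (hn : 1 ≤ n) (c w : ℕ → ℝ) (hw : ∀ J, 0 ≤ w J)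
    (hc : ∀ J < 8 ^ (2 * n ^ 6),
      ∑ i ∈ Finset.range (8 ^ (n ^ 6)), c (J * 8 ^ (n ^ 6) + i) ^ 2 ≤ (w J) ^ 4)
    {l : ℝ} (hl : 0 < l) :
    mu.real {y | l < |hfn n c y|} ≤
      ∑ J ∈ Finset.range (8 ^ (2 * n ^ 6)), Th (n ^ 6) ((n:ℝ) ^ 2 * l / (w J) ^ 2) := by
  classical
  set M := n ^ 6 with hM
  set R := 8 ^ (3 * M) with hR
  have hl2 : 0 < l ^ 2 := by positivity
  let a : ℕ → ℝ → ℝ := fun j y => c j * ufn n (xpos n j) y
  have ha : ∀ j < R, Step (3 * M) (a j) := by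
    intro j _
    have h1 : Step M (ufn n (xpos n j)) := step_ufn n _
    have h2 : Step (3 * M) (ufn n (xpos n j)) := h1.mono (by omega)
    exact h2.comp (fun t => c j * t)
  let S2 : ℝ → ℝ := fun y => ∑ j ∈ Finset.range R, a j y ^ 2
  have hS2 : Step (3 * M) S2 := step_sum _ fun j hj =>
    (ha j (Finset.mem_range.1 hj)).comp (fun t => t ^ 2)
  have hS2n : ∀ y, 0 ≤ S2 y := fun y => Finset.sum_nonneg fun j _ => sq_nonneg _
  let φ : ℝ → ℝ := fun y => if S2 y ≤ l ^ 2 then 1 else 0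
  have hφ : Step (3 * M) φ := hS2.comp (fun t => if t ≤ l ^ 2 then 1 else 0)
  have hh : ∀ y, hfn n c y = ∑ j ∈ Finset.range R, a j y * rad (3 * M + j + 1) y := fun y => rfl
  have hhS : Step (3 * M + R) (hfn n c) := by
    have h1 : Step (3 * M + R) (fun y => ∑ j ∈ Finset.range R, a j y * rad (3 * M + j + 1) y) := by
      refine step_sum _ fun j hj => ?_
      rw [Finset.mem_range] at hj
      exact ((ha j hj).mono (by omega)).mul ((step_rad _).mono (by omega))
    obtain ⟨F, hF⟩ := h1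
    exact ⟨F, fun y => by rw [hh]; exact hF y⟩
  have hφ' : Step (3 * M + R) φ := hφ.mono (Nat.le_add_right _ _)
  have hmom : ∫ y, φ y * (hfn n c y) ^ 2 ∂mu = ∫ y, φ y * S2 y ∂mu := second_moment ha hφ
  -- step A
  have hmeas : MeasurableSet {y : ℝ | l < |hfn n c y|} :=
    measurableSet_lt measurable_const hhS.measurable.abs
  have hi1 : Integrable (fun y => 1 - φ y) mu := (hφ.comp (fun t => 1 - t)).integrable
  have hi2 : Integrable (fun y => φ y * (hfn n c y) ^ 2) mu :=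
    (hφ'.mul (hhS.comp (fun t => t ^ 2))).integrable
  have hi3 : Integrable (fun y => φ y * S2 y) mu := (hφ.mul hS2).integrable
  have hA : mu.real {y | l < |hfn n c y|} ≤ ∫ y, min 1 (S2 y / l ^ 2) ∂mu := by
    have e1 : mu.real {y | l < |hfn n c y|} =
        ∫ y, ({y | l < |hfn n c y|}).indicator (fun _ => (1:ℝ)) y ∂mu := by
      rw [integral_indicator hmeas, setIntegral_const]
      simp
    have e2 : ∫ y, ({y | l < |hfn n c y|}).indicator (fun _ => (1:ℝ)) y ∂mu ≤
        ∫ y, ((1 - φ y) + (φ y * (hfn n c y) ^ 2) * (l ^ 2)⁻¹) ∂mu := by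
      refine integral_mono ((integrable_const (1:ℝ)).indicator hmeas)
        (hi1.add (hi2.mul_const _)) ?_
      intro y
      show ({y | l < |hfn n c y|}).indicator (fun _ => (1:ℝ)) y ≤
        (1 - φ y) + (φ y * (hfn n c y) ^ 2) * (l ^ 2)⁻¹
      have hφy : φ y = 0 ∨ φ y = 1 := by
        show (if S2 y ≤ l ^ 2 then (1:ℝ) else 0) = 0 ∨ (if S2 y ≤ l ^ 2 then (1:ℝ) else 0) = 1
        split_ifs <;> simp
      have hnn : 0 ≤ (hfn n c y) ^ 2 * (l ^ 2)⁻¹ := by positivity
      by_cases hy : l < |hfn n c y|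
      · rw [indicator_of_mem (show y ∈ {y | l < |hfn n c y|} from hy)]
        rcases hφy with h | h
        · rw [h]; simp
        · rw [h, one_mul, sub_self, zero_add]
          have h5 : l ^ 2 ≤ (hfn n c y) ^ 2 := by
            rw [← sq_abs (hfn n c y)]
            exact pow_le_pow_left₀ hl.le hy.le 2
          rw [← div_eq_mul_inv, le_div_iff₀ hl2, one_mul]
          exact h5
      · rw [indicator_of_notMem (show y ∉ {y | l < |hfn n c y|} from hy)]
        rcases hφy with h | h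
        · rw [h]; simp
        · rw [h]
          simp only [sub_self, one_mul, zero_add]
          exact hnn
    have e3 : ∫ y, ((1 - φ y) + (φ y * (hfn n c y) ^ 2) * (l ^ 2)⁻¹) ∂mu =
        ∫ y, min 1 (S2 y / l ^ 2) ∂mu := by
      rw [integral_add hi1 (hi2.mul_const _), integral_mul_const, hmom, ← integral_mul_const,
        ← integral_add hi1 (hi3.mul_const _)]
      refine integral_congr_ae (Eventually.of_forall fun y => ?_)
      show (1 - φ y) + φ y * S2 y * (l ^ 2)⁻¹ = min 1 (S2 y / l ^ 2)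
      by_cases hy : S2 y ≤ l ^ 2
      · have h6 : φ y = 1 := if_pos hy
        rw [h6, min_eq_right ((div_le_one hl2).2 hy), div_eq_mul_inv]
        ring
      · have h6 : φ y = 0 := if_neg hy
        rw [h6, min_eq_left ((one_le_div hl2).2 (not_le.1 hy).le)]
        ring
    rw [e1]
    exact e2.trans e3.le
  refine hA.trans ?_
  -- step B
  have hRmul : R = 8 ^ (2 * M) * 8 ^ M := by
    rw [hR, ← pow_add]
    congr 1
    ring
  have hB : ∀ y, S2 y ≤ ∑ J ∈ Finset.range (8 ^ (2 * M)), w J ^ 4 * ufn n (J % 8 ^ M) y ^ 2 := by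
    intro y
    show ∑ j ∈ Finset.range R, a j y ^ 2 ≤ _
    rw [hRmul, sum_range_mul_aux]
    refine Finset.sum_le_sum fun J hJ => ?_
    have h1 : ∀ i ∈ Finset.range (8 ^ M), a (J * 8 ^ M + i) y ^ 2 =
        c (J * 8 ^ M + i) ^ 2 * ufn n (J % 8 ^ M) y ^ 2 := by
      intro i hi
      have hx : xpos n (J * 8 ^ M + i) = J % 8 ^ M := by
        unfold xpos
        rw [← hM]
        congr 1
        rw [mul_comm, Nat.mul_add_div (by positivity), Nat.div_eq_of_lt (Finset.mem_range.1 hi),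
          add_zero]
      show (c (J * 8 ^ M + i) * ufn n (xpos n (J * 8 ^ M + i)) y) ^ 2 = _
      rw [hx, mul_pow]
    rw [Finset.sum_congr rfl h1, ← Finset.sum_mul]
    exact mul_le_mul_of_nonneg_right (hc J (Finset.mem_range.1 hJ)) (sq_nonneg _)
  have hstep : ∀ J, Step M (fun y => min 1 (w J ^ 4 * ufn n (J % 8 ^ M) y ^ 2 / l ^ 2)) :=
    fun J => (step_ufn n (J % 8 ^ M)).comp (fun t => min 1 (w J ^ 4 * t ^ 2 / l ^ 2))
  have hC : ∫ y, min 1 (S2 y / l ^ 2) ∂mu ≤
      ∫ y, ∑ J ∈ Finset.range (8 ^ (2 * M)),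
        min 1 (w J ^ 4 * ufn n (J % 8 ^ M) y ^ 2 / l ^ 2) ∂mu := by
    refine integral_mono (hS2.comp (fun t => min 1 (t / l ^ 2))).integrable
      (integrable_finsetSum _ fun J _ => (hstep J).integrable) ?_
    intro y
    show min 1 (S2 y / l ^ 2) ≤ ∑ J ∈ Finset.range (8 ^ (2 * M)),
        min 1 (w J ^ 4 * ufn n (J % 8 ^ M) y ^ 2 / l ^ 2)
    have h1 : S2 y / l ^ 2 ≤ ∑ J ∈ Finset.range (8 ^ (2 * M)),
        w J ^ 4 * ufn n (J % 8 ^ M) y ^ 2 / l ^ 2 := by
      rw [← Finset.sum_div]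
      gcongr
      exact hB y
    refine (min_le_min le_rfl h1).trans (min_one_sum _ _ fun J _ => ?_)
    have := hw J
    positivity
  refine hC.trans ?_
  rw [integral_finsetSum _ fun J _ => (hstep J).integrable]
  refine Finset.sum_le_sum fun J _ => ?_
  exact block_bound n (J % 8 ^ M) (Nat.mod_lt _ (by positivity)) (hw J) hl

end Pool.Agent.Helper401.OB

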