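import Pool.Agent.Helper401.OB.Image

set_option autoImplicit false

open MeasureTheory Set Filter Topology
open scoped ENNReal NNReal

namespace Pool.Agent.Helper401.OB



theorem Th_zero_aux (B : ℕ) : Th B 0 = 0 := by
  unfold Th
  refine Finset.sum_eq_zero fun m _ => ?_
  simp

theorem image_A {n : ℕ} (hn : 1 ≤ n) (c w : ℕ → ℝ) (hw : ∀ J, 0 ≤ w J)
    (hc : ∀ J < 8 ^ (2 * n ^ 6),
      ∑ i ∈ Finset.range (8 ^ (n ^ 6)), c (J * 8 ^ (n ^ 6) + i) ^ 2 ≤ (w J) ^ 4) :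
    A (hfn n c) ≤ ENNReal.ofReal (200 * (∑ J ∈ Finset.range (8 ^ (2 * n ^ 6)), (w J) ^ 3) ^ 2) := by
  set N : Finset ℕ := Finset.range (8 ^ (2 * n ^ 6)) with hN
  set S : ℝ := ∑ J ∈ N, (w J) ^ 3 with hS
  have hn0 : (0:ℝ) < (n:ℝ) := by exact_mod_cast hn
  have hS0 : 0 ≤ S := Finset.sum_nonneg fun J _ => pow_nonneg (hw J) 3
  have hM1 : 1 ≤ n ^ 6 := Nat.one_le_pow _ _ hn
  have hTw : ∀ J l, w J = 0 → Th (n ^ 6) ((n:ℝ) ^ 2 * l / (w J) ^ 2) = 0 := by
    intro J l h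
    rw [h]
    norm_num
    exact Th_zero_aux _
  have hcs : ∀ l : ℝ, (∑ J ∈ N, Th (n ^ 6) ((n:ℝ) ^ 2 * l / (w J) ^ 2)) ^ 2 ≤
      S * ∑ J ∈ N, (Th (n ^ 6) ((n:ℝ) ^ 2 * l / (w J) ^ 2)) ^ 2 / (w J) ^ 3 := by
    intro l
    refine Finset.sum_sq_le_sum_mul_sum_of_sq_eq_mul N (fun J _ => pow_nonneg (hw J) 3)
      (fun J _ => div_nonneg (sq_nonneg _) (pow_nonneg (hw J) 3)) (fun J _ => ?_)
    by_cases h : w J = 0
    · rw [hTw J l h]; simp
    · field_simp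
  unfold A
  calc ∫⁻ l in Ioi (0:ℝ), ENNReal.ofReal (l ^ 2 * (mu.real {y | l < |hfn n c y|}) ^ 2)
      ≤ ∫⁻ l in Ioi (0:ℝ), ∑ J ∈ N, ENNReal.ofReal (S / (w J) ^ 3) *
          ENNReal.ofReal (l ^ 2 * (Th (n ^ 6) (((n:ℝ) ^ 2 / (w J) ^ 2) * l)) ^ 2) := by
        refine setLIntegral_mono' measurableSet_Ioi fun l hl => ?_
        have hl' : (0:ℝ) < l := hl
        have h1 := image_dist hn c w hw hc hl'
        have h2 : l ^ 2 * (mu.real {y | l < |hfn n c y|}) ^ 2 ≤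
            ∑ J ∈ N, (S / (w J) ^ 3) * (l ^ 2 * (Th (n ^ 6) (((n:ℝ) ^ 2 / (w J) ^ 2) * l)) ^ 2) := by
          calc l ^ 2 * (mu.real {y | l < |hfn n c y|}) ^ 2
              ≤ l ^ 2 * (∑ J ∈ N, Th (n ^ 6) ((n:ℝ) ^ 2 * l / (w J) ^ 2)) ^ 2 :=
                mul_le_mul_of_nonneg_left (pow_le_pow_left₀ measureReal_nonneg h1 2) (sq_nonneg _)
            _ ≤ l ^ 2 * (S * ∑ J ∈ N, (Th (n ^ 6) ((n:ℝ) ^ 2 * l / (w J) ^ 2)) ^ 2 / (w J) ^ 3) :=
                mul_le_mul_of_nonneg_left (hcs l) (sq_nonneg _)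
            _ = _ := by
                rw [Finset.mul_sum, Finset.mul_sum]
                refine Finset.sum_congr rfl fun J _ => ?_
                have : (n:ℝ) ^ 2 / (w J) ^ 2 * l = (n:ℝ) ^ 2 * l / (w J) ^ 2 := by ring
                rw [this]
                ring
        refine (ENNReal.ofReal_le_ofReal h2).trans ?_
        rw [ENNReal.ofReal_sum_of_nonneg (fun J _ => mul_nonneg (div_nonneg hS0 (pow_nonneg (hw J) 3))
          (mul_nonneg (sq_nonneg _) (sq_nonneg _)))]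
        refine Finset.sum_le_sum fun J _ => ?_
        rw [ENNReal.ofReal_mul (div_nonneg hS0 (pow_nonneg (hw J) 3))]
    _ = ∑ J ∈ N, ∫⁻ l in Ioi (0:ℝ), ENNReal.ofReal (S / (w J) ^ 3) *
          ENNReal.ofReal (l ^ 2 * (Th (n ^ 6) (((n:ℝ) ^ 2 / (w J) ^ 2) * l)) ^ 2) := by
        rw [lintegral_finsetSum]
        intro J _
        refine Measurable.const_mul (Measurable.ennreal_ofReal ?_) _
        exact (measurable_id.pow_const 2).mul
          (((measurable_Th (n ^ 6)).comp (measurable_const.mul measurable_id)).pow_const 2)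
    _ ≤ ∑ J ∈ N, ENNReal.ofReal (200 * S * (w J) ^ 3) := by
        refine Finset.sum_le_sum fun J _ => ?_
        have hmeas : Measurable (fun l : ℝ =>
            ENNReal.ofReal (l ^ 2 * (Th (n ^ 6) (((n:ℝ) ^ 2 / (w J) ^ 2) * l)) ^ 2)) := by
          refine Measurable.ennreal_ofReal ?_
          exact (measurable_id.pow_const 2).mul
            (((measurable_Th (n ^ 6)).comp (measurable_const.mul measurable_id)).pow_const 2)
        rw [lintegral_const_mul _ hmeas]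
        by_cases h : w J = 0
        · rw [h]; simp
        · have hwJ : 0 < w J := lt_of_le_of_ne (hw J) (Ne.symm h)
          have h3 := Th_scale hM1 (a := (n:ℝ) ^ 2 / (w J) ^ 2) (by positivity)
          refine (mul_le_mul_right h3 _).trans ?_
          rw [← ENNReal.ofReal_mul (by positivity)]
          refine ENNReal.ofReal_le_ofReal (le_of_eq ?_)
          push_cast
          field_simp
    _ = ENNReal.ofReal (200 * S ^ 2) := by
        rw [← ENNReal.ofReal_sum_of_nonneg (fun J _ => by have := hw J; positivity)]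
        congr 1
        rw [← Finset.mul_sum, ← hS]
        ring

theorem image_weak {n : ℕ} (hn : 1 ≤ n) (c w : ℕ → ℝ) (hw : ∀ J, 0 ≤ w J)
    (hc : ∀ J < 8 ^ (2 * n ^ 6),
      ∑ i ∈ Finset.range (8 ^ (n ^ 6)), c (J * 8 ^ (n ^ 6) + i) ^ 2 ≤ (w J) ^ 4)
    {l : ℝ} (hl : 0 < l) :
    mu.real {y | l < |hfn n c y|} ≤
      10 * (∑ J ∈ Finset.range (8 ^ (2 * n ^ 6)), (w J) ^ 3) / ((n:ℝ) ^ 3 * (l * Real.sqrt l)) := by
  refine (image_dist hn c w hw hc hl).trans ?_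
  have hn0 : (0:ℝ) < (n:ℝ) := by exact_mod_cast hn
  have hsl : 0 < Real.sqrt l := Real.sqrt_pos.2 hl
  rw [mul_div_assoc, Finset.sum_div, Finset.mul_sum]
  refine Finset.sum_le_sum fun J _ => ?_
  by_cases h : w J = 0
  · rw [h]
    norm_num
    exact (Th_zero_aux _).le
  · have hwJ : 0 < w J := lt_of_le_of_ne (hw J) (Ne.symm h)
    have hz : 0 < (n:ℝ) ^ 2 * l / (w J) ^ 2 := by positivity
    refine (Th_le _ hz).trans (le_of_eq ?_)
    have h1 : Real.sqrt ((n:ℝ) ^ 2 * l / (w J) ^ 2) = n * Real.sqrt l / w J := by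
      rw [Real.sqrt_div (by positivity), Real.sqrt_mul (by positivity), Real.sqrt_sq hn0.le,
        Real.sqrt_sq hwJ.le]
    rw [h1]
    field_simp

theorem measurable_hfn (n : ℕ) (c : ℕ → ℝ) : Measurable (hfn n c) := by
  unfold hfn
  refine Finset.measurable_fun_sum _ fun j _ => ?_
  exact (measurable_const.mul (step_ufn n _).measurable).mul (step_rad _).measurable

/-- sup bound -/
theorem hfn_le {n : ℕ} (hn : 1 ≤ n) (c : ℕ → ℝ) {K : ℝ} (hK : ∀ j, |c j| ≤ K) (y : ℝ) :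
    |hfn n c y| ≤ 8 ^ (4 * n ^ 6) * K := by
  have hK0 : 0 ≤ K := (abs_nonneg _).trans (hK 0)
  have hn0 : (1:ℝ) ≤ (n:ℝ) := by exact_mod_cast hn
  have h4 : ∀ M : ℕ, ∑ m ∈ Finset.range M, (4:ℝ) ^ m ≤ 4 ^ M := by
    intro M
    induction M with
    | zero => simp
    | succ M ih =>
      rw [Finset.sum_range_succ, pow_succ]
      have : (0:ℝ) < 4 ^ M := by positivity
      linarith
  have hu : ∀ x, |ufn n x y| ≤ 8 ^ (n ^ 6) := by
    intro x
    unfold ufn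
    have hs0 : 0 ≤ ∑ m ∈ Finset.range (n ^ 6), (4:ℝ) ^ m * ind m (x / 8 ^ (n ^ 6 - m)) y :=
      Finset.sum_nonneg fun m _ => mul_nonneg (by positivity) (ind_nonneg _ _ _)
    rw [abs_of_nonneg (mul_nonneg (by positivity) hs0)]
    have h1 : ∑ m ∈ Finset.range (n ^ 6), (4:ℝ) ^ m * ind m (x / 8 ^ (n ^ 6 - m)) y
        ≤ 4 ^ (n ^ 6) := by
      refine (Finset.sum_le_sum fun m _ => ?_).trans (h4 (n ^ 6))
      exact mul_le_of_le_one_right (by positivity) (ind_le_one _ _ _)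
    have h2 : ((n:ℝ) ^ 2)⁻¹ ≤ 1 := inv_le_one_of_one_le₀ (one_le_pow₀ hn0)
    calc ((n:ℝ) ^ 2)⁻¹ * ∑ m ∈ Finset.range (n ^ 6), (4:ℝ) ^ m * ind m (x / 8 ^ (n ^ 6 - m)) y
        ≤ 1 * 4 ^ (n ^ 6) := mul_le_mul h2 h1 hs0 (by norm_num)
      _ ≤ 8 ^ (n ^ 6) := by
          rw [one_mul]
          exact pow_le_pow_left₀ (by norm_num) (by norm_num) _
  unfold hfn
  refine (Finset.abs_sum_le_sum_abs _ _).trans ?_
  calc ∑ j ∈ Finset.range (8 ^ (3 * n ^ 6)), |c j * ufn n (xpos n j) y * rad (3 * n ^ 6 + j + 1) y|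
      ≤ ∑ j ∈ Finset.range (8 ^ (3 * n ^ 6)), K * 8 ^ (n ^ 6) := by
        refine Finset.sum_le_sum fun j _ => ?_
        rw [abs_mul, abs_mul, abs_rad, mul_one]
        exact mul_le_mul (hK j) (hu _) (abs_nonneg _) hK0
    _ = 8 ^ (4 * n ^ 6) * K := by
        rw [Finset.sum_const, Finset.card_range, nsmul_eq_mul]
        push_cast
        rw [show 4 * n ^ 6 = 3 * n ^ 6 + n ^ 6 by ring, pow_add]
        ring

end Pool.Agent.Helper401.OB

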