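import Pool.Agent.Helper401.OB.Th
import Pool.Agent.Helper401.OB.Defs

set_option autoImplicit false

open MeasureTheory Set Filter Topology
open scoped ENNReal NNReal

namespace Pool.Agent.Helper401.OB



theorem A_gf_aux_sum (S : Finset ℕ) (m0 : ℕ) (h : ∀ m ∈ S, m ≤ m0) :
    ∑ m ∈ S, (4:ℝ) ^ m < 2 * 4 ^ m0 := by
  have h1 : ∑ m ∈ S, (4:ℝ) ^ m ≤ ∑ m ∈ Finset.range (m0 + 1), (4:ℝ) ^ m :=
    Finset.sum_le_sum_of_subset_of_nonneg
      (fun m hm => Finset.mem_range.mpr (Nat.lt_succ_of_le (h m hm))) (fun _ _ _ => by positivity)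
  have h2 : ∑ m ∈ Finset.range (m0 + 1), (4:ℝ) ^ m = (4 ^ (m0 + 1) - 1) / 3 := by
    rw [geom_sum_eq (by norm_num)]; norm_num
  rw [pow_succ] at h2
  have : (0:ℝ) < 4 ^ m0 := by positivity
  linarith

theorem tf_aux_nonneg (n j : ℕ) (y : ℝ) : 0 ≤ tf n j y := by
  unfold tf
  refine mul_nonneg (by positivity) (Finset.sum_nonneg fun m _ => ?_)
  exact mul_nonneg (by positivity) (ind_nonneg _ _ _)

theorem A_gf_aux_ex {n j : ℕ} (hn : 1 ≤ n) {l : ℝ} (hl : 0 < l) {y : ℝ} (h : l < tf n j y) :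
    ∃ m ∈ Finset.Ico (2 * n ^ 6) (3 * n ^ 6), idx m y = j / 8 ^ (3 * n ^ 6 - m) ∧
      (n:ℝ) ^ 2 * l < 2 * 4 ^ m := by
  classical
  have hn0 : (0:ℝ) < n := by exact_mod_cast hn
  set S := (Finset.Ico (2 * n ^ 6) (3 * n ^ 6)).filter
    (fun m => idx m y = j / 8 ^ (3 * n ^ 6 - m)) with hS
  have e : tf n j y = ((n:ℝ) ^ 2)⁻¹ * ∑ m ∈ S, (4:ℝ) ^ m := by
    unfold tf
    rw [hS, Finset.sum_filter]
    congr 1
    refine Finset.sum_congr rfl fun m _ => ?_
    unfold ind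
    split_ifs <;> simp
  have hSne : S.Nonempty := by
    by_contra hcon
    rw [Finset.not_nonempty_iff_eq_empty] at hcon
    rw [e, hcon, Finset.sum_empty, mul_zero] at h
    linarith
  have hmem := Finset.max'_mem S hSne
  have hmem2 := Finset.mem_filter.mp hmem
  refine ⟨S.max' hSne, hmem2.1, hmem2.2, ?_⟩
  have h1 := A_gf_aux_sum S (S.max' hSne) (fun m hm => Finset.le_max' S m hm)
  rw [e] at h
  have h2 : (n:ℝ) ^ 2 * l < (n:ℝ) ^ 2 * (((n:ℝ) ^ 2)⁻¹ * ∑ m ∈ S, (4:ℝ) ^ m) :=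
    mul_lt_mul_of_pos_left h (by positivity)
  rw [← mul_assoc, mul_inv_cancel₀ (by positivity), one_mul] at h2
  linarith

theorem A_gf_le {n j : ℕ} (hn : 1 ≤ n) {G : Set ℝ} (hG : MeasurableSet G)
    {δ : ℝ} (hδ : 0 ≤ δ) (h : ∀ m, 2 * n ^ 6 ≤ m → m < 3 * n ^ 6 →
      mu.real ({y | idx m y = j / 8 ^ (3 * n ^ 6 - m)} ∩ G) ≤ δ * ((8:ℝ) ^ m)⁻¹) :
    A (G.indicator (gf n j)) ≤ ENNReal.ofReal (600 * δ ^ 2) := by
  classical
  have hn0 : (0:ℝ) < n := by exact_mod_cast hn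
  have hM : 1 ≤ 3 * n ^ 6 := by have := Nat.one_le_pow 6 n hn; omega
  have key : ∀ l : ℝ, 0 < l → mu.real {y | l < |G.indicator (gf n j) y|} ≤
      δ * Th (3 * n ^ 6) ((n:ℝ) ^ 2 * l) := by
    intro l hl
    set T := (Finset.Ico (2 * n ^ 6) (3 * n ^ 6)).filter
      (fun m => (n:ℝ) ^ 2 * l < 2 * 4 ^ m) with hT
    have hsub : {y | l < |G.indicator (gf n j) y|} ⊆
        ⋃ m ∈ T, ({y | idx m y = j / 8 ^ (3 * n ^ 6 - m)} ∩ G) := by
      intro y hy
      have hy1 : l < |G.indicator (gf n j) y| := hy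
      have hyG : y ∈ G := by
        by_contra hcon
        rw [indicator_of_notMem hcon, abs_zero] at hy1
        linarith
      rw [indicator_of_mem hyG, gf, abs_mul, abs_rad, mul_one,
        abs_of_nonneg (tf_aux_nonneg _ _ _)] at hy1
      obtain ⟨m, hm, h1, h2⟩ := A_gf_aux_ex hn hl hy1
      simp only [mem_iUnion]
      exact ⟨m, Finset.mem_filter.mpr ⟨hm, h2⟩, h1, hyG⟩
    have hnn : ∀ m : ℕ, 0 ≤ δ * ((8:ℝ) ^ m)⁻¹ * min 1 (4 * 16 ^ m / ((n:ℝ) ^ 2 * l) ^ 2) := by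
      intro m
      exact mul_nonneg (by positivity) (le_min zero_le_one (by positivity))
    calc mu.real {y | l < |G.indicator (gf n j) y|}
        ≤ mu.real (⋃ m ∈ T, ({y | idx m y = j / 8 ^ (3 * n ^ 6 - m)} ∩ G)) :=
          measureReal_mono hsub (measure_ne_top _ _)
      _ ≤ ∑ m ∈ T, mu.real ({y | idx m y = j / 8 ^ (3 * n ^ 6 - m)} ∩ G) :=
          measureReal_biUnion_finset_le _ _
      _ ≤ ∑ m ∈ T, δ * ((8:ℝ) ^ m)⁻¹ * min 1 (4 * 16 ^ m / ((n:ℝ) ^ 2 * l) ^ 2) := by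
          refine Finset.sum_le_sum fun m hm => ?_
          rw [hT, Finset.mem_filter, Finset.mem_Ico] at hm
          obtain ⟨⟨hm1, hm2⟩, hm3⟩ := hm
          have h1 : (1:ℝ) ≤ 4 * 16 ^ m / ((n:ℝ) ^ 2 * l) ^ 2 := by
            rw [one_le_div (by positivity)]
            have h2 : ((n:ℝ) ^ 2 * l) ^ 2 ≤ (2 * 4 ^ m) ^ 2 := by
              apply pow_le_pow_left₀ (by positivity) hm3.le
            have h3 : ((2:ℝ) * 4 ^ m) ^ 2 = 4 * 16 ^ m := by
              rw [mul_pow, ← pow_mul, mul_comm m 2, pow_mul]; norm_num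
            rw [← h3]; exact h2
          rw [min_eq_left h1, mul_one]
          exact h m hm1 hm2
      _ ≤ ∑ m ∈ Finset.range (3 * n ^ 6),
            δ * ((8:ℝ) ^ m)⁻¹ * min 1 (4 * 16 ^ m / ((n:ℝ) ^ 2 * l) ^ 2) := by
          refine Finset.sum_le_sum_of_subset_of_nonneg ?_ (fun m _ _ => hnn m)
          intro m hm
          rw [hT, Finset.mem_filter, Finset.mem_Ico] at hm
          exact Finset.mem_range.mpr hm.1.2
      _ = δ * Th (3 * n ^ 6) ((n:ℝ) ^ 2 * l) := by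
          unfold Th
          rw [Finset.mul_sum]
          refine Finset.sum_congr rfl fun m _ => ?_
          ring
  unfold A
  calc ∫⁻ l in Ioi (0:ℝ), ENNReal.ofReal (l ^ 2 * (mu.real {y | l < |G.indicator (gf n j) y|}) ^ 2)
      ≤ ∫⁻ l in Ioi (0:ℝ), ENNReal.ofReal (δ ^ 2) *
          ENNReal.ofReal (l ^ 2 * (Th (3 * n ^ 6) ((n:ℝ) ^ 2 * l)) ^ 2) := by
        refine setLIntegral_mono' measurableSet_Ioi fun l hl => ?_
        rw [← ENNReal.ofReal_mul (by positivity)]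
        apply ENNReal.ofReal_le_ofReal
        have h1 := key l hl
        have h2 : 0 ≤ mu.real {y | l < |G.indicator (gf n j) y|} := measureReal_nonneg
        have h3 := pow_le_pow_left₀ h2 h1 2
        calc l ^ 2 * (mu.real {y | l < |G.indicator (gf n j) y|}) ^ 2
            ≤ l ^ 2 * (δ * Th (3 * n ^ 6) ((n:ℝ) ^ 2 * l)) ^ 2 :=
              mul_le_mul_of_nonneg_left h3 (sq_nonneg l)
          _ = δ ^ 2 * (l ^ 2 * (Th (3 * n ^ 6) ((n:ℝ) ^ 2 * l)) ^ 2) := by ring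
    _ = ENNReal.ofReal (δ ^ 2) * ∫⁻ l in Ioi (0:ℝ),
          ENNReal.ofReal (l ^ 2 * (Th (3 * n ^ 6) ((n:ℝ) ^ 2 * l)) ^ 2) := by
        rw [lintegral_const_mul' _ _ ENNReal.ofReal_ne_top]
    _ ≤ ENNReal.ofReal (δ ^ 2) * ENNReal.ofReal (200 * ((3 * n ^ 6 : ℕ) : ℝ) / ((n:ℝ) ^ 2) ^ 3) := by
        gcongr
        exact Th_scale hM (by positivity)
    _ = ENNReal.ofReal (600 * δ ^ 2) := by
        rw [← ENNReal.ofReal_mul (by positivity)]
        congr 1
        push_cast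
        field_simp
        ring

theorem A_gf_le_univ {n j : ℕ} (hn : 1 ≤ n) (hj : j < 8 ^ (3 * n ^ 6)) :
    A (gf n j) ≤ 600 := by
  have h := A_gf_le (n := n) (j := j) hn MeasurableSet.univ (δ := 1) zero_le_one (by
    intro m hm1 hm2
    rw [inter_univ, one_mul, mu_real_cell]
    rw [Nat.div_lt_iff_lt_mul (by positivity), ← pow_add]
    have : m + (3 * n ^ 6 - m) = 3 * n ^ 6 := by omega
    rw [this]
    exact hj)
  rw [indicator_univ] at h
  refine h.trans ?_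
  norm_num

theorem A_uf_ge {n x N : ℕ} (hn : 1 ≤ n) (hx : x < 8 ^ (n ^ 6)) {e : Set ℝ} (he : MeasurableSet e)
    {δ : ℝ} (hδ1 : δ ≤ 1 / 10) {l0 : ℕ} (hl0 : 1 ≤ l0) (hl : 2 * l0 ≤ n ^ 6)
    (h : ∀ m, l0 ≤ m → m ≤ n ^ 6 →
      mu.real ({y | idx m y = x / 8 ^ (n ^ 6 - m)} \ e) ≤ δ * ((8:ℝ) ^ m)⁻¹)
    {γ : ℝ} (hγ : 1 ≤ γ) :
    ENNReal.ofReal (1 / 10) ≤ A (e.indicator (fun y => γ * ufn n x y * rad N y)) := by
  classical
  have hn0 : (0:ℝ) < n := by exact_mod_cast hn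
  set c : ℝ := ((n:ℝ) ^ 2)⁻¹ with hc
  have hc0 : 0 < c := by positivity
  have hc3 : c ^ 3 * (n:ℝ) ^ 6 = 1 := by
    rw [hc]; field_simp
  set I : ℕ → Set ℝ := fun m => Ioo (c * 4 ^ m / 4) (c * 4 ^ m) with hI
  -- lower bound for the distribution function
  have key : ∀ m, l0 ≤ m → m < n ^ 6 → ∀ l ∈ I m, (9 / 10) * ((8:ℝ) ^ m)⁻¹ ≤
      mu.real {y | l < |e.indicator (fun y => γ * ufn n x y * rad N y) y|} := by
    intro m hm1 hm2 l hlI
    have hmC : MeasurableSet {y : ℝ | idx m y = x / 8 ^ (n ^ 6 - m)} :=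
      measurable_idx m (measurableSet_singleton _)
    have hsub : {y : ℝ | idx m y = x / 8 ^ (n ^ 6 - m)} ∩ e ⊆
        {y | l < |e.indicator (fun y => γ * ufn n x y * rad N y) y|} := by
      rintro y ⟨hy1, hy2⟩
      change l < |e.indicator (fun y => γ * ufn n x y * rad N y) y|
      rw [indicator_of_mem hy2]
      have hterm : c * 4 ^ m ≤ ufn n x y := by
        unfold ufn
        rw [← hc]
        refine mul_le_mul_of_nonneg_left ?_ hc0.le
        have h1 : (4:ℝ) ^ m = 4 ^ m * ind m (x / 8 ^ (n ^ 6 - m)) y := by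
          have : ind m (x / 8 ^ (n ^ 6 - m)) y = 1 := if_pos hy1
          rw [this, mul_one]
        rw [h1]
        exact Finset.single_le_sum (f := fun m => (4:ℝ) ^ m * ind m (x / 8 ^ (n ^ 6 - m)) y)
          (fun i _ => mul_nonneg (by positivity) (ind_nonneg _ _ _)) (Finset.mem_range.mpr hm2)
      have hu0 : 0 < ufn n x y := lt_of_lt_of_le (by positivity) hterm
      rw [abs_mul, abs_rad, mul_one, abs_of_nonneg (by positivity)]
      have h2 : ufn n x y ≤ γ * ufn n x y := le_mul_of_one_le_left hu0.le hγ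
      have h3 := hlI.2
      linarith
    have hx' : x / 8 ^ (n ^ 6 - m) < 8 ^ m := by
      rw [Nat.div_lt_iff_lt_mul (by positivity), ← pow_add]
      have : m + (n ^ 6 - m) = n ^ 6 := by omega
      rw [this]
      exact hx
    have h1 := measureReal_inter_add_sdiff (μ := mu) (s := {y : ℝ | idx m y = x / 8 ^ (n ^ 6 - m)}) he
    rw [mu_real_cell hx'] at h1
    have h2 := h m hm1 hm2.le
    have h3 : mu.real ({y : ℝ | idx m y = x / 8 ^ (n ^ 6 - m)} ∩ e) ≤ _ :=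
      measureReal_mono hsub (measure_ne_top _ _)
    have h4 : 0 < ((8:ℝ) ^ m)⁻¹ := by positivity
    nlinarith
  -- the integral over one interval
  have hint : ∀ m, l0 ≤ m → m < n ^ 6 → ENNReal.ofReal (c ^ 3 * (1701 / 6400)) ≤
      ∫⁻ l in I m, ENNReal.ofReal (l ^ 2 *
        (mu.real {y | l < |e.indicator (fun y => γ * ufn n x y * rad N y) y|}) ^ 2) := by
    intro m hm1 hm2
    have hle : c * 4 ^ m / 4 ≤ c * 4 ^ m := by
      have : 0 < c * 4 ^ m := by positivity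
      linarith
    have h1 : ∫ l in I m, l ^ 2 * ((9 / 10) * ((8:ℝ) ^ m)⁻¹) ^ 2 = c ^ 3 * (1701 / 6400) := by
      rw [hI]
      simp only
      rw [← integral_Ioc_eq_integral_Ioo, ← intervalIntegral.integral_of_le hle,
        intervalIntegral.integral_mul_const, integral_pow]
      have h8 : (8:ℝ) ^ m = 2 ^ m * 2 ^ m * 2 ^ m := by
        rw [← mul_pow, ← mul_pow]; norm_num
      have h4 : (4:ℝ) ^ m = 2 ^ m * 2 ^ m := by
        rw [← mul_pow]; norm_num
      rw [h8, h4]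
      have h2 : (0:ℝ) < 2 ^ m := by positivity
      generalize (2:ℝ) ^ m = t at *
      field_simp
      norm_num
      ring
    rw [← h1, ofReal_integral_eq_lintegral_ofReal]
    · refine setLIntegral_mono' measurableSet_Ioo fun l hlI => ?_
      apply ENNReal.ofReal_le_ofReal
      refine mul_le_mul_of_nonneg_left ?_ (sq_nonneg l)
      exact pow_le_pow_left₀ (by positivity) (key m hm1 hm2 l hlI) 2
    · have : ContinuousOn (fun l : ℝ => l ^ 2 * ((9 / 10) * ((8:ℝ) ^ m)⁻¹) ^ 2)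
          (Icc (c * 4 ^ m / 4) (c * 4 ^ m)) := by fun_prop
      exact (this.integrableOn_Icc).mono_set Ioo_subset_Icc_self
    · exact Eventually.of_forall fun l => by positivity
  have hdisj : Set.PairwiseDisjoint (↑(Finset.Ico l0 (n ^ 6))) I := by
    have hlt : ∀ m m' : ℕ, m < m' → Disjoint (I m) (I m') := by
      intro m m' hmm
      rw [Set.disjoint_left]
      intro l h1 h2
      have h3 := h1.2
      have h4 := h2.1
      have h5 : (4:ℝ) ^ (m + 1) ≤ 4 ^ m' := pow_le_pow_right₀ (by norm_num) hmm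
      rw [pow_succ] at h5
      have h6 : c * (4 ^ m * 4) ≤ c * 4 ^ m' := mul_le_mul_of_nonneg_left h5 hc0.le
      linarith
    intro m _ m' _ hne
    rcases lt_or_gt_of_ne hne with h1 | h1
    · exact hlt m m' h1
    · exact (hlt m' m h1).symm
  unfold A
  calc ENNReal.ofReal (1 / 10)
      ≤ ENNReal.ofReal (((n ^ 6 - l0 : ℕ) : ℝ) * (c ^ 3 * (1701 / 6400))) := by
        apply ENNReal.ofReal_le_ofReal
        rw [Nat.cast_sub (by omega)]
        push_cast
        have h1 : (2:ℝ) * l0 ≤ (n:ℝ) ^ 6 := by exact_mod_cast hl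
        have h2 : 0 < c ^ 3 := by positivity
        nlinarith [mul_le_mul_of_nonneg_left h1 h2.le]
    _ = ∑ m ∈ Finset.Ico l0 (n ^ 6), ENNReal.ofReal (c ^ 3 * (1701 / 6400)) := by
        rw [Finset.sum_const, Nat.card_Ico, nsmul_eq_mul, ENNReal.ofReal_mul (by positivity),
          ENNReal.ofReal_natCast]
    _ ≤ ∑ m ∈ Finset.Ico l0 (n ^ 6), ∫⁻ l in I m, ENNReal.ofReal (l ^ 2 *
        (mu.real {y | l < |e.indicator (fun y => γ * ufn n x y * rad N y) y|}) ^ 2) := by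
        refine Finset.sum_le_sum fun m hm => ?_
        rw [Finset.mem_Ico] at hm
        exact hint m hm.1 hm.2
    _ = ∫⁻ l in ⋃ m ∈ Finset.Ico l0 (n ^ 6), I m, ENNReal.ofReal (l ^ 2 *
        (mu.real {y | l < |e.indicator (fun y => γ * ufn n x y * rad N y) y|}) ^ 2) := by
        rw [lintegral_biUnion_finset hdisj (fun m _ => measurableSet_Ioo)]
    _ ≤ ∫⁻ l in Ioi (0:ℝ), ENNReal.ofReal (l ^ 2 *
        (mu.real {y | l < |e.indicator (fun y => γ * ufn n x y * rad N y) y|}) ^ 2) := by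
        refine lintegral_mono_set ?_
        intro l hl'
        simp only [mem_iUnion] at hl'
        obtain ⟨m, _, hm⟩ := hl'
        have h1 := hm.1
        have h2 : 0 < c * 4 ^ m / 4 := by positivity
        exact lt_trans h2 h1

end Pool.Agent.Helper401.OB

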