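import Pool.Agent.Helper401.OB.Multi
import Pool.Agent.Helper401.OB.Coef
import Pool.Agent.Helper401.OB.Test
import Pool.Agent.Helper401.OB.Select

set_option autoImplicit false

open MeasureTheory Set Filter Topology
open scoped ENNReal NNReal

namespace Pool.Agent.Helper401.OB

theorem nk_gap {i k : ℕ} (h : i < k) :
    3 * (nk i) ^ 6 + 8 ^ (3 * (nk i) ^ 6) + 1 ≤ (nk k) ^ 6 := by
  have h1 : nk (i + 1) ≤ nk k := nk_mono h
  have h2 := self_le_pow6 (nk k)
  refine le_trans ?_ (h1.trans h2)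
  rw [nk_succ]
  set M := (nk i) ^ 6 with hM
  have hM1 : 1 ≤ M := Nat.one_le_pow _ _ (nk_pos i)
  have h3 : 3 * M + 1 < 2 ^ (3 * M + 1) := Nat.lt_two_pow_self
  have h4 : 2 ^ (3 * M + 1) ≤ 8 ^ (3 * M) * 2 := by
    rw [pow_succ]
    gcongr
    norm_num
  have h5 : 8 ^ (3 * M) * 8 ≤ 8 ^ (10 * M) := by
    rw [← pow_succ]
    exact Nat.pow_le_pow_right (by norm_num) (by omega)
  omega

theorem Tn_gf_ne {k i j : ℕ} (hj : j < 8 ^ (3 * (nk k) ^ 6)) (hik : i ≠ k) (y : ℝ) :
    Tn (nk i) (gf (nk k) j) y = 0 := by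
  unfold Tn hfn
  refine Finset.sum_eq_zero fun a ha => ?_
  have ha' := Finset.mem_range.1 ha
  have h0 : coef (nk i) a (gf (nk k) j) = 0 := by
    rcases lt_or_gt_of_ne hik with h | h
    · exact coef_down ha' (nk_gap h)
    · exact coef_up hj (nk_gap h)
  simp [h0]

theorem Tn_gf_self {n j : ℕ} (hj : j < 8 ^ (3 * n ^ 6)) (y : ℝ) :
    Tn n (gf n j) y = coef n j (gf n j) * ufn n (xpos n j) y * rad (3 * n ^ 6 + j + 1) y := by
  unfold Tn hfn
  rw [Finset.sum_eq_single j]
  · intro a _ ha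
    simp [coef_ne ha]
  · intro h
    exact absurd (Finset.mem_range.2 hj) h

theorem TT_gf {k j : ℕ} (hj : j < 8 ^ (3 * (nk k) ^ 6)) :
    TT (gf (nk k) j) = fun y => coef (nk k) j (gf (nk k) j) * ufn (nk k) (xpos (nk k) j) y *
      rad (3 * (nk k) ^ 6 + j + 1) y := by
  funext y
  unfold TT
  rw [tsum_eq_single k (fun i hi => Tn_gf_ne hj hi y), Tn_gf_self hj]

theorem A_indicator_le (e : Set ℝ) (f : ℝ → ℝ) : A (e.indicator f) ≤ A f :=
  A_mono (Eventually.of_forall fun y => by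
    by_cases h : y ∈ e
    · rw [indicator_of_mem h]
    · rw [indicator_of_notMem h]; simp)

theorem lower {e F : Set ℝ} (he : MeasurableSet e) (hF : MeasurableSet F) (he0 : mu e ≠ 0)
    (hF0 : mu F ≠ 0) : ∃ g : ℝ → ℝ, Measurable g ∧ A g ≤ 600 ∧
      ENNReal.ofReal (1 / 200) ≤ A (e.indicator (TT (F.indicator g))) := by
  obtain ⟨l0, n0, hsel⟩ := selection he hF he0 hF0 (δ := 1 / 10000000000000) (by norm_num)
    (by norm_num)
  obtain ⟨k, hk1, hk2⟩ : ∃ k, n0 ≤ nk k ∧ 2 * (l0 + 1) ≤ (nk k) ^ 6 := by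
    refine ⟨n0 + 2 * (l0 + 1), ?_, ?_⟩
    · have h1 := nk_ge (n0 + 2 * (l0 + 1))
      have h2 : n0 + 2 * (l0 + 1) < 16 ^ (n0 + 2 * (l0 + 1)) := Nat.lt_pow_self (by norm_num)
      omega
    · have := Mk_ge (n0 + 2 * (l0 + 1))
      omega
  obtain ⟨j, hj, he1, hF1⟩ := hsel (nk k) hk1
  have hn : 1 ≤ nk k := nk_pos k
  set g := gf (nk k) j with hg
  have hgm : Measurable g := (step_gf (nk k) j).measurable
  have hgA : A g ≤ 600 := A_gf_le_univ hn hj
  have hgfin : A g ≠ ∞ := ne_top_of_le_ne_top (by norm_num) hgA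
  refine ⟨g, hgm, hgA, ?_⟩
  have hx : xpos (nk k) j < 8 ^ ((nk k) ^ 6) := Nat.mod_lt _ (by positivity)
  -- lower bound for the whole image
  have hlow : ENNReal.ofReal (1 / 10) ≤ A (e.indicator (TT g)) := by
    rw [hg, TT_gf hj]
    exact A_uf_ge (N := 3 * (nk k) ^ 6 + j + 1) hn hx he (δ := 1 / 10000000000000)
      (by norm_num) (l0 := l0 + 1) (by omega) hk2
      (fun m hm1 hm2 => he1 m (by omega) hm2) (coef_self hn hj)
  -- the part outside `F`
  have hout : A (Fᶜ.indicator g) ≤ ENNReal.ofReal (600 * (1 / 10000000000000) ^ 2) :=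
    A_gf_le hn hF.compl (by norm_num) fun m hm1 hm2 => hF1 m hm1 hm2.le
  have hmF : Measurable (F.indicator g) := hgm.indicator hF
  have hmFc : Measurable (Fᶜ.indicator g) := hgm.indicator hF.compl
  have hfin1 : A (F.indicator g) ≠ ∞ := ne_top_of_le_ne_top hgfin (A_indicator_le F g)
  have hfin2 : A (Fᶜ.indicator g) ≠ ∞ := ne_top_of_le_ne_top hgfin (A_indicator_le Fᶜ g)
  have hadd := TT_add hmF hmFc hfin1 hfin2
  have hsplit : (fun y => F.indicator g y + Fᶜ.indicator g y) = g := by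
    funext y
    exact congrFun (indicator_self_add_compl F g) y
  rw [hsplit] at hadd
  have hcongr : A (e.indicator (TT g)) =
      A (fun y => e.indicator (TT (F.indicator g)) y + e.indicator (TT (Fᶜ.indicator g)) y) := by
    apply A_congr
    filter_upwards [hadd] with y hy
    by_cases h : y ∈ e
    · simp only [indicator_of_mem h]
      exact hy
    · simp only [indicator_of_notMem h, add_zero]
  have hup : A (e.indicator (TT (Fᶜ.indicator g))) ≤ ENNReal.ofReal (1 / 1600) := by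
    calc A (e.indicator (TT (Fᶜ.indicator g))) ≤ A (TT (Fᶜ.indicator g)) := A_indicator_le _ _
      _ ≤ ENNReal.ofReal 100000000000000000000 * A (Fᶜ.indicator g) := TT_A hmFc hfin2
      _ ≤ ENNReal.ofReal 100000000000000000000 *
          ENNReal.ofReal (600 * (1 / 10000000000000) ^ 2) := by gcongr
      _ ≤ ENNReal.ofReal (1 / 1600) := by
          rw [← ENNReal.ofReal_mul (by norm_num)]
          apply ENNReal.ofReal_le_ofReal
          norm_num
  have hsum : ENNReal.ofReal (1 / 10) ≤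
      16 * (A (e.indicator (TT (F.indicator g))) + ENNReal.ofReal (1 / 1600)) := by
    refine hlow.trans ?_
    rw [hcongr]
    refine (A_add _ _).trans ?_
    gcongr
  by_contra hcon
  push Not at hcon
  have hne : A (e.indicator (TT (F.indicator g))) ≠ ∞ := ne_top_of_lt hcon
  rw [← ENNReal.ofReal_toReal hne] at hcon hsum
  have h1 := (ENNReal.ofReal_lt_ofReal_iff (by norm_num)).1 hcon
  rw [← ENNReal.ofReal_add ENNReal.toReal_nonneg (by norm_num),
    show (16:ℝ≥0∞) = ENNReal.ofReal 16 by norm_num, ← ENNReal.ofReal_mul (by norm_num)] at hsum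
  have h2 := (ENNReal.ofReal_le_ofReal_iff (by positivity)).1 hsum
  linarith

end Pool.Agent.Helper401.OB
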