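import Pool.Agent.Helper401.OB.Basic

set_option autoImplicit false

open MeasureTheory Set Filter Topology
open scoped ENNReal NNReal

namespace Pool.Agent.Helper401.OB

theorem radint_add {f g : ℝ → ℝ} (hf : Integrable f mu) (hg : Integrable g mu) :
    Integrable (fun y => f y + g y) mu := hf.add hg

theorem step_radsum {b m : ℕ} {a : ℕ → ℝ → ℝ} (ha : ∀ j < m, Step b (a j)) :
    Step (b + m) (fun y => ∑ j ∈ Finset.range m, a j y * rad (b + j + 1) y) :=
  step_sum _ fun j hj => by
    have hj' := Finset.mem_range.1 hj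
    exact ((ha j hj').mono (by omega)).mul ((step_rad _).mono (by omega))


theorem second_moment {b m : ℕ} {a : ℕ → ℝ → ℝ} {φ : ℝ → ℝ} (ha : ∀ j < m, Step b (a j))
    (hφ : Step b φ) :
    ∫ y, φ y * (∑ j ∈ Finset.range m, a j y * rad (b + j + 1) y) ^ 2 ∂mu =
      ∫ y, φ y * ∑ j ∈ Finset.range m, a j y ^ 2 ∂mu := by
  induction m with
  | zero => simp
  | succ m ih =>
    have ha' : ∀ j < m, Step b (a j) := fun j hj => ha j (by omega)
    have ihm := ih ha'
    have hX := step_radsum ha'
    set X : ℝ → ℝ := fun y => ∑ j ∈ Finset.range m, a j y * rad (b + j + 1) y with hXdef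
    have hS : Step b (fun y => ∑ j ∈ Finset.range m, a j y ^ 2) :=
      step_sum _ fun j hj => (ha' j (Finset.mem_range.1 hj)).comp (fun t => t ^ 2)
    have ham : Step b (a m) := ha m (by omega)
    have hφm : Step (b + m) φ := hφ.mono (by omega)
    have ham' : Step (b + m) (a m) := ham.mono (by omega)
    have e1 : ∀ y, φ y * (∑ j ∈ Finset.range (m + 1), a j y * rad (b + j + 1) y) ^ 2 =
        φ y * (X y) ^ 2 + ((2 * (φ y * (X y * a m y))) * rad (b + m + 1) y + φ y * a m y ^ 2) := by
      intro y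
      rw [Finset.sum_range_succ]
      have hr := rad_sq (b + m + 1) y
      show φ y * (X y + a m y * rad (b + m + 1) y) ^ 2 = _
      linear_combination (φ y * a m y ^ 2) * hr
    have s1 : Step (b + m) (fun y => φ y * (X y) ^ 2) := hφm.mul (hX.comp (fun t => t ^ 2))
    have s2 : Step (b + m) (fun y => 2 * (φ y * (X y * a m y))) :=
      (step_const _ 2).mul (hφm.mul (hX.mul ham'))
    have s2' : Step (b + m + 1) (fun y => (2 * (φ y * (X y * a m y))) * rad (b + m + 1) y) :=
      (s2.mono (by omega)).mul (step_rad _)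
    have s3 : Step b (fun y => φ y * a m y ^ 2) := hφ.mul (ham.comp (fun t => t ^ 2))
    rw [integral_congr_ae (Eventually.of_forall e1), integral_add s1.integrable
      (radint_add s2'.integrable s3.integrable), integral_add s2'.integrable s3.integrable,
      integral_mul_rad s2, zero_add]
    have e2 : ∀ y, φ y * ∑ j ∈ Finset.range (m + 1), a j y ^ 2 =
        φ y * ∑ j ∈ Finset.range m, a j y ^ 2 + φ y * a m y ^ 2 := by
      intro y
      rw [Finset.sum_range_succ, mul_add]
    rw [integral_congr_ae (Eventually.of_forall e2), integral_add (hφ.mul hS).integrable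
      s3.integrable, ← ihm]

theorem fourth_moment {b m : ℕ} {a : ℕ → ℝ → ℝ} (ha : ∀ j < m, Step b (a j)) :
    ∫ y, (∑ j ∈ Finset.range m, a j y * rad (b + j + 1) y) ^ 4 ∂mu ≤
      3 * ∫ y, (∑ j ∈ Finset.range m, a j y ^ 2) ^ 2 ∂mu := by
  induction m with
  | zero => simp
  | succ m ih =>
    have ha' : ∀ j < m, Step b (a j) := fun j hj => ha j (by omega)
    have ihm := ih ha'
    have hX := step_radsum ha'
    have ham : Step b (a m) := ha m (by omega)
    have h2 := second_moment (φ := fun y => a m y ^ 2) ha' (ham.comp (fun t => t ^ 2))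
    set X : ℝ → ℝ := fun y => ∑ j ∈ Finset.range m, a j y * rad (b + j + 1) y with hXdef
    have hS : Step b (fun y => ∑ j ∈ Finset.range m, a j y ^ 2) :=
      step_sum _ fun j hj => (ha' j (Finset.mem_range.1 hj)).comp (fun t => t ^ 2)
    set S : ℝ → ℝ := fun y => ∑ j ∈ Finset.range m, a j y ^ 2 with hSdef
    have ham' : Step (b + m) (a m) := ham.mono (by omega)
    have s1 : Step (b + m) (fun y => (X y) ^ 4) := hX.comp (fun t => t ^ 4)
    have s2 : Step (b + m) (fun y => a m y ^ 2 * (X y) ^ 2) :=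
      (ham'.comp (fun t => t ^ 2)).mul (hX.comp (fun t => t ^ 2))
    have s3 : Step (b + m) (fun y => 4 * ((X y) ^ 3 * a m y + X y * a m y ^ 3)) :=
      (step_const _ 4).mul (((hX.comp (fun t => t ^ 3)).mul ham').add
        (hX.mul (ham'.comp (fun t => t ^ 3))))
    have s3' : Step (b + m + 1) (fun y => (4 * ((X y) ^ 3 * a m y + X y * a m y ^ 3)) *
        rad (b + m + 1) y) := (s3.mono (by omega)).mul (step_rad _)
    have s4 : Step b (fun y => a m y ^ 4) := ham.comp (fun t => t ^ 4)
    have s5 : Step b (fun y => (S y) ^ 2) := hS.comp (fun t => t ^ 2)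
    have s6 : Step b (fun y => a m y ^ 2 * S y) := (ham.comp (fun t => t ^ 2)).mul hS
    have e1 : ∀ y, (∑ j ∈ Finset.range (m + 1), a j y * rad (b + j + 1) y) ^ 4 =
        (X y) ^ 4 + (6 * (a m y ^ 2 * (X y) ^ 2) + (a m y ^ 4 +
        (4 * ((X y) ^ 3 * a m y + X y * a m y ^ 3)) * rad (b + m + 1) y)) := by
      intro y
      rw [Finset.sum_range_succ]
      have hr := rad_sq (b + m + 1) y
      show (X y + a m y * rad (b + m + 1) y) ^ 4 = _
      linear_combination (6 * a m y ^ 2 * X y ^ 2 + 4 * X y * a m y ^ 3 * rad (b + m + 1) y +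
        a m y ^ 4 * (rad (b + m + 1) y ^ 2 + 1)) * hr
    have i1 : ∫ y, (∑ j ∈ Finset.range (m + 1), a j y * rad (b + j + 1) y) ^ 4 ∂mu =
        ∫ y, (X y) ^ 4 ∂mu + (6 * ∫ y, a m y ^ 2 * (X y) ^ 2 ∂mu + ∫ y, a m y ^ 4 ∂mu) := by
      rw [integral_congr_ae (Eventually.of_forall e1), integral_add s1.integrable
        (radint_add (s2.integrable.const_mul 6) (radint_add s4.integrable s3'.integrable)),
        integral_add (s2.integrable.const_mul 6) (radint_add s4.integrable s3'.integrable),
        integral_add s4.integrable s3'.integrable, integral_mul_rad s3, integral_const_mul, add_zero]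
    have e2 : ∀ y, (∑ j ∈ Finset.range (m + 1), a j y ^ 2) ^ 2 =
        (S y) ^ 2 + (2 * (a m y ^ 2 * S y) + a m y ^ 4) := by
      intro y
      rw [Finset.sum_range_succ]
      show (S y + a m y ^ 2) ^ 2 = _
      ring
    have i2 : ∫ y, (∑ j ∈ Finset.range (m + 1), a j y ^ 2) ^ 2 ∂mu =
        ∫ y, (S y) ^ 2 ∂mu + (2 * ∫ y, a m y ^ 2 * S y ∂mu + ∫ y, a m y ^ 4 ∂mu) := by
      rw [integral_congr_ae (Eventually.of_forall e2), integral_add s5.integrable
        (radint_add (s6.integrable.const_mul 2) s4.integrable),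
        integral_add (s6.integrable.const_mul 2) s4.integrable, integral_const_mul]
    have h4 : 0 ≤ ∫ y, a m y ^ 4 ∂mu := integral_nonneg fun y => by positivity
    rw [i1, i2, h2]
    linarith

end Pool.Agent.Helper401.OB

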