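import Pool.Agent.Helper401.OB.Basic

set_option autoImplicit false

open MeasureTheory Set Filter Topology
open scoped ENNReal NNReal

namespace Pool.Agent.Helper401.OB

/-- scaling of the level -/
theorem A_scale8 (f : ℝ → ℝ) :
    ∫⁻ l in Ioi (0:ℝ), ENNReal.ofReal (l ^ 2 * (mu.real {y | l / 8 < |f y|}) ^ 2) = 512 * A f := by
  set G : ℝ → ℝ≥0∞ := fun l => ENNReal.ofReal (l ^ 2 * (mu.real {y | l / 8 < |f y|}) ^ 2) with hG
  have h8 : (8 : ℝ) ≠ 0 := by norm_num
  have hvol := Real.smul_map_volume_mul_left h8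
  have hemb : MeasurableEmbedding (fun x : ℝ => 8 * x) := (Homeomorph.mulLeft₀ (8:ℝ) h8).measurableEmbedding
  calc ∫⁻ l in Ioi (0:ℝ), G l = ∫⁻ l, (Ioi (0:ℝ)).indicator G l := by
        rw [lintegral_indicator measurableSet_Ioi]
    _ = ∫⁻ l, (Ioi (0:ℝ)).indicator G l ∂(ENNReal.ofReal |(8:ℝ)| • Measure.map (8 * ·) volume) := by
        rw [hvol]
    _ = ENNReal.ofReal |(8:ℝ)| * ∫⁻ l, (Ioi (0:ℝ)).indicator G (8 * l) := by
        rw [lintegral_smul_measure, hemb.lintegral_map]; rfl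
    _ = ENNReal.ofReal |(8:ℝ)| * ∫⁻ l, (Ioi (0:ℝ)).indicator (fun l => 64 * ENNReal.ofReal (l ^ 2 * (mu.real {y | l < |f y|}) ^ 2)) l := by
        congr 1
        apply lintegral_congr
        intro l
        by_cases hl : 0 < l
        · rw [indicator_of_mem (by simpa using hl), indicator_of_mem (by simpa using hl)]
          simp only [hG]
          have e1 : (8 * l) / 8 = l := by ring
          rw [e1]
          have e2 : (64 : ℝ≥0∞) = ENNReal.ofReal 64 := by simp
          rw [e2, ← ENNReal.ofReal_mul (by norm_num)]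
          congr 1
          ring
        · rw [indicator_of_notMem (by simpa using hl), indicator_of_notMem (by simpa using hl)]
    _ = 512 * A f := by
        rw [lintegral_indicator measurableSet_Ioi, lintegral_const_mul' _ _ (by norm_num), ← mul_assoc]
        have e2 : ENNReal.ofReal |(8:ℝ)| * 64 = 512 := by
          have : |(8:ℝ)| = 8 := by norm_num
          rw [this]
          have e3 : ENNReal.ofReal 8 = 8 := by simp
          rw [e3]; norm_num
        rw [e2]; rfl

theorem om_nonneg_J9 {g : ℕ → ℝ → ℝ} {ω : ℕ → ℝ}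
    (hw : ∀ k s, 0 < s → mu.real {y | s < |g k y|} ≤ ω k * (1 + 1 / s ^ 2)) (k : ℕ) : 0 ≤ ω k := by
  have h := hw k 1 one_pos
  have h0 : 0 ≤ mu.real {y | (1:ℝ) < |g k y|} := measureReal_nonneg
  norm_num at h
  linarith

/-- almost everywhere convergence -/
theorem ae_summable {g : ℕ → ℝ → ℝ} (hg : ∀ k, Measurable (g k)) {ω : ℕ → ℝ}
    (hw : ∀ k s, 0 < s → mu.real {y | s < |g k y|} ≤ ω k * (1 + 1 / s ^ 2))
    (hω : Summable fun k => ω k * 4 ^ k) :
    ∀ᵐ y ∂mu, Summable fun k => g k y := by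
  have hω0 := om_nonneg_J9 hw
  have hb : ∀ k, mu {y | (1/2 : ℝ) ^ k < |g k y|} ≤ ENNReal.ofReal (2 * (ω k * 4 ^ k)) := by
    intro k
    have h := hw k ((1/2 : ℝ) ^ k) (by positivity)
    have h2 : ω k * (1 + 1 / ((1/2 : ℝ) ^ k) ^ 2) ≤ 2 * (ω k * 4 ^ k) := by
      have e : 1 / ((1/2 : ℝ) ^ k) ^ 2 = 4 ^ k := by
        rw [← pow_mul, mul_comm, pow_mul, one_div_pow, one_div_pow]
        simp only [one_div, inv_pow, inv_inv]
        norm_num
      rw [e]
      have : (1 : ℝ) ≤ 4 ^ k := one_le_pow₀ (by norm_num)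
      nlinarith [hω0 k]
    rw [← ofReal_measureReal (measure_ne_top _ _)]
    exact ENNReal.ofReal_le_ofReal (h.trans h2)
  have hfin : ∑' k, mu {y | (1/2 : ℝ) ^ k < |g k y|} ≠ ∞ := by
    have h1 : ∑' k, mu {y | (1/2 : ℝ) ^ k < |g k y|} ≤ ∑' k, ENNReal.ofReal (2 * (ω k * 4 ^ k)) :=
      ENNReal.tsum_le_tsum hb
    have h2 : ∑' k, ENNReal.ofReal (2 * (ω k * 4 ^ k)) = ENNReal.ofReal (∑' k, 2 * (ω k * 4 ^ k)) := by
      rw [ENNReal.ofReal_tsum_of_nonneg]
      · intro k; have := hω0 k; positivity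
      · exact hω.mul_left 2
    rw [h2] at h1
    exact ne_top_of_le_ne_top ENNReal.ofReal_ne_top h1
  filter_upwards [ae_eventually_notMem hfin] with y hy
  have hs : Summable fun k : ℕ => (1/2 : ℝ) ^ k := summable_geometric_of_lt_one (by norm_num) (by norm_num)
  refine Summable.of_norm_bounded_eventually_nat hs ?_
  filter_upwards [hy] with k hk
  rw [Real.norm_eq_abs]
  simpa using hk

/-- the pointwise split -/
theorem split_mem_J9 {g h e : ℕ → ℝ → ℝ}
    (hghe : ∀ k y, g k y = h k y + e k y) {B : ℕ → ℝ} (hB : ∀ k y, |g k y| ≤ B k)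
    {l : ℝ} (hl : 0 < l) {k : ℕ} (hk : ∑ i ∈ Finset.range k, B i ≤ l / 4) :
    {y | l < |∑' k, g k y|} ⊆ ({y | l / 8 < |h k y|} ∪ {y | l / 8 < |e k y|}) ∪
      ⋃ i : ℕ, {y | (1/2 : ℝ) ^ i * (l / 4) < |g (k + 1 + i) y|} := by
  intro y hy
  by_contra hcon
  simp only [mem_union, mem_iUnion, mem_ofPred_eq, not_or, not_exists, not_lt] at hcon
  obtain ⟨⟨h1, h2⟩, h3⟩ := hcon
  simp only [mem_ofPred_eq] at hy
  by_cases hs : Summable fun k => g k y
  · have e1 := hs.sum_add_tsum_nat_add (k + 1)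
    rw [← e1] at hy
    have hge : HasSum (fun i : ℕ => (1/2 : ℝ) ^ i * (l / 4)) (2 * (l / 4)) := by
      have := (hasSum_geometric_two).mul_right (l / 4)
      simpa using this
    have h4 : ‖∑' i, g (i + (k + 1)) y‖ ≤ 2 * (l / 4) := by
      apply tsum_of_norm_bounded hge
      intro i
      rw [Real.norm_eq_abs, add_comm i (k+1)]
      exact h3 i
    rw [Real.norm_eq_abs] at h4
    rw [Finset.sum_range_succ] at hy
    have h5 : |∑ i ∈ Finset.range k, g i y| ≤ l / 4 := by
      refine (Finset.abs_sum_le_sum_abs _ _).trans ?_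
      refine (Finset.sum_le_sum fun i _ => hB i y).trans hk
    have h6 : |g k y| ≤ l / 4 := by
      rw [hghe k y]
      refine (abs_add_le _ _).trans ?_
      linarith
    have h7 := abs_add_le (∑ i ∈ Finset.range k, g i y + g k y) (∑' i, g (i + (k + 1)) y)
    have h8 := abs_add_le (∑ i ∈ Finset.range k, g i y) (g k y)
    linarith
  · rw [tsum_eq_zero_of_not_summable hs, abs_zero] at hy
    linarith

theorem dist_bound_J9 {g h e : ℕ → ℝ → ℝ}
    (hghe : ∀ k y, g k y = h k y + e k y) {B : ℕ → ℝ} (hB : ∀ k y, |g k y| ≤ B k)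
    {ω η : ℕ → ℝ} (hw : ∀ k s, 0 < s → mu.real {y | s < |g k y|} ≤ ω k * (1 + 1 / s ^ 2))
    (hω : ∀ k, Summable fun i => ω (k + 1 + i) * 4 ^ i)
    (hη : ∀ k, 17 * ∑' i, ω (k + 1 + i) * 4 ^ i ≤ η k)
    {l : ℝ} (hl : 1 ≤ l) {k : ℕ} (hk : ∑ i ∈ Finset.range k, B i ≤ l / 4) :
    mu.real {y | l < |∑' k, g k y|} ≤ mu.real {y | l / 8 < |h k y|} + mu.real {y | l / 8 < |e k y|}
      + η k := by
  have hω0 := om_nonneg_J9 hw
  have h1 := split_mem_J9 hghe hB (by linarith : 0 < l) hk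
  have h2 : mu.real (⋃ i : ℕ, {y | (1/2 : ℝ) ^ i * (l / 4) < |g (k + 1 + i) y|}) ≤ η k := by
    have h3 : mu (⋃ i : ℕ, {y | (1/2 : ℝ) ^ i * (l / 4) < |g (k + 1 + i) y|}) ≤
        ENNReal.ofReal (∑' i, 17 * (ω (k + 1 + i) * 4 ^ i)) := by
      refine (measure_iUnion_le _).trans ?_
      rw [ENNReal.ofReal_tsum_of_nonneg]
      · apply ENNReal.tsum_le_tsum
        intro i
        rw [← ofReal_measureReal (measure_ne_top _ _)]
        apply ENNReal.ofReal_le_ofReal
        have h4 := hw (k + 1 + i) ((1/2 : ℝ) ^ i * (l / 4)) (by positivity)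
        refine h4.trans ?_
        have e : 1 / ((1/2 : ℝ) ^ i * (l / 4)) ^ 2 = 16 * 4 ^ i / l ^ 2 := by
          have e0 : ((1/2 : ℝ) ^ i) ^ 2 = 1 / 4 ^ i := by
            rw [← pow_mul, mul_comm i 2, pow_mul, show ((1/2 : ℝ)) ^ 2 = 1 / 4 by norm_num, one_div_pow]
          rw [mul_pow, e0]
          field_simp
          norm_num
        rw [e]
        have h5 : 16 * 4 ^ i / l ^ 2 ≤ 16 * (4:ℝ) ^ i := by
          apply div_le_self (by positivity)
          nlinarith
        have h6 : (1 : ℝ) ≤ 4 ^ i := one_le_pow₀ (by norm_num)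
        nlinarith [hω0 (k+1+i)]
      · intro i
        have := hω0 (k+1+i)
        positivity
      · exact (hω k).mul_left 17
    rw [tsum_mul_left] at h3
    have h7 : mu (⋃ i : ℕ, {y | (1/2 : ℝ) ^ i * (l / 4) < |g (k + 1 + i) y|}) ≤ ENNReal.ofReal (η k) :=
      h3.trans (ENNReal.ofReal_le_ofReal (hη k))
    have hη0 : 0 ≤ η k := by
      refine le_trans ?_ (hη k)
      apply mul_nonneg (by norm_num)
      apply tsum_nonneg
      intro i
      have := hω0 (k+1+i)
      positivity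
    exact ENNReal.toReal_le_of_le_ofReal hη0 h7
  calc mu.real {y | l < |∑' k, g k y|}
      ≤ mu.real (({y | l / 8 < |h k y|} ∪ {y | l / 8 < |e k y|}) ∪
      ⋃ i : ℕ, {y | (1/2 : ℝ) ^ i * (l / 4) < |g (k + 1 + i) y|}) := measureReal_mono h1
    _ ≤ mu.real ({y | l / 8 < |h k y|} ∪ {y | l / 8 < |e k y|}) +
      mu.real (⋃ i : ℕ, {y | (1/2 : ℝ) ^ i * (l / 4) < |g (k + 1 + i) y|}) := measureReal_union_le _ _
    _ ≤ _ := by
      have := measureReal_union_le (μ := mu) {y | l / 8 < |h k y|} {y | l / 8 < |e k y|}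
      linarith

theorem meas_F_J9 (f : ℝ → ℝ) : Measurable (fun l : ℝ => mu.real {y | l / 8 < |f y|}) := by
  apply Antitone.measurable
  intro a b hab
  refine measureReal_mono ?_ (measure_ne_top _ _)
  intro y hy
  have hy' : b / 8 < |f y| := hy
  show a / 8 < |f y|
  linarith

/-- the sum of the series -/
theorem multi_abs {g h e : ℕ → ℝ → ℝ} (hg : ∀ k, Measurable (g k))
    (hghe : ∀ k y, g k y = h k y + e k y) {B : ℕ → ℝ} (hB : ∀ k y, |g k y| ≤ B k)
    {ω η : ℕ → ℝ} (hw : ∀ k s, 0 < s → mu.real {y | s < |g k y|} ≤ ω k * (1 + 1 / s ^ 2))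
    (hω : ∀ k, Summable fun i => ω (k + 1 + i) * 4 ^ i)
    (hη : ∀ k, 17 * ∑' i, ω (k + 1 + i) * 4 ^ i ≤ η k) :
    A (fun y => ∑' k, g k y) ≤ 1 + 1536 * ∑' k, (A (h k) + A (e k)) +
      3 * ∑' k, ENNReal.ofReal (η k ^ 2 * (4 * ∑ i ∈ Finset.range (k + 1), B i) ^ 3) := by
  have hω0 := om_nonneg_J9 hw
  have hB0 : ∀ k, 0 ≤ B k := fun k => (abs_nonneg _).trans (hB k 0)
  set β : ℕ → ℝ := fun k => 4 * ∑ i ∈ Finset.range (k + 1), B i with hβ
  have hβ0 : ∀ k, 0 ≤ β k := fun k => by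
    have : 0 ≤ ∑ i ∈ Finset.range (k + 1), B i := Finset.sum_nonneg fun i _ => hB0 i
    simp only [hβ]; linarith
  set F : ℝ → ℝ := fun l => mu.real {y | l < |∑' k, g k y|} with hF
  have hF0 : ∀ l, 0 ≤ F l := fun l => measureReal_nonneg
  have hF1 : ∀ l, F l ≤ 1 := fun l => measureReal_le_one
  set I : ℕ → Set ℝ := fun k => {l | 1 ≤ l ∧ l < β k ∧ ∀ i < k, β i ≤ l} with hI
  set Z : Set ℝ := {l | 1 ≤ l ∧ ∀ k, β k ≤ l} with hZ
  have hcover : Ioi (0:ℝ) ⊆ Ioo 0 1 ∪ (Z ∪ ⋃ k, I k) := by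
    intro l hl
    simp only [mem_Ioi] at hl
    by_cases h1 : l < 1
    · left; exact ⟨hl, h1⟩
    · right
      push Not at h1
      by_cases h2 : ∀ k, β k ≤ l
      · left; exact ⟨h1, h2⟩
      · right
        push Not at h2
        classical
        refine mem_iUnion.2 ⟨Nat.find h2, h1, Nat.find_spec h2, ?_⟩
        intro i hi
        have := Nat.find_min h2 hi
        push Not at this
        exact this
  have hZm : MeasurableSet Z := by
    have : Z = Ici 1 ∩ ⋂ k, Ici (β k) := by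
      ext l; simp [hZ]
    rw [this]
    exact measurableSet_Ici.inter (MeasurableSet.iInter fun k => measurableSet_Ici)
  have hIm : ∀ k, MeasurableSet (I k) := by
    intro k
    have : I k = Ici 1 ∩ (Iio (β k) ∩ ⋂ i, ⋂ (_ : i < k), Ici (β i)) := by
      ext l; simp [hI]
    rw [this]
    exact measurableSet_Ici.inter (measurableSet_Iio.inter
      (MeasurableSet.iInter fun i => MeasurableSet.iInter fun _ => measurableSet_Ici))
  set G : ℝ → ℝ≥0∞ := fun l => ENNReal.ofReal (l ^ 2 * (F l) ^ 2) with hG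
  have hA : A (fun y => ∑' k, g k y) = ∫⁻ l in Ioi (0:ℝ), G l := rfl
  have h01 : ∫⁻ l in Ioo (0:ℝ) 1, G l ≤ 1 := by
    calc ∫⁻ l in Ioo (0:ℝ) 1, G l ≤ ∫⁻ l in Ioo (0:ℝ) 1, 1 := by
          apply setLIntegral_mono' measurableSet_Ioo
          intro l hl
          rw [hG]
          simp only
          rw [← ENNReal.ofReal_one]
          apply ENNReal.ofReal_le_ofReal
          have h1 : l ^ 2 ≤ 1 := by nlinarith [hl.1, hl.2]
          have h2 : F l ^ 2 ≤ 1 := by nlinarith [hF0 l, hF1 l]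
          nlinarith [sq_nonneg l, sq_nonneg (F l)]
      _ = 1 := by
          rw [setLIntegral_one, Real.volume_Ioo]; simp
  have hZ0 : ∫⁻ l in Z, G l = 0 := by
    have : ∫⁻ l in Z, G l = ∫⁻ l in Z, 0 := by
      apply setLIntegral_congr_fun hZm
      intro l hl
      simp only [hG]
      have hFl : F l = 0 := by
        have : {y | l < |∑' k, g k y|} = ∅ := by
          ext y
          simp only [mem_ofPred_eq, mem_empty_iff_false, iff_false, not_lt]
          by_cases hs : Summable fun k => g k y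
          · have ht := hs.hasSum.tendsto_sum_nat.abs
            refine le_of_tendsto ht ?_
            filter_upwards with n
            have h5 : |∑ i ∈ Finset.range n, g i y| ≤ ∑ i ∈ Finset.range n, B i :=
              (Finset.abs_sum_le_sum_abs _ _).trans (Finset.sum_le_sum fun i _ => hB i y)
            have h6 : ∑ i ∈ Finset.range n, B i ≤ ∑ i ∈ Finset.range (n+1), B i :=
              Finset.sum_le_sum_of_subset_of_nonneg (Finset.range_subset_range.2 (Nat.le_succ n)) (fun i _ _ => hB0 i)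
            have h7 := hl.2 n
            simp only [hβ] at h7
            have h8 : 0 ≤ ∑ i ∈ Finset.range (n+1), B i := Finset.sum_nonneg fun i _ => hB0 i
            linarith
          · rw [tsum_eq_zero_of_not_summable hs, abs_zero]
            have := hl.1
            linarith
        simp only [hF, this, measureReal_empty]
      rw [hFl]; simp
    rw [this]; simp
  have hIk : ∀ k, ∫⁻ l in I k, G l ≤ 1536 * (A (h k) + A (e k)) + 3 * ENNReal.ofReal (η k ^ 2 * (β k) ^ 3) := by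
    intro k
    have hη0 : 0 ≤ η k := by
      refine le_trans ?_ (hη k)
      apply mul_nonneg (by norm_num)
      apply tsum_nonneg
      intro i
      have := hω0 (k+1+i)
      positivity
    set Gh : ℝ → ℝ≥0∞ := fun l => ENNReal.ofReal (l ^ 2 * (mu.real {y | l / 8 < |h k y|}) ^ 2) with hGh
    set Ge : ℝ → ℝ≥0∞ := fun l => ENNReal.ofReal (l ^ 2 * (mu.real {y | l / 8 < |e k y|}) ^ 2) with hGe
    have mGh : Measurable Gh := by
      apply ENNReal.measurable_ofReal.comp
      exact (measurable_id.pow_const 2).mul ((meas_F_J9 (h k)).pow_const 2)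
    have mGe : Measurable Ge := by
      apply ENNReal.measurable_ofReal.comp
      exact (measurable_id.pow_const 2).mul ((meas_F_J9 (e k)).pow_const 2)
    have hpt : ∀ l ∈ I k, G l ≤ 3 * (Gh l + Ge l) + 3 * ENNReal.ofReal (η k ^ 2 * (β k) ^ 2) := by
      intro l hl
      obtain ⟨hl1, hl2, hl3⟩ := hl
      have hk : ∑ i ∈ Finset.range k, B i ≤ l / 4 := by
        rcases Nat.eq_zero_or_pos k with h0 | h0
        · subst h0; simp; linarith
        · have := hl3 (k-1) (by omega)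
          simp only [hβ] at this
          rw [Nat.sub_add_cancel h0] at this
          linarith
      have hd := dist_bound_J9 hghe hB hw hω hη hl1 hk
      set a := mu.real {y | l / 8 < |h k y|} with ha
      set b := mu.real {y | l / 8 < |e k y|} with hb
      have ha0 : 0 ≤ a := measureReal_nonneg
      have hb0 : 0 ≤ b := measureReal_nonneg
      have hd' : F l ≤ a + b + η k := hd
      have h3 : (3 : ℝ≥0∞) = ENNReal.ofReal 3 := by simp
      have hGhl : Gh l = ENNReal.ofReal (l ^ 2 * a ^ 2) := rfl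
      have hGel : Ge l = ENNReal.ofReal (l ^ 2 * b ^ 2) := rfl
      rw [hGhl, hGel, ← ENNReal.ofReal_add (by positivity) (by positivity), h3,
        ← ENNReal.ofReal_mul (by norm_num), ← ENNReal.ofReal_mul (by norm_num),
        ← ENNReal.ofReal_add (by positivity) (by positivity)]
      apply ENNReal.ofReal_le_ofReal
      have h4 : F l ^ 2 ≤ 3 * (a ^ 2 + b ^ 2 + η k ^ 2) := by
        have : F l ^ 2 ≤ (a + b + η k) ^ 2 := by
          apply pow_le_pow_left₀ (hF0 l) hd'
        nlinarith [sq_nonneg (a - b), sq_nonneg (a - η k), sq_nonneg (b - η k)]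
      have h5 : l ^ 2 ≤ β k ^ 2 := by nlinarith [hβ0 k]
      have h6 : l ^ 2 * F l ^ 2 ≤ l ^ 2 * (3 * (a ^ 2 + b ^ 2 + η k ^ 2)) :=
        mul_le_mul_of_nonneg_left h4 (sq_nonneg l)
      have h7 : l ^ 2 * η k ^ 2 ≤ β k ^ 2 * η k ^ 2 := mul_le_mul_of_nonneg_right h5 (sq_nonneg _)
      nlinarith
    have hsub1 : I k ⊆ Ioi 0 := by
      intro l hl
      have := hl.1
      simp only [mem_Ioi]; linarith
    have hsub2 : I k ⊆ Ioo 0 (β k) := by
      intro l hl
      exact ⟨by linarith [hl.1], hl.2.1⟩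
    calc ∫⁻ l in I k, G l ≤ ∫⁻ l in I k, (3 * (Gh l + Ge l) + 3 * ENNReal.ofReal (η k ^ 2 * (β k) ^ 2)) :=
          setLIntegral_mono' (hIm k) hpt
      _ = 3 * ((∫⁻ l in I k, Gh l) + (∫⁻ l in I k, Ge l)) +
            3 * ENNReal.ofReal (η k ^ 2 * (β k) ^ 2) * volume (I k) := by
          rw [lintegral_add_right _ measurable_const, lintegral_const_mul _ (by exact mGh.add mGe),
            lintegral_add_left mGh, setLIntegral_const]
      _ ≤ 3 * ((∫⁻ l in Ioi 0, Gh l) + (∫⁻ l in Ioi 0, Ge l)) +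
            3 * ENNReal.ofReal (η k ^ 2 * (β k) ^ 2) * volume (Ioo 0 (β k)) := by
          gcongr
      _ = 1536 * (A (h k) + A (e k)) + 3 * ENNReal.ofReal (η k ^ 2 * (β k) ^ 3) := by
          rw [hGh, hGe, A_scale8, A_scale8, Real.volume_Ioo, sub_zero, mul_assoc 3 (ENNReal.ofReal _),
            ← ENNReal.ofReal_mul (by positivity)]
          congr 1
          · rw [← mul_add, ← mul_assoc]; norm_num
          · congr 2; ring
  rw [hA]
  calc ∫⁻ l in Ioi (0:ℝ), G l ≤ ∫⁻ l in Ioo 0 1 ∪ (Z ∪ ⋃ k, I k), G l := lintegral_mono_set hcover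
    _ ≤ (∫⁻ l in Ioo (0:ℝ) 1, G l) + (∫⁻ l in (Z ∪ ⋃ k, I k), G l) := lintegral_union_le _ _ _
    _ ≤ (∫⁻ l in Ioo (0:ℝ) 1, G l) + ((∫⁻ l in Z, G l) + (∫⁻ l in ⋃ k, I k, G l)) := by
        have := lintegral_union_le (μ := volume) G Z (⋃ k, I k)
        gcongr
    _ ≤ 1 + (0 + ∑' k, ∫⁻ l in I k, G l) := by
        rw [hZ0]
        gcongr
        exact lintegral_iUnion_le _ _
    _ ≤ 1 + ∑' k, (1536 * (A (h k) + A (e k)) + 3 * ENNReal.ofReal (η k ^ 2 * (β k) ^ 3)) := by
        rw [zero_add]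
        gcongr with k
        exact hIk k
    _ = _ := by
        rw [ENNReal.tsum_add, ENNReal.tsum_mul_left, ENNReal.tsum_mul_left, ← add_assoc]

end Pool.Agent.Helper401.OB

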