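import Pool.Agent.Helper401.OB.Single
import Pool.Agent.Helper401.OB.Series

set_option autoImplicit false

open MeasureTheory Set Filter Topology
open scoped ENNReal NNReal

namespace Pool.Agent.Helper401.OB

/-- the lacunary sequence of generations -/
def nk : ℕ → ℕ
  | 0 => 1
  | k + 1 => 8 ^ (10 * (nk k) ^ 6)

theorem nk_zero : nk 0 = 1 := rfl

theorem nk_succ (k : ℕ) : nk (k + 1) = 8 ^ (10 * (nk k) ^ 6) := rfl

theorem nk_pos (k : ℕ) : 1 ≤ nk k := by
  cases k with
  | zero => exact le_rfl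
  | succ k => rw [nk_succ]; exact Nat.one_le_pow _ _ (by norm_num)

theorem self_le_pow6 (a : ℕ) : a ≤ a ^ 6 := Nat.le_self_pow (by norm_num) a

theorem nk_step (k : ℕ) : 16 * nk k ≤ nk (k + 1) := by
  rw [nk_succ]
  have h1 := nk_pos k
  have h2 := self_le_pow6 (nk k)
  have h3 : nk k < 2 ^ nk k := Nat.lt_two_pow_self
  calc 16 * nk k ≤ 2 ^ 4 * 2 ^ nk k := by omega
    _ = 2 ^ (4 + nk k) := by rw [pow_add]
    _ ≤ 2 ^ (3 * (10 * (nk k) ^ 6)) := by
        apply Nat.pow_le_pow_right (by norm_num)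
        omega
    _ = 8 ^ (10 * (nk k) ^ 6) := by rw [pow_mul]; norm_num

theorem nk_add (k i : ℕ) : 16 ^ i * nk k ≤ nk (k + i) := by
  induction i with
  | zero => simp
  | succ i ih =>
    have := nk_step (k + i)
    rw [pow_succ, ← add_assoc]
    nlinarith

theorem nk_ge (k : ℕ) : 16 ^ k ≤ nk k := by
  have := nk_add 0 k
  rwa [nk_zero, mul_one, zero_add] at this

theorem nk_mono : Monotone nk := monotone_nat_of_le_succ fun k => by
  have := nk_step k
  omega

theorem Mk_ge (k : ℕ) : k + 1 ≤ (nk k) ^ 6 := by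
  have h1 := nk_ge k
  have h2 := self_le_pow6 (nk k)
  have h3 : k + 1 ≤ 16 ^ k := by
    have : k < 2 ^ k := Nat.lt_two_pow_self
    have h4 : 2 ^ k ≤ 16 ^ k := Nat.pow_le_pow_left (by norm_num) k
    omega
  omega

/-- truncation levels -/
noncomputable def Hk (k : ℕ) : ℝ := if k = 0 then 0 else (nk k : ℝ)

theorem Hk_nonneg (k : ℕ) : 0 ≤ Hk k := by
  unfold Hk
  split_ifs
  · exact le_rfl
  · positivity

theorem Hk_succ (k : ℕ) : Hk (k + 1) = nk (k + 1) := by
  unfold Hk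
  rw [if_neg (Nat.succ_ne_zero k)]

theorem Hk_mono : Monotone Hk := by
  refine monotone_nat_of_le_succ fun k => ?_
  rw [Hk_succ]
  unfold Hk
  split_ifs
  · positivity
  · exact_mod_cast nk_mono (Nat.le_succ k)

/-- the operator -/
noncomputable def TT (f : ℝ → ℝ) (y : ℝ) : ℝ := ∑' k, Tn (nk k) f y

theorem TT_smul (c : ℝ) (f : ℝ → ℝ) : TT (fun y => c * f y) = fun y => c * TT f y := by
  funext y
  unfold TT
  rw [← tsum_mul_left]
  refine tsum_congr fun k => ?_
  rw [Tn_smul]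

theorem TT_congr {f g : ℝ → ℝ} (h : f =ᵐ[mu] g) : TT f = TT g := by
  funext y
  unfold TT
  exact tsum_congr fun k => by rw [Tn_congr _ h]

noncomputable def om (k : ℕ) : ℝ := 150000000 / (nk k : ℝ) ^ 3

theorem om_nonneg (k : ℕ) : 0 ≤ om k := by unfold om; positivity

theorem om_le (k i : ℕ) : om (k + i) * 4 ^ i ≤ om k * (1 / 1024) ^ i := by
  unfold om
  have h1 : (16:ℝ) ^ i * nk k ≤ nk (k + i) := by exact_mod_cast nk_add k i
  have h0 : (0:ℝ) < nk k := by exact_mod_cast nk_pos k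
  have h2 : (0:ℝ) < 16 ^ i := by positivity
  have h3 : ((16:ℝ) ^ i * nk k) ^ 3 ≤ (nk (k + i) : ℝ) ^ 3 := by gcongr
  have h4 : (0:ℝ) < ((16:ℝ) ^ i * nk k) ^ 3 := by positivity
  calc 150000000 / (nk (k + i) : ℝ) ^ 3 * 4 ^ i
      ≤ 150000000 / ((16:ℝ) ^ i * nk k) ^ 3 * 4 ^ i := by gcongr
    _ = 150000000 / (nk k : ℝ) ^ 3 * (1 / 1024) ^ i := by
        have e : (16:ℝ) ^ i = 4 ^ i * 4 ^ i := by rw [← mul_pow]; norm_num
        have e2 : (1024:ℝ) ^ i = 4 ^ i * 4 ^ i * 4 ^ i * 4 ^ i * 4 ^ i := by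
          rw [← mul_pow, ← mul_pow, ← mul_pow, ← mul_pow]; norm_num
        rw [one_div, inv_pow, e, e2]
        field_simp

theorem om_summable (k : ℕ) : Summable fun i => om (k + i) * 4 ^ i := by
  refine Summable.of_nonneg_of_le (fun i => mul_nonneg (om_nonneg _) (by positivity))
    (om_le k) ?_
  exact (summable_geometric_of_lt_one (by norm_num) (by norm_num)).mul_left _

theorem om_tsum (k : ℕ) : ∑' i, om (k + i) * 4 ^ i ≤ 1024 / 1023 * om k := by
  have h1 : ∑' i, om (k + i) * 4 ^ i ≤ ∑' i : ℕ, om k * (1 / 1024 : ℝ) ^ i :=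
    (om_summable k).tsum_le_tsum (om_le k)
      ((summable_geometric_of_lt_one (by norm_num) (by norm_num)).mul_left _)
  rw [tsum_mul_left, tsum_geometric_of_lt_one (by norm_num) (by norm_num)] at h1
  norm_num at h1 ⊢
  linarith

theorem weak_om (k : ℕ) {f : ℝ → ℝ} (hf : Measurable f) (hA : A f ≤ 1) (s : ℝ) (hs : 0 < s) :
    mu.real {y | s < |Tn (nk k) f y|} ≤ om k * (1 + 1 / s ^ 2) := Tn_weak (nk_pos k) hf hA hs

theorem A_scale_le {f : ℝ → ℝ} (hfin : A f ≠ ∞) : ∃ c : ℝ, 0 < c ∧ A (fun y => c * f y) ≤ 1 := by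
  refine ⟨1 / (1 + (A f).toReal), by positivity, ?_⟩
  set a := (A f).toReal with ha
  have ha0 : 0 ≤ a := ENNReal.toReal_nonneg
  rw [A_smul, ← ENNReal.ofReal_toReal hfin, ← ha, ← ENNReal.ofReal_mul (by positivity),
    ← ENNReal.ofReal_one]
  apply ENNReal.ofReal_le_ofReal
  rw [abs_of_pos (by positivity)]
  have h1 : 1 / (1 + a) ≤ 1 := by rw [div_le_one (by positivity)]; linarith
  have h0 : 0 < 1 / (1 + a) := by positivity
  have h2 : (1 / (1 + a)) ^ 3 ≤ 1 / (1 + a) := by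
    calc (1 / (1 + a)) ^ 3 ≤ (1 / (1 + a)) ^ 1 :=
          pow_le_pow_of_le_one h0.le h1 (by norm_num)
      _ = 1 / (1 + a) := pow_one _
  calc (1 / (1 + a)) ^ 3 * a ≤ 1 / (1 + a) * a := by gcongr
    _ ≤ 1 := by
      rw [one_div, inv_mul_le_iff₀ (by positivity)]
      linarith

theorem TT_summable {f : ℝ → ℝ} (hf : Measurable f) (hfin : A f ≠ ∞) :
    ∀ᵐ y ∂mu, Summable fun k => Tn (nk k) f y := by
  obtain ⟨c, hc, hA⟩ := A_scale_le hfin
  have hω : Summable fun k => om k * 4 ^ k := by simpa using om_summable 0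
  have h := ae_summable (fun k => Tn_meas (nk k) (fun y => c * f y))
    (fun k s hs => weak_om k (hf.const_mul c) hA s hs) hω
  filter_upwards [h] with y hy
  simp only [Tn_smul] at hy
  exact (summable_mul_left_iff hc.ne').1 hy

theorem TT_add {f g : ℝ → ℝ} (hf : Measurable f) (hg : Measurable g) (hA : A f ≠ ∞)
    (hB : A g ≠ ∞) : TT (fun y => f y + g y) =ᵐ[mu] fun y => TT f y + TT g y := by
  filter_upwards [TT_summable hf hA, TT_summable hg hB] with y h1 h2
  unfold TT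
  rw [← h1.tsum_add h2]
  exact tsum_congr fun k => Tn_add (nk_pos k) (A_integrable hf hA) (A_integrable hg hB) y

theorem TT_aemeas {f : ℝ → ℝ} (hf : Measurable f) (hA : A f ≠ ∞) : AEMeasurable (TT f) mu := by
  refine aemeasurable_of_tendsto_metrizable_ae atTop
    (f := fun N y => ∑ k ∈ Finset.range N, Tn (nk k) f y) (fun N => ?_) ?_
  · exact (Finset.measurable_sum _ fun k _ => Tn_meas (nk k) f).aemeasurable
  · filter_upwards [TT_summable hf hA] with y hy
    exact hy.hasSum.tendsto_sum_nat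

noncomputable def Bk (k : ℕ) : ℝ := 3 * 8 ^ (5 * (nk k) ^ 6)

theorem Bk_sum (k : ℕ) : ∑ i ∈ Finset.range (k + 1), Bk i ≤ 6 * 8 ^ (5 * (nk k) ^ 6) := by
  induction k with
  | zero => simp [Bk]; norm_num
  | succ k ih =>
    rw [Finset.sum_range_succ]
    have h1 : (6:ℝ) * 8 ^ (5 * (nk k) ^ 6) ≤ 3 * 8 ^ (5 * (nk (k + 1)) ^ 6) := by
      have h2 : (nk k) ^ 6 + 1 ≤ (nk (k + 1)) ^ 6 := by
        have : nk k < nk (k + 1) := by
          have := nk_step k
          have := nk_pos k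
          omega
        exact Nat.pow_lt_pow_left this (by norm_num)
      have h3 : (8:ℝ) ^ (5 * (nk k) ^ 6 + 1) ≤ 8 ^ (5 * (nk (k + 1)) ^ 6) :=
        pow_le_pow_right₀ (by norm_num) (by omega)
      rw [pow_succ] at h3
      have h4 : (0:ℝ) < 8 ^ (5 * (nk k) ^ 6) := by positivity
      linarith
    have e : Bk (k + 1) = 3 * 8 ^ (5 * (nk (k + 1)) ^ 6) := rfl
    rw [e]
    linarith

noncomputable def etak (k : ℕ) : ℝ := 2600000000 / (nk (k + 1) : ℝ) ^ 3

theorem eta_term (k : ℕ) : etak k ^ 2 * (4 * ∑ i ∈ Finset.range (k + 1), Bk i) ^ 3 ≤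
    1 / 6 * (1 / 2) ^ k := by
  have h1 := Bk_sum k
  have h0 : 0 ≤ ∑ i ∈ Finset.range (k + 1), Bk i :=
    Finset.sum_nonneg fun i _ => by unfold Bk; positivity
  set M := (nk k) ^ 6 with hM
  have hMk : k + 1 ≤ M := Mk_ge k
  have e1 : (nk (k + 1) : ℝ) = 8 ^ (10 * M) := by rw [nk_succ]; push_cast; rfl
  have h2 : (4 * ∑ i ∈ Finset.range (k + 1), Bk i) ^ 3 ≤ (24 * 8 ^ (5 * M)) ^ 3 :=
    pow_le_pow_left₀ (by positivity) (by linarith) 3
  have h3 : etak k ^ 2 = 6760000000000000000 / 8 ^ (60 * M) := by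
    unfold etak
    rw [e1, div_pow, ← pow_mul, ← pow_mul]
    norm_num
    ring_nf
  rw [h3]
  have h8 : (0:ℝ) < 8 ^ (60 * M) := by positivity
  calc (6760000000000000000:ℝ) / 8 ^ (60 * M) * (4 * ∑ i ∈ Finset.range (k + 1), Bk i) ^ 3
      ≤ 6760000000000000000 / 8 ^ (60 * M) * (24 * 8 ^ (5 * M)) ^ 3 := by gcongr
    _ = 93450240000000000000000 / 8 ^ (45 * M) := by
        rw [mul_pow, ← pow_mul, div_mul_eq_mul_div, div_eq_div_iff (by positivity) (by positivity)]
        rw [show 60 * M = 45 * M + 5 * M * 3 by ring, pow_add]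
        ring
    _ ≤ 93450240000000000000000 / 8 ^ (45 * (k + 1)) := by
        gcongr
        · norm_num
    _ ≤ 1 / 6 * (1 / 2) ^ k := by
        rw [div_le_iff₀ (by positivity)]
        have e2 : (8:ℝ) ^ (45 * (k + 1)) = 8 ^ 45 * (8 ^ 45) ^ k := by
          rw [mul_add, pow_add, mul_one, pow_mul]; ring
        rw [e2]
        have e3 : (1:ℝ) / 6 * (1 / 2) ^ k * (8 ^ 45 * (8 ^ 45) ^ k) =
            1 / 6 * 8 ^ 45 * ((1 / 2) * 8 ^ 45) ^ k := by rw [mul_pow]; ring
        rw [e3]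
        have h5 : (1:ℝ) ≤ ((1 / 2) * 8 ^ 45) ^ k := one_le_pow₀ (by norm_num)
        have h6 : (93450240000000000000000:ℝ) ≤ 1 / 6 * 8 ^ 45 := by norm_num
        nlinarith

theorem eta_sum : 3 * ∑' k, ENNReal.ofReal
    (etak k ^ 2 * (4 * ∑ i ∈ Finset.range (k + 1), Bk i) ^ 3) ≤ 1 := by
  have hs : Summable fun k : ℕ => (1:ℝ) / 6 * (1 / 2) ^ k :=
    (summable_geometric_of_lt_one (by norm_num) (by norm_num)).mul_left _
  have h1 : ∑' k, ENNReal.ofReal
      (etak k ^ 2 * (4 * ∑ i ∈ Finset.range (k + 1), Bk i) ^ 3) ≤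
      ∑' k : ℕ, ENNReal.ofReal ((1:ℝ) / 6 * (1 / 2) ^ k) :=
    ENNReal.tsum_le_tsum fun k => ENNReal.ofReal_le_ofReal (eta_term k)
  have h2 : ∑' k : ℕ, ENNReal.ofReal ((1:ℝ) / 6 * (1 / 2) ^ k) = ENNReal.ofReal (1 / 3) := by
    rw [← ENNReal.ofReal_tsum_of_nonneg (fun k => by positivity) hs, tsum_mul_left,
      tsum_geometric_of_lt_one (by norm_num) (by norm_num)]
    norm_num
  calc 3 * ∑' k, ENNReal.ofReal (etak k ^ 2 * (4 * ∑ i ∈ Finset.range (k + 1), Bk i) ^ 3)
      ≤ 3 * ENNReal.ofReal (1 / 3) := by rw [← h2]; gcongr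
    _ = 1 := by
      rw [show (3:ℝ≥0∞) = ENNReal.ofReal 3 by norm_num, ← ENNReal.ofReal_mul (by norm_num)]
      norm_num

/-- the middle band -/
noncomputable def mid (f : ℝ → ℝ) (k : ℕ) (y : ℝ) : ℝ :=
  if Hk k < |f y| ∧ |f y| ≤ Hk (k + 1) then f y else 0

noncomputable def edge (f : ℝ → ℝ) (k : ℕ) (y : ℝ) : ℝ :=
  if Hk k < |f y| ∧ |f y| ≤ Hk (k + 1) then 0 else f y

theorem mid_meas {f : ℝ → ℝ} (hf : Measurable f) (k : ℕ) : Measurable (mid f k) :=
  Measurable.ite ((measurableSet_lt measurable_const hf.abs).inter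
    (measurableSet_le hf.abs measurable_const)) hf measurable_const

theorem edge_meas {f : ℝ → ℝ} (hf : Measurable f) (k : ℕ) : Measurable (edge f k) :=
  Measurable.ite ((measurableSet_lt measurable_const hf.abs).inter
    (measurableSet_le hf.abs measurable_const)) measurable_const hf

theorem mid_add_edge (f : ℝ → ℝ) (k : ℕ) (y : ℝ) : mid f k y + edge f k y = f y := by
  unfold mid edge
  split_ifs <;> simp

theorem A_mid (f : ℝ → ℝ) (k : ℕ) : A (mid f k) ≤ A f :=
  A_mono (Eventually.of_forall fun y => by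
    unfold mid
    split_ifs <;> simp)

theorem A_edge (f : ℝ → ℝ) (k : ℕ) : A (edge f k) ≤ A f :=
  A_mono (Eventually.of_forall fun y => by
    unfold edge
    split_ifs <;> simp)

theorem edge_bound (k : ℕ) : 5001 * Hk k / (nk k : ℝ) ^ 4 +
    6 * 64 ^ ((nk k) ^ 6) / Real.sqrt (Hk (k + 1)) ≤ 5007 / 8 ^ k := by
  have h0 : (0:ℝ) < nk k := by exact_mod_cast nk_pos k
  have h16 : (16:ℝ) ^ k ≤ nk k := by exact_mod_cast nk_ge k
  have h1 : Hk k / (nk k : ℝ) ^ 4 ≤ 1 / 8 ^ k := by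
    have h2 : Hk k ≤ nk k := by
      unfold Hk
      split_ifs
      · exact h0.le
      · exact le_rfl
    calc Hk k / (nk k : ℝ) ^ 4 ≤ (nk k : ℝ) / (nk k : ℝ) ^ 4 := by gcongr
      _ = 1 / (nk k : ℝ) ^ 3 := by field_simp
      _ ≤ 1 / (nk k : ℝ) := by
          gcongr
          have : (1:ℝ) ≤ nk k := by exact_mod_cast nk_pos k
          nlinarith [mul_nonneg h0.le h0.le]
      _ ≤ 1 / 8 ^ k := by
          gcongr
          refine le_trans ?_ h16
          gcongr
          norm_num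
  have h3 : (64:ℝ) ^ ((nk k) ^ 6) / Real.sqrt (Hk (k + 1)) ≤ 1 / 8 ^ k := by
    set M := (nk k) ^ 6 with hM
    have hMk : k + 1 ≤ M := Mk_ge k
    have e1 : Hk (k + 1) = (8 ^ (5 * M)) ^ 2 := by
      rw [Hk_succ, nk_succ]
      push_cast
      rw [← pow_mul]
      congr 1
      ring
    rw [e1, Real.sqrt_sq (by positivity)]
    have e2 : (64:ℝ) ^ M = 8 ^ (2 * M) := by rw [pow_mul]; norm_num
    rw [e2, show 5 * M = 2 * M + 3 * M by ring, pow_add, ← div_div, div_self (by positivity)]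
    gcongr
    · norm_num
    · omega
  have e : 5001 * Hk k / (nk k : ℝ) ^ 4 + 6 * 64 ^ ((nk k) ^ 6) / Real.sqrt (Hk (k + 1)) =
      5001 * (Hk k / (nk k : ℝ) ^ 4) + 6 * (64 ^ ((nk k) ^ 6) / Real.sqrt (Hk (k + 1))) := by ring
  rw [e, show (5007:ℝ) / 8 ^ k = 5001 * (1 / 8 ^ k) + 6 * (1 / 8 ^ k) by ring]
  linarith

theorem TT_A_one {f : ℝ → ℝ} (hf : Measurable f) (hA : A f ≤ 1) :
    A (TT f) ≤ ENNReal.ofReal 100000000000000000000 := by
  have hfin : A f ≠ ∞ := ne_top_of_le_ne_top ENNReal.one_ne_top hA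
  have hmfin : ∀ k, A (mid f k) ≠ ∞ := fun k => ne_top_of_le_ne_top hfin (A_mid f k)
  have hefin : ∀ k, A (edge f k) ≠ ∞ := fun k => ne_top_of_le_ne_top hfin (A_edge f k)
  have hmain := multi_abs (g := fun k => Tn (nk k) f) (h := fun k => Tn (nk k) (mid f k))
    (e := fun k => Tn (nk k) (edge f k)) (fun k => Tn_meas _ _)
    (fun k y => by
      have := Tn_add (nk_pos k) (A_integrable (mid_meas hf k) (hmfin k))
        (A_integrable (edge_meas hf k) (hefin k)) y
      simp only [mid_add_edge] at this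
      exact this)
    (B := Bk) (fun k y => Tn_sup (nk_pos k) hf hA y)
    (ω := om) (η := etak) (fun k s hs => weak_om k hf hA s hs)
    (fun k => om_summable (k + 1))
    (fun k => by
      have h1 := om_tsum (k + 1)
      have h2 : (0:ℝ) < (nk (k + 1) : ℝ) ^ 3 := by
        have := nk_pos (k + 1)
        positivity
      have h3 : om (k + 1) = 150000000 / (nk (k + 1) : ℝ) ^ 3 := rfl
      have h4 : etak k = 2600000000 / (nk (k + 1) : ℝ) ^ 3 := rfl
      rw [h4]
      rw [h3] at h1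
      have h5 : 17 * (1024 / 1023 * (150000000 / (nk (k + 1) : ℝ) ^ 3)) ≤
          2600000000 / (nk (k + 1) : ℝ) ^ 3 := by
        rw [show 17 * (1024 / 1023 * (150000000 / (nk (k + 1) : ℝ) ^ 3)) =
          (17 * (1024 / 1023 * 150000000)) / (nk (k + 1) : ℝ) ^ 3 by ring]
        gcongr
        norm_num
      linarith)
  have hsumA : ∑' k, A (Tn (nk k) (mid f k)) ≤ ENNReal.ofReal (200 * 60000 ^ 3) := by
    calc ∑' k, A (Tn (nk k) (mid f k))
        ≤ ∑' k, ENNReal.ofReal (200 * 60000 ^ 3) * A (mid f k) :=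
          ENNReal.tsum_le_tsum fun k => Tn_A' (nk_pos k) (mid_meas hf k) (hmfin k)
      _ = ENNReal.ofReal (200 * 60000 ^ 3) * ∑' k, A (mid f k) := ENNReal.tsum_mul_left
      _ ≤ ENNReal.ofReal (200 * 60000 ^ 3) * 1 := by
          gcongr
          exact (A_bands hf Hk_mono).trans hA
      _ = _ := mul_one _
  have hsumB : ∑' k, A (Tn (nk k) (edge f k)) ≤ ENNReal.ofReal (400 * 5007 ^ 3) := by
    have hk : ∀ k, A (Tn (nk k) (edge f k)) ≤
        ENNReal.ofReal (200 * 5007 ^ 3 * (1 / 2) ^ k) := by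
      intro k
      refine (Tn_edge (nk_pos k) (edge_meas hf k) ((A_edge f k).trans hA) (H0 := Hk k)
        (H1 := Hk (k + 1)) (Hk_nonneg k) (by rw [Hk_succ]; exact_mod_cast nk_pos (k + 1))
        (fun y => ?_)).trans (ENNReal.ofReal_le_ofReal ?_)
      · unfold edge
        split_ifs with h
        · left; simpa using Hk_nonneg k
        · by_cases h1 : |f y| ≤ Hk k
          · exact Or.inl h1
          · right
            by_contra h2
            exact h ⟨not_le.1 h1, not_lt.1 h2⟩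
      · have hb := edge_bound k
        have hpos : 0 ≤ 5001 * Hk k / (nk k : ℝ) ^ 4 +
            6 * 64 ^ ((nk k) ^ 6) / Real.sqrt (Hk (k + 1)) := by
          have := Hk_nonneg k
          positivity
        calc 200 * (5001 * Hk k / (nk k : ℝ) ^ 4 +
            6 * 64 ^ ((nk k) ^ 6) / Real.sqrt (Hk (k + 1))) ^ 3 ≤ 200 * (5007 / 8 ^ k) ^ 3 := by
              gcongr
          _ = 200 * 5007 ^ 3 * (1 / 8 ^ k) ^ 3 := by ring
          _ ≤ 200 * 5007 ^ 3 * (1 / 2) ^ k := by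
              gcongr
              have h1 : (1:ℝ) / 8 ^ k ≤ 1 := by
                rw [div_le_one (by positivity)]
                exact one_le_pow₀ (by norm_num)
              have h0 : (0:ℝ) < 1 / 8 ^ k := by positivity
              calc ((1:ℝ) / 8 ^ k) ^ 3 ≤ (1 / 8 ^ k) ^ 1 :=
                    pow_le_pow_of_le_one h0.le h1 (by norm_num)
                _ = (1 / 8) ^ k := by rw [pow_one, one_div, one_div, inv_pow]
                _ ≤ (1 / 2) ^ k := by gcongr; norm_num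
    calc ∑' k, A (Tn (nk k) (edge f k)) ≤
        ∑' k : ℕ, ENNReal.ofReal (200 * 5007 ^ 3 * (1 / 2) ^ k) := ENNReal.tsum_le_tsum hk
      _ = ENNReal.ofReal (∑' k : ℕ, 200 * 5007 ^ 3 * (1 / 2) ^ k) :=
          (ENNReal.ofReal_tsum_of_nonneg (fun k => by positivity)
            ((summable_geometric_of_lt_one (by norm_num) (by norm_num)).mul_left _)).symm
      _ = ENNReal.ofReal (400 * 5007 ^ 3) := by
          rw [tsum_mul_left, tsum_geometric_of_lt_one (by norm_num) (by norm_num)]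
          norm_num
  have e : A (TT f) = A (fun y => ∑' k, Tn (nk k) f y) := rfl
  rw [e]
  refine hmain.trans ?_
  rw [ENNReal.tsum_add]
  calc 1 + 1536 * (∑' k, A (Tn (nk k) (mid f k)) + ∑' k, A (Tn (nk k) (edge f k))) +
      3 * ∑' k, ENNReal.ofReal (etak k ^ 2 * (4 * ∑ i ∈ Finset.range (k + 1), Bk i) ^ 3)
      ≤ 1 + 1536 * (ENNReal.ofReal (200 * 60000 ^ 3) + ENNReal.ofReal (400 * 5007 ^ 3)) + 1 := by
        gcongr
        exact eta_sum
    _ ≤ ENNReal.ofReal 100000000000000000000 := by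
        rw [show (1536:ℝ≥0∞) = ENNReal.ofReal 1536 by norm_num,
          show (1:ℝ≥0∞) = ENNReal.ofReal 1 by norm_num,
          ← ENNReal.ofReal_add (by norm_num) (by norm_num),
          ← ENNReal.ofReal_mul (by norm_num), ← ENNReal.ofReal_add (by norm_num) (by norm_num),
          ← ENNReal.ofReal_add (by norm_num) (by norm_num)]
        apply ENNReal.ofReal_le_ofReal
        norm_num

theorem TT_A {f : ℝ → ℝ} (hf : Measurable f) (hfin : A f ≠ ∞) :
    A (TT f) ≤ ENNReal.ofReal 100000000000000000000 * A f :=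
  A_scaling ENNReal.ofReal_ne_top TT_smul (fun _ hg hA => TT_A_one hg hA) hf hfin

end Pool.Agent.Helper401.OB
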