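import Pool.Agent.Helper401.OB.Vtail
import Pool.Agent.Helper401.OB.Domain
import Pool.Agent.Helper401.OB.Dual
import Pool.Agent.Helper401.OB.ImageA
import Pool.Agent.Helper401.OB.ATool

set_option autoImplicit false

open MeasureTheory Set Filter Topology
open scoped ENNReal NNReal

namespace Pool.Agent.Helper401.OB

theorem coef_integrable {n j : ℕ} (hn : 1 ≤ n) {f : ℝ → ℝ} (hf : Integrable f mu) :
    Integrable (fun y => f y * vfn n j y * rad (3 * n ^ 6 + j + 1) y) mu := by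
  have hm : Measurable (fun y => vfn n j y * rad (3 * n ^ 6 + j + 1) y) :=
    (step_vfn n j).measurable.mul (step_rad _).measurable
  have h := hf.mul_bdd (c := 8 ^ (n ^ 6)) hm.aestronglyMeasurable
    (Eventually.of_forall fun y => by
      rw [Real.norm_eq_abs, abs_mul, abs_rad, mul_one, abs_of_nonneg (vfn_nonneg n j y)]
      exact vfn_le n j hn y)
  refine h.congr (Eventually.of_forall fun y => ?_)
  simp only [mul_assoc]

theorem sum_coef {n : ℕ} (hn : 1 ≤ n) {f : ℝ → ℝ} (hf : Integrable f mu) (d : ℕ → ℝ) :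
    ∑ j ∈ Finset.range (8 ^ (3 * n ^ 6)), coef n j f * d j = ∫ y, f y * Vfn n d y ∂mu := by
  have h1 : ∀ y, f y * Vfn n d y = ∑ j ∈ Finset.range (8 ^ (3 * n ^ 6)),
      f y * vfn n j y * rad (3 * n ^ 6 + j + 1) y * d j := by
    intro y
    unfold Vfn
    rw [Finset.mul_sum]
    exact Finset.sum_congr rfl fun j _ => by ring
  simp only [h1]
  rw [integral_finsetSum _ fun j _ => (coef_integrable hn hf).mul_const _]
  refine Finset.sum_congr rfl fun j _ => ?_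
  rw [integral_mul_const]
  rfl

/-- the weights of a coefficient sequence -/
noncomputable def wt (n : ℕ) (c : ℕ → ℝ) (J : ℕ) : ℝ :=
  Real.sqrt (Real.sqrt (∑ i ∈ Finset.range (8 ^ (n ^ 6)), c (J * 8 ^ (n ^ 6) + i) ^ 2))

theorem wt_nonneg (n : ℕ) (c : ℕ → ℝ) (J : ℕ) : 0 ≤ wt n c J := Real.sqrt_nonneg _

theorem wt_pow (n : ℕ) (c : ℕ → ℝ) (J : ℕ) :
    ∑ i ∈ Finset.range (8 ^ (n ^ 6)), c (J * 8 ^ (n ^ 6) + i) ^ 2 = (wt n c J) ^ 4 := by
  unfold wt
  have h : ∀ x : ℝ, 0 ≤ x → (Real.sqrt (Real.sqrt x)) ^ 4 = x := by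
    intro x hx
    rw [show (4:ℕ) = 2 * 2 by norm_num, pow_mul, Real.sq_sqrt (Real.sqrt_nonneg _), Real.sq_sqrt hx]
  rw [h _ (Finset.sum_nonneg fun i _ => sq_nonneg _)]

theorem wt_bound {n : ℕ} (hn : 1 ≤ n) {f : ℝ → ℝ} (hfi : Integrable f mu) {K : ℝ} (hK0 : 0 ≤ K)
    (hK : ∀ d D : ℕ → ℝ, (∀ J, 0 ≤ D J) →
      (∀ J < 8 ^ (2 * n ^ 6),
        ∑ i ∈ Finset.range (8 ^ (n ^ 6)), d (J * 8 ^ (n ^ 6) + i) ^ 2 ≤ D J ^ 2) →
      ∑ J ∈ Finset.range (8 ^ (2 * n ^ 6)), D J ^ 3 ≤ 1 →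
      ∫⁻ y, ENNReal.ofReal (|f y| * |Vfn n d y|) ∂mu ≤ ENNReal.ofReal K) :
    (∑ J ∈ Finset.range (8 ^ (2 * n ^ 6)), (wt n (fun j => coef n j f) J) ^ 3) ^ 2 ≤ K ^ 3 := by
  refine dual (fun j => coef n j f) fun d D hD hd hsum => ?_
  have h1 := sum_coef hn hfi d
  have e : 8 ^ (3 * n ^ 6) = 8 ^ (2 * n ^ 6) * 8 ^ (n ^ 6) := by rw [← pow_add]; congr 1; ring
  rw [e, sum_range_mul_aux (fun j => coef n j f * d j)] at h1
  rw [h1]
  have h2 := hK d D hD hd hsum
  have h3 : ‖∫ y, f y * Vfn n d y ∂mu‖ₑ ≤ ENNReal.ofReal K := by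
    refine (enorm_integral_le_lintegral_enorm _).trans (le_trans (le_of_eq ?_) h2)
    refine lintegral_congr fun y => ?_
    rw [Real.enorm_eq_ofReal_abs, abs_mul]
  rw [Real.enorm_eq_ofReal_abs] at h3
  exact (ENNReal.ofReal_le_ofReal_iff hK0).1 h3

theorem Tn_A_of {n : ℕ} (hn : 1 ≤ n) {f : ℝ → ℝ} (hfi : Integrable f mu) {K : ℝ} (hK0 : 0 ≤ K)
    (hK : ∀ d D : ℕ → ℝ, (∀ J, 0 ≤ D J) →
      (∀ J < 8 ^ (2 * n ^ 6),
        ∑ i ∈ Finset.range (8 ^ (n ^ 6)), d (J * 8 ^ (n ^ 6) + i) ^ 2 ≤ D J ^ 2) →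
      ∑ J ∈ Finset.range (8 ^ (2 * n ^ 6)), D J ^ 3 ≤ 1 →
      ∫⁻ y, ENNReal.ofReal (|f y| * |Vfn n d y|) ∂mu ≤ ENNReal.ofReal K) :
    A (Tn n f) ≤ ENNReal.ofReal (200 * K ^ 3) := by
  refine (image_A hn (fun j => coef n j f) (wt n (fun j => coef n j f)) (wt_nonneg _ _)
    (fun J _ => (wt_pow n (fun j => coef n j f) J).le)).trans (ENNReal.ofReal_le_ofReal ?_)
  have := wt_bound hn hfi hK0 hK
  linarith

theorem V_meas (n : ℕ) (d : ℕ → ℝ) : Measurable (Vfn n d) := (step_Vfn n d).measurable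

theorem hK_one {n : ℕ} (hn : 1 ≤ n) {f : ℝ → ℝ} (hf : Measurable f) (hA : A f ≤ 1) :
    ∀ d D : ℕ → ℝ, (∀ J, 0 ≤ D J) →
      (∀ J < 8 ^ (2 * n ^ 6),
        ∑ i ∈ Finset.range (8 ^ (n ^ 6)), d (J * 8 ^ (n ^ 6) + i) ^ 2 ≤ D J ^ 2) →
      ∑ J ∈ Finset.range (8 ^ (2 * n ^ 6)), D J ^ 3 ≤ 1 →
      ∫⁻ y, ENNReal.ofReal (|f y| * |Vfn n d y|) ∂mu ≤ ENNReal.ofReal 60000 :=
  fun d D hD hd hsum => domain_abs hn hf (V_meas n d) (V_tail hn d D hD hd hsum)
    (V_max hn d D hD hd hsum) hA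

theorem A_int_of_le {f : ℝ → ℝ} (hf : Measurable f) (hA : A f ≤ 1) : Integrable f mu :=
  A_integrable hf (ne_top_of_le_ne_top ENNReal.one_ne_top hA)

theorem Tn_A {n : ℕ} (hn : 1 ≤ n) {f : ℝ → ℝ} (hf : Measurable f) (hA : A f ≤ 1) :
    A (Tn n f) ≤ ENNReal.ofReal (200 * 60000 ^ 3) :=
  Tn_A_of hn (A_int_of_le hf hA) (by norm_num) (hK_one hn hf hA)

theorem Tn_weak {n : ℕ} (hn : 1 ≤ n) {f : ℝ → ℝ} (hf : Measurable f) (hA : A f ≤ 1) {l : ℝ}
    (hl : 0 < l) :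
    mu.real {y | l < |Tn n f y|} ≤ 150000000 / (n:ℝ) ^ 3 * (1 + 1 / l ^ 2) := by
  have h1 := image_weak hn (fun j => coef n j f) (wt n (fun j => coef n j f)) (wt_nonneg _ _)
    (fun J _ => (wt_pow n (fun j => coef n j f) J).le) hl
  have h2 := wt_bound hn (A_int_of_le hf hA) (by norm_num) (hK_one hn hf hA)
  set S := ∑ J ∈ Finset.range (8 ^ (2 * n ^ 6)), (wt n (fun j => coef n j f) J) ^ 3 with hS
  have hS0 : 0 ≤ S := Finset.sum_nonneg fun J _ => pow_nonneg (wt_nonneg _ _ _) 3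
  have hS1 : S ≤ 15000000 := by
    by_contra hcon
    push Not at hcon
    nlinarith
  have hn' : (0:ℝ) < (n:ℝ) ^ 3 := by positivity
  have hsq : 0 < Real.sqrt l := Real.sqrt_pos.2 hl
  have hsqq : Real.sqrt l * Real.sqrt l = l := Real.mul_self_sqrt hl.le
  have hkey : 1 / (l * Real.sqrt l) ≤ 1 + 1 / l ^ 2 := by
    rw [div_le_iff₀ (by positivity)]
    have e : (1 + 1 / l ^ 2) * (l * Real.sqrt l) = l * Real.sqrt l + Real.sqrt l / l := by
      field_simp
    rw [e]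
    by_cases h : 1 ≤ l
    · have : 1 ≤ Real.sqrt l := by
        rw [show (1:ℝ) = Real.sqrt 1 by simp]
        exact Real.sqrt_le_sqrt h
      have h2 : 0 ≤ Real.sqrt l / l := by positivity
      nlinarith
    · push Not at h
      have h3 : Real.sqrt l ≤ 1 := by
        rw [show (1:ℝ) = Real.sqrt 1 by simp]
        exact Real.sqrt_le_sqrt h.le
      have h4 : 1 ≤ Real.sqrt l / l := by
        rw [le_div_iff₀ hl]
        nlinarith
      have h5 : 0 ≤ l * Real.sqrt l := by positivity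
      linarith
  calc mu.real {y | l < |Tn n f y|} ≤ 10 * S / ((n:ℝ) ^ 3 * (l * Real.sqrt l)) := h1
    _ = (10 * S) / (n:ℝ) ^ 3 * (1 / (l * Real.sqrt l)) := by field_simp
    _ ≤ 150000000 / (n:ℝ) ^ 3 * (1 + 1 / l ^ 2) := by
      apply mul_le_mul _ hkey (by positivity) (by positivity)
      gcongr
      linarith

theorem Tn_edge {n : ℕ} (hn : 1 ≤ n) {f : ℝ → ℝ} (hf : Measurable f) (hA : A f ≤ 1) {H0 H1 : ℝ}
    (h0 : 0 ≤ H0) (h1 : 0 < H1) (hfH : ∀ y, |f y| ≤ H0 ∨ H1 < |f y|) :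
    A (Tn n f) ≤ ENNReal.ofReal
      (200 * (5001 * H0 / (n:ℝ) ^ 4 + 6 * 64 ^ (n ^ 6) / Real.sqrt H1) ^ 3) := by
  refine Tn_A_of hn (A_int_of_le hf hA) (by positivity) fun d D hD hd hsum => ?_
  have hV := V_meas n d
  set f1 : ℝ → ℝ := fun y => if |f y| ≤ H0 then f y else 0 with hf1
  set f3 : ℝ → ℝ := fun y => if H1 < |f y| then f y else 0 with hf3
  have hm1 : Measurable f1 := Measurable.ite (measurableSet_le hf.abs measurable_const) hf
    measurable_const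
  have hm3 : Measurable f3 := Measurable.ite (measurableSet_lt measurable_const hf.abs) hf
    measurable_const
  have hA3 : A f3 ≤ 1 := by
    refine (A_mono (Eventually.of_forall fun y => ?_)).trans hA
    simp only [hf3]
    split_ifs
    · exact le_rfl
    · simp
  have b1 := domain_flat hn hm1 hV (V_tail hn d D hD hd hsum) (H := H0) (fun y => by
    simp only [hf1]
    split_ifs with h
    · exact h
    · simpa using h0)
  have b3 := domain_high (n := n) hm3 hV (V_max hn d D hD hd hsum) hA3 h1 (fun y => by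
    simp only [hf3]
    split_ifs with h
    · exact Or.inr h
    · exact Or.inl rfl)
  rw [ENNReal.ofReal_add (by positivity) (by positivity)]
  refine le_trans ?_ (add_le_add b1 b3)
  have hmm : Measurable (fun y => ENNReal.ofReal (|f1 y| * |Vfn n d y|)) :=
    (hm1.abs.mul hV.abs).ennreal_ofReal
  rw [← lintegral_add_left hmm]
  refine lintegral_mono fun y => ?_
  rw [← ENNReal.ofReal_add (by positivity) (by positivity)]
  apply ENNReal.ofReal_le_ofReal
  simp only [hf1, hf3]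
  have hVn : 0 ≤ |Vfn n d y| := abs_nonneg _
  rcases hfH y with h | h
  · rw [if_pos h]
    split_ifs <;> simp
    positivity
  · rw [if_pos h]
    split_ifs <;> simp
    positivity

theorem Tn_sup {n : ℕ} (hn : 1 ≤ n) {f : ℝ → ℝ} (hf : Measurable f) (hA : A f ≤ 1) (y : ℝ) :
    |Tn n f y| ≤ 3 * 8 ^ (5 * n ^ 6) := by
  have h := hfn_le hn (fun j => coef n j f) (K := 3 * 8 ^ (n ^ 6)) (fun j => ?_) y
  · refine h.trans (le_of_eq ?_)
    rw [show 5 * n ^ 6 = 4 * n ^ 6 + n ^ 6 by ring, pow_add]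
    ring
  · have hfi := A_int_of_le hf hA
    have h1 : ‖coef n j f‖ₑ ≤ ENNReal.ofReal (3 * 8 ^ (n ^ 6)) := by
      unfold coef
      refine (enorm_integral_le_lintegral_enorm _).trans ?_
      calc ∫⁻ y, ‖f y * vfn n j y * rad (3 * n ^ 6 + j + 1) y‖ₑ ∂mu
          ≤ ∫⁻ y, ENNReal.ofReal (8 ^ (n ^ 6)) * ENNReal.ofReal |f y| ∂mu := by
            refine lintegral_mono fun y => ?_
            rw [Real.enorm_eq_ofReal_abs, ← ENNReal.ofReal_mul (by positivity), abs_mul, abs_mul,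
              abs_rad, mul_one, abs_of_nonneg (vfn_nonneg n j y), mul_comm]
            exact ENNReal.ofReal_le_ofReal
              (mul_le_mul_of_nonneg_right (vfn_le n j hn y) (abs_nonneg _))
        _ = ENNReal.ofReal (8 ^ (n ^ 6)) * ∫⁻ y, ENNReal.ofReal |f y| ∂mu :=
            lintegral_const_mul _ hf.abs.ennreal_ofReal
        _ ≤ ENNReal.ofReal (8 ^ (n ^ 6)) * 3 := by
            gcongr
            exact l1_bound hf hA
        _ = ENNReal.ofReal (3 * 8 ^ (n ^ 6)) := by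
            rw [mul_comm, ENNReal.ofReal_mul (by norm_num)]
            norm_num
    rw [Real.enorm_eq_ofReal_abs] at h1
    exact (ENNReal.ofReal_le_ofReal_iff (by positivity)).1 h1

theorem coef_smul (n j : ℕ) (c : ℝ) (f : ℝ → ℝ) : coef n j (fun y => c * f y) = c * coef n j f := by
  unfold coef
  rw [← integral_const_mul]
  exact integral_congr_ae (Eventually.of_forall fun y => by simp only; ring)

theorem coef_add {n : ℕ} (hn : 1 ≤ n) (j : ℕ) {f g : ℝ → ℝ} (hf : Integrable f mu)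
    (hg : Integrable g mu) : coef n j (fun y => f y + g y) = coef n j f + coef n j g := by
  unfold coef
  rw [← integral_add (coef_integrable hn hf) (coef_integrable hn hg)]
  exact integral_congr_ae (Eventually.of_forall fun y => by simp only; ring)

theorem coef_congr (n j : ℕ) {f g : ℝ → ℝ} (h : f =ᵐ[mu] g) : coef n j f = coef n j g := by
  unfold coef
  refine integral_congr_ae ?_
  filter_upwards [h] with y hy
  rw [hy]

theorem Tn_smul (n : ℕ) (c : ℝ) (f : ℝ → ℝ) : Tn n (fun y => c * f y) = fun y => c * Tn n f y := by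
  funext y
  unfold Tn hfn
  rw [Finset.mul_sum]
  refine Finset.sum_congr rfl fun j _ => ?_
  simp only [coef_smul]
  ring

theorem Tn_add {n : ℕ} (hn : 1 ≤ n) {f g : ℝ → ℝ} (hf : Integrable f mu) (hg : Integrable g mu)
    (y : ℝ) : Tn n (fun y => f y + g y) y = Tn n f y + Tn n g y := by
  unfold Tn hfn
  rw [← Finset.sum_add_distrib]
  refine Finset.sum_congr rfl fun j _ => ?_
  simp only [coef_add hn j hf hg]
  ring

theorem Tn_congr (n : ℕ) {f g : ℝ → ℝ} (h : f =ᵐ[mu] g) : Tn n f = Tn n g := by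
  funext y
  unfold Tn hfn
  refine Finset.sum_congr rfl fun j _ => ?_
  simp only [coef_congr n j h]

theorem Tn_meas (n : ℕ) (f : ℝ → ℝ) : Measurable (Tn n f) := measurable_hfn n _

theorem Tn_A' {n : ℕ} (hn : 1 ≤ n) {f : ℝ → ℝ} (hf : Measurable f) (hfin : A f ≠ ∞) :
    A (Tn n f) ≤ ENNReal.ofReal (200 * 60000 ^ 3) * A f :=
  A_scaling ENNReal.ofReal_ne_top (Tn_smul n) (fun _ hg hA => Tn_A hn hg hA) hf hfin

end Pool.Agent.Helper401.OB
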