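import Pool.Agent.Helper401.OB.Moments
import Pool.Agent.Helper401.OB.Defs

set_option autoImplicit false

open MeasureTheory Set Filter Topology
open scoped ENNReal NNReal

namespace Pool.Agent.Helper401.OB


/-! ### helper lemmas -/

/-- truncated absolute value -/
noncomputable def hxt (t v : ℝ) : ℝ := if t < |v| then |v| else 0

noncomputable def wf (B p q j : ℕ) (y : ℝ) : ℝ :=
  ∑ m ∈ Finset.Ico p q, 2 ^ m * ind m (j / 8 ^ (B - m)) y

noncomputable def Sf (B p q : ℕ) (g : ℕ → ℝ) (y : ℝ) : ℝ :=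
  ∑ j ∈ Finset.range (8 ^ B), (g j * wf B p q j y) * rad (B + j + 1) y

noncomputable def nuf (B m : ℕ) (g : ℕ → ℝ) (y : ℝ) : ℝ :=
  ∑ j ∈ Finset.range (8 ^ B), g j ^ 2 * ind m (j / 8 ^ (B - m)) y

theorem hxt_nonneg (t v : ℝ) : 0 ≤ hxt t v := by
  unfold hxt; split_ifs
  · exact abs_nonneg v
  · exact le_rfl

theorem hxt_zero {t : ℝ} (ht : 0 < t) : hxt t 0 = 0 := by
  unfold hxt
  rw [abs_zero, if_neg (by linarith)]

theorem hxt_split {t : ℝ} (ht : 0 < t) (lo hi : ℝ) :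
    hxt t (lo + hi) ≤ 4 / t * hi ^ 2 + 16 / t ^ 3 * lo ^ 4 := by
  have n1 : 0 ≤ 4 / t * hi ^ 2 := by positivity
  have n2 : 0 ≤ 16 / t ^ 3 * lo ^ 4 := by positivity
  unfold hxt
  split_ifs with h
  · set v := |lo + hi| with hv
    have hv0 : 0 < v := by linarith
    rcases le_total (v / 2) |hi| with h1 | h1
    · have h2 : v ≤ v ^ 2 / t := by
        rw [le_div_iff₀ ht]; nlinarith
      have h3 : v ^ 2 ≤ 4 * hi ^ 2 := by
        rw [← sq_abs hi]; nlinarith
      have h4 : v ^ 2 / t ≤ 4 / t * hi ^ 2 := by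
        rw [div_mul_eq_mul_div]
        exact div_le_div_of_nonneg_right h3 ht.le
      linarith
    · have h1' : v / 2 ≤ |lo| := by
        have := abs_add_le lo hi
        linarith
      have h2 : v ≤ v ^ 4 / t ^ 3 := by
        rw [le_div_iff₀ (by positivity)]
        have : t ^ 3 ≤ v ^ 3 := pow_le_pow_left₀ ht.le h.le 3
        calc v * t ^ 3 ≤ v * v ^ 3 := mul_le_mul_of_nonneg_left this hv0.le
          _ = v ^ 4 := by ring
      have h3 : v ^ 4 ≤ 16 * lo ^ 4 := by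
        have : (v / 2) ^ 4 ≤ |lo| ^ 4 := pow_le_pow_left₀ (by positivity) h1' 4
        have h5 : |lo| ^ 4 = lo ^ 4 := by
          rw [show (4:ℕ) = 2 * 2 by norm_num, pow_mul, pow_mul, sq_abs]
        rw [h5] at this
        have h6 : (v / 2) ^ 4 = v ^ 4 / 16 := by ring
        rw [h6] at this
        linarith
      have h4 : v ^ 4 / t ^ 3 ≤ 16 / t ^ 3 * lo ^ 4 := by
        rw [div_mul_eq_mul_div]
        exact div_le_div_of_nonneg_right h3 (by positivity)
      linarith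
  · linarith

theorem step_wf {B p q : ℕ} (hq : q ≤ B) (j : ℕ) : Step B (wf B p q j) := by
  apply step_sum
  intro m hm
  have hm' := (Finset.mem_Ico.mp hm).2
  exact (step_const B ((2:ℝ)^m)).mul ((step_ind m _).mono (by omega))

theorem step_Sf {B p q : ℕ} (hq : q ≤ B) (g : ℕ → ℝ) : Step (B + 8 ^ B + 1) (Sf B p q g) := by
  apply step_sum
  intro j hj
  have hj' := Finset.mem_range.mp hj
  exact ((step_const _ (g j)).mul ((step_wf hq j).mono (by omega))).mul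
    ((step_rad (B + j + 1)).mono (by omega))

theorem step_nuf {B m : ℕ} (hm : m ≤ B) (g : ℕ → ℝ) : Step B (nuf B m g) := by
  apply step_sum
  intro j _
  exact (step_const _ (g j ^ 2)).mul ((step_ind m _).mono hm)

theorem wf_nonneg (B p q j : ℕ) (y : ℝ) : 0 ≤ wf B p q j y :=
  Finset.sum_nonneg fun m _ => mul_nonneg (by positivity) (ind_nonneg _ _ _)

theorem wf_le (B p q j : ℕ) (hpq : p ≤ q) (y : ℝ) : wf B p q j y ≤ 2 ^ q := by
  induction q, hpq using Nat.le_induction with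
  | base => simp [wf]
  | succ q hq ih =>
    unfold wf at ih ⊢
    rw [Finset.sum_Ico_succ_top hq]
    have h1 : (2:ℝ) ^ q * ind q (j / 8 ^ (B - q)) y ≤ 2 ^ q :=
      mul_le_of_le_one_right (by positivity) (ind_le_one _ _ _)
    calc _ ≤ (2:ℝ) ^ q + 2 ^ q := add_le_add ih h1
      _ = 2 ^ (q + 1) := by ring

theorem wf_sq_le (B p q j : ℕ) (hpq : p ≤ q) (y : ℝ) :
    wf B p q j y ^ 2 ≤ 4 * ∑ m ∈ Finset.Ico p q, 4 ^ m * ind m (j / 8 ^ (B - m)) y := by
  induction q, hpq using Nat.le_induction with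
  | base => simp [wf]
  | succ q hq ih =>
    have hle := wf_le B p q j hq y
    have h0 := wf_nonneg B p q j y
    have hT : 0 ≤ ∑ m ∈ Finset.Ico p q, (4:ℝ) ^ m * ind m (j / 8 ^ (B - m)) y :=
      Finset.sum_nonneg fun m _ => mul_nonneg (by positivity) (ind_nonneg _ _ _)
    have hw : wf B p (q + 1) j y = wf B p q j y + 2 ^ q * ind q (j / 8 ^ (B - q)) y := by
      unfold wf
      rw [Finset.sum_Ico_succ_top hq]
    rw [hw, Finset.sum_Ico_succ_top hq]
    have hi : ind q (j / 8 ^ (B - q)) y = 0 ∨ ind q (j / 8 ^ (B - q)) y = 1 := by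
      unfold ind; split_ifs
      · right; rfl
      · left; rfl
    rcases hi with hi | hi
    · rw [hi, mul_zero, mul_zero, add_zero, add_zero]
      exact ih
    · rw [hi, mul_one, mul_one]
      have h4 : (4:ℝ) ^ q = (2 ^ q) ^ 2 := by
        rw [← pow_mul, mul_comm, pow_mul]; norm_num
      have h2 : (0:ℝ) < 2 ^ q := by positivity
      rw [h4]
      nlinarith

theorem geom_half {p q : ℕ} (hpq : p ≤ q) :
    ∑ m ∈ Finset.Ico p q, ((1:ℝ)/2) ^ m = 2 * (1/2) ^ p - 2 * (1/2) ^ q := by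
  induction q, hpq using Nat.le_induction with
  | base => simp
  | succ q hq ih =>
    rw [Finset.sum_Ico_succ_top hq, ih]
    ring

theorem geom_two {p q : ℕ} (hpq : p ≤ q) :
    ∑ m ∈ Finset.Ico p q, (2:ℝ) ^ m = 2 ^ q - 2 ^ p := by
  induction q, hpq using Nat.le_induction with
  | base => simp
  | succ q hq ih =>
    rw [Finset.sum_Ico_succ_top hq, ih]
    ring

theorem nuf_nonneg (B m : ℕ) (g : ℕ → ℝ) (y : ℝ) : 0 ≤ nuf B m g y :=
  Finset.sum_nonneg fun _ _ => mul_nonneg (sq_nonneg _) (ind_nonneg _ _ _)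

theorem nuf_le (B m : ℕ) (g : ℕ → ℝ) (y : ℝ) :
    nuf B m g y ≤ ∑ j ∈ Finset.range (8 ^ B), g j ^ 2 :=
  Finset.sum_le_sum fun _ _ => mul_le_of_le_one_right (sq_nonneg _) (ind_le_one _ _ _)

theorem integral_nuf {B m : ℕ} (hm : m ≤ B) (g : ℕ → ℝ) :
    ∫ y, nuf B m g y ∂mu = (∑ j ∈ Finset.range (8 ^ B), g j ^ 2) * ((8:ℝ) ^ m)⁻¹ := by
  unfold nuf
  rw [integral_finsetSum _ (fun j _ => (step_ind m _).integrable.const_mul _), Finset.sum_mul]
  apply Finset.sum_congr rfl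
  intro j hj
  rw [integral_const_mul, integral_ind]
  apply Nat.div_lt_of_lt_mul
  rw [← pow_add, Nat.sub_add_cancel hm]
  exact Finset.mem_range.mp hj

/-- pointwise bound for the sum of squares of the coefficients -/
theorem sum_sq_le (B p q : ℕ) (hpq : p ≤ q) (g : ℕ → ℝ) (y : ℝ) :
    ∑ j ∈ Finset.range (8 ^ B), (g j * wf B p q j y) ^ 2 ≤
      4 * ∑ m ∈ Finset.Ico p q, 4 ^ m * nuf B m g y := by
  calc ∑ j ∈ Finset.range (8 ^ B), (g j * wf B p q j y) ^ 2
      ≤ ∑ j ∈ Finset.range (8 ^ B), ∑ m ∈ Finset.Ico p q,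
          4 * (4 ^ m * (g j ^ 2 * ind m (j / 8 ^ (B - m)) y)) := by
        apply Finset.sum_le_sum
        intro j _
        rw [mul_pow]
        calc g j ^ 2 * wf B p q j y ^ 2
            ≤ g j ^ 2 * (4 * ∑ m ∈ Finset.Ico p q, 4 ^ m * ind m (j / 8 ^ (B - m)) y) :=
              mul_le_mul_of_nonneg_left (wf_sq_le B p q j hpq y) (sq_nonneg _)
          _ = _ := by
              rw [Finset.mul_sum, Finset.mul_sum]
              apply Finset.sum_congr rfl
              intro m _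
              ring
    _ = _ := by
        rw [Finset.sum_comm, Finset.mul_sum]
        apply Finset.sum_congr rfl
        intro m _
        unfold nuf
        rw [Finset.mul_sum, Finset.mul_sum]

theorem L2_bound {B p q : ℕ} (hpq : p ≤ q) (hq : q ≤ B) (g : ℕ → ℝ) (E : ℝ)
    (hE : ∑ j ∈ Finset.range (8 ^ B), g j ^ 2 ≤ E) :
    ∫ y, Sf B p q g y ^ 2 ∂mu ≤ 8 * E * (1/2) ^ p := by
  have hE0 : 0 ≤ E := (Finset.sum_nonneg fun _ _ => sq_nonneg _).trans hE
  have h1 := second_moment (b := B) (m := 8 ^ B) (a := fun j y => g j * wf B p q j y)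
    (φ := fun _ => 1) (fun j _ => (step_const B (g j)).mul (step_wf hq j)) (step_const B 1)
  simp only [one_mul] at h1
  have h2 : ∫ y, Sf B p q g y ^ 2 ∂mu =
      ∫ y, ∑ j ∈ Finset.range (8 ^ B), (g j * wf B p q j y) ^ 2 ∂mu := h1
  rw [h2]
  have st1 : Step B (fun y => ∑ j ∈ Finset.range (8 ^ B), (g j * wf B p q j y) ^ 2) :=
    step_sum _ fun j _ => ((step_const B (g j)).mul (step_wf hq j)).comp (fun x => x ^ 2)
  calc ∫ y, ∑ j ∈ Finset.range (8 ^ B), (g j * wf B p q j y) ^ 2 ∂mu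
      ≤ ∫ y, ∑ m ∈ Finset.Ico p q, 4 * 4 ^ m * nuf B m g y ∂mu := by
        apply integral_mono st1.integrable
        · apply integrable_finsetSum
          intro m hm
          have := (Finset.mem_Ico.mp hm).2
          exact (step_nuf (by omega) g).integrable.const_mul _
        · intro y
          refine (sum_sq_le B p q hpq g y).trans_eq ?_
          rw [Finset.mul_sum]
          apply Finset.sum_congr rfl
          intro m _
          ring
    _ = ∑ m ∈ Finset.Ico p q, 4 * 4 ^ m * ((∑ j ∈ Finset.range (8 ^ B), g j ^ 2) * ((8:ℝ) ^ m)⁻¹) := by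
        rw [integral_finsetSum]
        · apply Finset.sum_congr rfl
          intro m hm
          have := (Finset.mem_Ico.mp hm).2
          rw [integral_const_mul, integral_nuf (by omega)]
        · intro m hm
          have := (Finset.mem_Ico.mp hm).2
          exact (step_nuf (by omega) g).integrable.const_mul _
    _ ≤ ∑ m ∈ Finset.Ico p q, 4 * E * (1/2) ^ m := by
        apply Finset.sum_le_sum
        intro m _
        have h3 : (4:ℝ) ^ m * ((8:ℝ) ^ m)⁻¹ = (1/2) ^ m := by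
          rw [← inv_pow, ← mul_pow]; norm_num
        calc 4 * 4 ^ m * ((∑ j ∈ Finset.range (8 ^ B), g j ^ 2) * ((8:ℝ) ^ m)⁻¹)
            = 4 * (∑ j ∈ Finset.range (8 ^ B), g j ^ 2) * ((4:ℝ) ^ m * ((8:ℝ) ^ m)⁻¹) := by ring
          _ ≤ 4 * E * (1/2) ^ m := by
              rw [h3]
              apply mul_le_mul_of_nonneg_right _ (by positivity)
              linarith
    _ = 4 * E * (2 * (1/2) ^ p - 2 * (1/2) ^ q) := by
        rw [← Finset.mul_sum, geom_half hpq]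
    _ ≤ 8 * E * (1/2) ^ p := by
        have : (0:ℝ) ≤ (1/2) ^ q := by positivity
        nlinarith [mul_nonneg hE0 this]

/-- pointwise square bound -/
theorem sq_nuf_le (B p q : ℕ) (hpq : p ≤ q) (g : ℕ → ℝ) (E : ℝ)
    (hE : ∑ j ∈ Finset.range (8 ^ B), g j ^ 2 ≤ E) (y : ℝ) :
    (∑ m ∈ Finset.Ico p q, 4 ^ m * nuf B m g y) ^ 2 ≤
      5 / 3 * E * ∑ m ∈ Finset.Ico p q, 16 ^ m * nuf B m g y := by
  have hE0 : 0 ≤ E := (Finset.sum_nonneg fun _ _ => sq_nonneg _).trans hE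
  have hnu : ∀ m, nuf B m g y ≤ E := fun m => (nuf_le B m g y).trans hE
  have hS : ∀ q, p ≤ q → ∑ m ∈ Finset.Ico p q, 4 ^ m * nuf B m g y ≤ 4 ^ q / 3 * E := by
    intro q hq
    induction q, hq using Nat.le_induction with
    | base => simp; positivity
    | succ q hq ih =>
      rw [Finset.sum_Ico_succ_top hq]
      have h4 : (0:ℝ) < 4 ^ q := by positivity
      calc _ ≤ 4 ^ q / 3 * E + 4 ^ q * E :=
            add_le_add ih (mul_le_mul_of_nonneg_left (hnu q) h4.le)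
        _ = 4 ^ (q + 1) / 3 * E := by ring
  induction q, hpq using Nat.le_induction with
  | base => simp
  | succ q hq ih =>
    rw [Finset.sum_Ico_succ_top hq, Finset.sum_Ico_succ_top hq]
    set S := ∑ m ∈ Finset.Ico p q, 4 ^ m * nuf B m g y with hSdef
    set T := ∑ m ∈ Finset.Ico p q, 16 ^ m * nuf B m g y
    have h1 := hS q hq
    have h2 := hnu q
    have h3 := nuf_nonneg B q g y
    have h4 : (0:ℝ) < 4 ^ q := by positivity
    have h16 : (16:ℝ) ^ q = (4 ^ q) ^ 2 := by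
      rw [← pow_mul, mul_comm, pow_mul]; norm_num
    rw [h16]
    have h5 : 2 * S + 4 ^ q * nuf B q g y ≤ 5 / 3 * 4 ^ q * E := by
      have := mul_le_mul_of_nonneg_left h2 h4.le
      linarith
    have h6 : (4 ^ q * nuf B q g y) * (2 * S + 4 ^ q * nuf B q g y) ≤
        (4 ^ q * nuf B q g y) * (5 / 3 * 4 ^ q * E) :=
      mul_le_mul_of_nonneg_left h5 (by positivity)
    calc (S + 4 ^ q * nuf B q g y) ^ 2
        = S ^ 2 + (4 ^ q * nuf B q g y) * (2 * S + 4 ^ q * nuf B q g y) := by ring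
      _ ≤ 5 / 3 * E * T + (4 ^ q * nuf B q g y) * (5 / 3 * 4 ^ q * E) := add_le_add ih h6
      _ = _ := by ring

theorem L4_bound {B p q : ℕ} (hpq : p ≤ q) (hq : q ≤ B) (g : ℕ → ℝ) (E : ℝ)
    (hE : ∑ j ∈ Finset.range (8 ^ B), g j ^ 2 ≤ E) :
    ∫ y, Sf B p q g y ^ 4 ∂mu ≤ 80 * E ^ 2 * 2 ^ q := by
  have hE0 : 0 ≤ E := (Finset.sum_nonneg fun _ _ => sq_nonneg _).trans hE
  have h1 := fourth_moment (b := B) (m := 8 ^ B) (a := fun j y => g j * wf B p q j y)
    (fun j _ => (step_const B (g j)).mul (step_wf hq j))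
  have st1 : Step B (fun y => ∑ j ∈ Finset.range (8 ^ B), (g j * wf B p q j y) ^ 2) :=
    step_sum _ fun j _ => ((step_const B (g j)).mul (step_wf hq j)).comp (fun x => x ^ 2)
  have h2 : ∫ y, (∑ j ∈ Finset.range (8 ^ B), (g j * wf B p q j y) ^ 2) ^ 2 ∂mu ≤
      80 / 3 * E ^ 2 * 2 ^ q := by
    calc ∫ y, (∑ j ∈ Finset.range (8 ^ B), (g j * wf B p q j y) ^ 2) ^ 2 ∂mu
        ≤ ∫ y, ∑ m ∈ Finset.Ico p q, 80 / 3 * E * 16 ^ m * nuf B m g y ∂mu := by
          apply integral_mono (st1.comp (fun x => x ^ 2)).integrable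
          · apply integrable_finsetSum
            intro m hm
            have := (Finset.mem_Ico.mp hm).2
            exact (step_nuf (by omega) g).integrable.const_mul _
          · intro y
            have h3 := sum_sq_le B p q hpq g y
            have h4 := sq_nuf_le B p q hpq g E hE y
            have h5 : 0 ≤ ∑ j ∈ Finset.range (8 ^ B), (g j * wf B p q j y) ^ 2 :=
              Finset.sum_nonneg fun _ _ => sq_nonneg _
            calc (∑ j ∈ Finset.range (8 ^ B), (g j * wf B p q j y) ^ 2) ^ 2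
                ≤ (4 * ∑ m ∈ Finset.Ico p q, 4 ^ m * nuf B m g y) ^ 2 :=
                  pow_le_pow_left₀ h5 h3 2
              _ = 16 * (∑ m ∈ Finset.Ico p q, 4 ^ m * nuf B m g y) ^ 2 := by ring
              _ ≤ 16 * (5 / 3 * E * ∑ m ∈ Finset.Ico p q, 16 ^ m * nuf B m g y) := by
                  linarith
              _ = ∑ m ∈ Finset.Ico p q, 80 / 3 * E * 16 ^ m * nuf B m g y := by
                  rw [Finset.mul_sum, Finset.mul_sum]
                  apply Finset.sum_congr rfl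
                  intro m _
                  ring
      _ = ∑ m ∈ Finset.Ico p q,
            80 / 3 * E * 16 ^ m * ((∑ j ∈ Finset.range (8 ^ B), g j ^ 2) * ((8:ℝ) ^ m)⁻¹) := by
          rw [integral_finsetSum]
          · apply Finset.sum_congr rfl
            intro m hm
            have := (Finset.mem_Ico.mp hm).2
            rw [integral_const_mul, integral_nuf (by omega)]
          · intro m hm
            have := (Finset.mem_Ico.mp hm).2
            exact (step_nuf (by omega) g).integrable.const_mul _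
      _ ≤ ∑ m ∈ Finset.Ico p q, 80 / 3 * E ^ 2 * 2 ^ m := by
          apply Finset.sum_le_sum
          intro m _
          have h3 : (16:ℝ) ^ m * ((8:ℝ) ^ m)⁻¹ = 2 ^ m := by
            rw [← inv_pow, ← mul_pow]; norm_num
          calc 80 / 3 * E * 16 ^ m * ((∑ j ∈ Finset.range (8 ^ B), g j ^ 2) * ((8:ℝ) ^ m)⁻¹)
              = 80 / 3 * E * (∑ j ∈ Finset.range (8 ^ B), g j ^ 2) *
                  ((16:ℝ) ^ m * ((8:ℝ) ^ m)⁻¹) := by ring
            _ ≤ 80 / 3 * E ^ 2 * 2 ^ m := by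
                rw [h3]
                apply mul_le_mul_of_nonneg_right _ (by positivity)
                have := mul_le_mul_of_nonneg_left hE hE0
                nlinarith
      _ = 80 / 3 * E ^ 2 * (2 ^ q - 2 ^ p) := by
          rw [← Finset.mul_sum, geom_two hpq]
      _ ≤ 80 / 3 * E ^ 2 * 2 ^ q := by
          have : (0:ℝ) ≤ 2 ^ p := by positivity
          nlinarith [mul_nonneg (sq_nonneg E) this]
  have h3 : ∫ y, Sf B p q g y ^ 4 ∂mu ≤
      3 * ∫ y, (∑ j ∈ Finset.range (8 ^ B), (g j * wf B p q j y) ^ 2) ^ 2 ∂mu := h1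
  linarith

theorem wf_split {B p c q : ℕ} (hpc : p ≤ c) (hcq : c ≤ q) (j : ℕ) (y : ℝ) :
    wf B p q j y = wf B p c j y + wf B c q j y := by
  unfold wf
  rw [Finset.sum_Ico_consecutive _ hpc hcq]

theorem Sf_split {B p c q : ℕ} (hpc : p ≤ c) (hcq : c ≤ q) (g : ℕ → ℝ) (y : ℝ) :
    Sf B p q g y = Sf B p c g y + Sf B c q g y := by
  unfold Sf
  rw [← Finset.sum_add_distrib]
  apply Finset.sum_congr rfl
  intro j _
  rw [wf_split hpc hcq]
  ring

theorem Sf_self (B p : ℕ) (g : ℕ → ℝ) (y : ℝ) : Sf B p p g y = 0 := by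
  unfold Sf wf
  simp

theorem tail_cut {B p c q : ℕ} (hpc : p ≤ c) (hcq : c ≤ q) (hq : q ≤ B) (g : ℕ → ℝ) (t : ℝ)
    (ht : 0 < t) :
    ∫ y, hxt t (Sf B p q g y) ∂mu ≤
      4 / t * ∫ y, Sf B c q g y ^ 2 ∂mu + 16 / t ^ 3 * ∫ y, Sf B p c g y ^ 4 ∂mu := by
  have s1 := ((step_Sf (p := p) hq g).comp (fun v => hxt t v)).integrable
  have s2 : Integrable (fun y => 4 / t * Sf B c q g y ^ 2) mu :=
    ((step_Sf (p := c) hq g).comp (fun v => v ^ 2)).integrable.const_mul _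
  have s3 : Integrable (fun y => 16 / t ^ 3 * Sf B p c g y ^ 4) mu :=
    ((step_Sf (p := p) (hcq.trans hq) g).comp (fun v => v ^ 4)).integrable.const_mul _
  rw [← integral_const_mul, ← integral_const_mul, ← integral_add s2 s3]
  apply integral_mono s1 (s2.add s3)
  intro y
  show hxt t (Sf B p q g y) ≤ 4 / t * Sf B c q g y ^ 2 + 16 / t ^ 3 * Sf B p c g y ^ 4
  rw [Sf_split hpc hcq]
  exact hxt_split ht _ _

theorem exists_cut {p q : ℕ} (e t : ℝ) (h1 : e * 2 ^ p ≤ t) (h2 : t < e * 2 ^ q) (hpq : p ≤ q) :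
    ∃ c, p ≤ c ∧ c < q ∧ e * 2 ^ c ≤ t ∧ t < e * 2 ^ (c + 1) := by
  induction q, hpq using Nat.le_induction with
  | base => exact absurd h2 (not_lt.mpr h1)
  | succ q hq ih =>
    rcases lt_or_ge t (e * 2 ^ q) with h | h
    · obtain ⟨c, c1, c2, c3, c4⟩ := ih h
      exact ⟨c, c1, by omega, c3, c4⟩
    · exact ⟨q, hq, by omega, h, h2⟩

theorem tail_block {B p q : ℕ} (hpq : p ≤ q) (hq : q ≤ B) (g : ℕ → ℝ) (e : ℝ) (he : 0 ≤ e)
    (hE : ∑ j ∈ Finset.range (8 ^ B), g j ^ 2 ≤ e ^ 2) (t : ℝ) (ht : 0 < t) :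
    ∫ y, hxt t (Sf B p q g y) ∂mu ≤ 5000 * e ^ 3 / t ^ 2 := by
  rcases he.eq_or_lt with he0 | he0
  · have hz : ∀ j ∈ Finset.range (8 ^ B), g j = 0 := by
      intro j hj
      have h1 : g j ^ 2 ≤ ∑ j ∈ Finset.range (8 ^ B), g j ^ 2 :=
        Finset.single_le_sum (f := fun j => g j ^ 2) (fun _ _ => sq_nonneg _) hj
      rw [← he0] at hE
      have h2 : g j ^ 2 ≤ 0 := by linarith
      exact pow_eq_zero_iff (two_ne_zero) |>.mp (le_antisymm h2 (sq_nonneg _))
    have hS : ∀ y, Sf B p q g y = 0 := by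
      intro y
      unfold Sf
      apply Finset.sum_eq_zero
      intro j hj
      rw [hz j hj]; ring
    simp only [hS, hxt_zero ht, ← he0]
    simp
  · have key : ∀ c, p ≤ c → c ≤ q → ∫ y, hxt t (Sf B p q g y) ∂mu ≤
        4 / t * (∫ y, Sf B c q g y ^ 2 ∂mu) + 16 / t ^ 3 * ∫ y, Sf B p c g y ^ 4 ∂mu :=
      fun c h1 h2 => tail_cut h1 h2 hq g t ht
    have ht2 : 0 < t ^ 2 := by positivity
    rcases lt_or_ge t (e * 2 ^ p) with h1 | h1
    · have h2 := key p le_rfl hpq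
      have h3 := L2_bound hpq hq g _ hE
      have h4 : ∫ y, Sf B p p g y ^ 4 ∂mu = 0 := by
        simp [Sf_self]
      rw [h4, mul_zero, add_zero] at h2
      refine h2.trans ((mul_le_mul_of_nonneg_left h3 (by positivity)).trans ?_)
      rw [le_div_iff₀ ht2]
      have h5 : t * (1/2) ^ p ≤ e := by
        have h6 : (2:ℝ) ^ p * (1/2) ^ p = 1 := by rw [← mul_pow]; norm_num
        calc t * (1/2) ^ p ≤ (e * 2 ^ p) * (1/2) ^ p :=
              mul_le_mul_of_nonneg_right h1.le (by positivity)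
          _ = e * (2 ^ p * (1/2) ^ p) := by ring
          _ = e := by rw [h6, mul_one]
      calc 4 / t * (8 * e ^ 2 * (1/2) ^ p) * t ^ 2 = 32 * e ^ 2 * (t * (1/2) ^ p) := by
            field_simp; ring
        _ ≤ 32 * e ^ 2 * e := mul_le_mul_of_nonneg_left h5 (by positivity)
        _ ≤ 5000 * e ^ 3 := by nlinarith [pow_pos he0 3]
    rcases le_or_gt (e * 2 ^ q) t with h2 | h2
    · have h3 := key q hpq le_rfl
      have h4 := L4_bound hpq hq g _ hE
      have h5 : ∫ y, Sf B q q g y ^ 2 ∂mu = 0 := by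
        simp [Sf_self]
      rw [h5, mul_zero, zero_add] at h3
      refine h3.trans ((mul_le_mul_of_nonneg_left h4 (by positivity)).trans ?_)
      rw [le_div_iff₀ ht2]
      calc 16 / t ^ 3 * (80 * (e ^ 2) ^ 2 * 2 ^ q) * t ^ 2
          = 1280 * e ^ 3 * ((e * 2 ^ q) / t) := by
            field_simp; ring
        _ ≤ 1280 * e ^ 3 * 1 := by
            apply mul_le_mul_of_nonneg_left _ (by positivity)
            rw [div_le_one ht]; exact h2
        _ ≤ 5000 * e ^ 3 := by nlinarith [pow_pos he0 3]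
    · obtain ⟨c, c1, c2, c3, c4⟩ := exists_cut e t h1 h2 hpq
      have h3 := key c c1 c2.le
      have h4 := L2_bound c2.le hq g _ hE
      have h5 := L4_bound c1 (c2.le.trans hq) g _ hE
      refine h3.trans ((add_le_add (mul_le_mul_of_nonneg_left h4 (by positivity))
        (mul_le_mul_of_nonneg_left h5 (by positivity))).trans ?_)
      rw [le_div_iff₀ ht2]
      have h6 : t * (1/2) ^ c ≤ 2 * e := by
        have h6 : (2:ℝ) ^ (c + 1) * (1/2) ^ c = 2 := by
          rw [pow_succ, mul_right_comm, ← mul_pow]; norm_num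
        calc t * (1/2) ^ c ≤ (e * 2 ^ (c + 1)) * (1/2) ^ c :=
              mul_le_mul_of_nonneg_right c4.le (by positivity)
          _ = e * (2 ^ (c + 1) * (1/2) ^ c) := by ring
          _ = 2 * e := by rw [h6]; ring
      calc (4 / t * (8 * e ^ 2 * (1/2) ^ c) + 16 / t ^ 3 * (80 * (e ^ 2) ^ 2 * 2 ^ c)) * t ^ 2
          = 32 * e ^ 2 * (t * (1/2) ^ c) + 1280 * e ^ 3 * ((e * 2 ^ c) / t) := by
            field_simp; ring
        _ ≤ 32 * e ^ 2 * (2 * e) + 1280 * e ^ 3 * 1 := by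
            apply add_le_add
            · exact mul_le_mul_of_nonneg_left h6 (by positivity)
            · apply mul_le_mul_of_nonneg_left _ (by positivity)
              rw [div_le_one ht]; exact c3
        _ ≤ 5000 * e ^ 3 := by nlinarith [pow_pos he0 3]

theorem sum_block {M J : ℕ} (hJ : J < 8 ^ (2 * M)) (F : ℕ → ℝ) (hF : ∀ j, j / 8 ^ M ≠ J → F j = 0) :
    ∑ j ∈ Finset.range (8 ^ (3 * M)), F j = ∑ i ∈ Finset.range (8 ^ M), F (J * 8 ^ M + i) := by
  have hK : 0 < 8 ^ M := by positivity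
  have h3 : 8 ^ (3 * M) = 8 ^ (2 * M) * 8 ^ M := by rw [← pow_add]; congr 1; ring
  have himg : ∑ i ∈ Finset.range (8 ^ M), F (J * 8 ^ M + i) =
      ∑ j ∈ (Finset.range (8 ^ M)).image (fun i => J * 8 ^ M + i), F j := by
    rw [Finset.sum_image]
    intro a _ b _ hab
    have hab' : J * 8 ^ M + a = J * 8 ^ M + b := hab
    omega
  rw [himg]
  symm
  apply Finset.sum_subset
  · intro j hj
    obtain ⟨i, hi, rfl⟩ := Finset.mem_image.mp hj
    rw [Finset.mem_range] at hi ⊢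
    rw [h3]
    calc J * 8 ^ M + i < J * 8 ^ M + 8 ^ M := by omega
      _ = (J + 1) * 8 ^ M := by ring
      _ ≤ 8 ^ (2 * M) * 8 ^ M := Nat.mul_le_mul_right _ hJ
  · intro j _ hj
    apply hF
    intro h
    apply hj
    rw [Finset.mem_image]
    refine ⟨j % 8 ^ M, Finset.mem_range.mpr (Nat.mod_lt _ hK), ?_⟩
    rw [← h, mul_comm]
    exact Nat.div_add_mod j (8 ^ M)

theorem vfn_eq (n j : ℕ) (y : ℝ) :
    vfn n j y = ((n:ℝ) ^ 4)⁻¹ * wf (3 * n ^ 6) (2 * n ^ 6) (3 * n ^ 6) j y := rfl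

/-- coefficients of a block -/
noncomputable def gblk (n : ℕ) (d : ℕ → ℝ) (J j : ℕ) : ℝ :=
  if j / 8 ^ (n ^ 6) = J then d j * ((n:ℝ) ^ 4)⁻¹ else 0

theorem Vfn_eq (n : ℕ) (d : ℕ → ℝ) (y : ℝ) :
    Vfn n d y = Sf (3 * n ^ 6) (2 * n ^ 6) (3 * n ^ 6) (gblk n d (idx (2 * n ^ 6) y)) y := by
  unfold Vfn Sf
  apply Finset.sum_congr rfl
  intro j _
  congr 1
  rw [vfn_eq]
  by_cases h : j / 8 ^ (n ^ 6) = idx (2 * n ^ 6) y
  · rw [gblk, if_pos h]; ring
  · rw [gblk, if_neg h, zero_mul]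
    have hw : wf (3 * n ^ 6) (2 * n ^ 6) (3 * n ^ 6) j y = 0 := by
      unfold wf
      apply Finset.sum_eq_zero
      intro m hm
      obtain ⟨hm1, hm2⟩ := Finset.mem_Ico.mp hm
      have h1 := ind_anti (n := 2 * n ^ 6) (m := m) (B := 3 * n ^ 6) (j := j) hm1 hm2.le y
      have h2 : 3 * n ^ 6 - 2 * n ^ 6 = n ^ 6 := by omega
      rw [h2] at h1
      have h3 : ind (2 * n ^ 6) (j / 8 ^ n ^ 6) y = 0 := by
        unfold ind
        rw [if_neg (fun h' => h h'.symm)]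
      rw [h3] at h1
      have h4 := ind_nonneg m (j / 8 ^ (3 * n ^ 6 - m)) y
      rw [le_antisymm h1 h4, mul_zero]
    rw [hw]; ring

theorem gblk_sum {n : ℕ} (d D : ℕ → ℝ)
    (hd : ∀ J < 8 ^ (2 * n ^ 6),
      ∑ i ∈ Finset.range (8 ^ (n ^ 6)), d (J * 8 ^ (n ^ 6) + i) ^ 2 ≤ (D J) ^ 2)
    (J : ℕ) (hJ : J < 8 ^ (2 * n ^ 6)) :
    ∑ j ∈ Finset.range (8 ^ (3 * n ^ 6)), gblk n d J j ^ 2 ≤ (D J * ((n:ℝ) ^ 4)⁻¹) ^ 2 := by
  have hK : 0 < 8 ^ (n ^ 6) := by positivity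
  rw [sum_block hJ (fun j => gblk n d J j ^ 2) (fun j hj => by
    show gblk n d J j ^ 2 = 0
    rw [gblk, if_neg hj]; ring)]
  calc ∑ i ∈ Finset.range (8 ^ (n ^ 6)), gblk n d J (J * 8 ^ (n ^ 6) + i) ^ 2
      = ∑ i ∈ Finset.range (8 ^ (n ^ 6)), d (J * 8 ^ (n ^ 6) + i) ^ 2 * (((n:ℝ) ^ 4)⁻¹) ^ 2 := by
        apply Finset.sum_congr rfl
        intro i hi
        have hi' := Finset.mem_range.mp hi
        have : (J * 8 ^ (n ^ 6) + i) / 8 ^ (n ^ 6) = J := by
          rw [mul_comm, Nat.mul_add_div hK, Nat.div_eq_of_lt hi', add_zero]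
        rw [gblk, if_pos this]; ring
    _ = (∑ i ∈ Finset.range (8 ^ (n ^ 6)), d (J * 8 ^ (n ^ 6) + i) ^ 2) * (((n:ℝ) ^ 4)⁻¹) ^ 2 := by
        rw [Finset.sum_mul]
    _ ≤ D J ^ 2 * (((n:ℝ) ^ 4)⁻¹) ^ 2 := mul_le_mul_of_nonneg_right (hd J hJ) (by positivity)
    _ = _ := by ring


theorem vfn_nonneg (n j : ℕ) (y : ℝ) : 0 ≤ vfn n j y := by
  rw [vfn_eq]
  exact mul_nonneg (by positivity) (wf_nonneg _ _ _ _ _)

theorem vfn_le (n j : ℕ) (hn : 1 ≤ n) (y : ℝ) : vfn n j y ≤ 8 ^ (n ^ 6) := by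
  rw [vfn_eq]
  have h1 : ((n:ℝ) ^ 4)⁻¹ ≤ 1 := by
    apply inv_le_one_of_one_le₀
    have : (1:ℝ) ≤ n := by exact_mod_cast hn
    exact one_le_pow₀ this
  have h2 := wf_le (3 * n ^ 6) (2 * n ^ 6) (3 * n ^ 6) j (by omega) y
  have h3 := wf_nonneg (3 * n ^ 6) (2 * n ^ 6) (3 * n ^ 6) j y
  calc ((n:ℝ) ^ 4)⁻¹ * wf (3 * n ^ 6) (2 * n ^ 6) (3 * n ^ 6) j y
      ≤ 1 * 2 ^ (3 * n ^ 6) := mul_le_mul h1 h2 h3 (by norm_num)
    _ = 8 ^ (n ^ 6) := by rw [one_mul, pow_mul]; norm_num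

theorem step_vfn (n j : ℕ) : Step (3 * n ^ 6) (vfn n j) :=
  (step_const _ (((n:ℝ) ^ 4)⁻¹)).mul (step_wf le_rfl j)

theorem step_Vfn (n : ℕ) (d : ℕ → ℝ) : Step (3 * n ^ 6 + 8 ^ (3 * n ^ 6) + 1) (Vfn n d) := by
  apply step_sum
  intro j hj
  have hj' := Finset.mem_range.mp hj
  exact ((step_const _ (d j)).mul ((step_vfn n j).mono (by omega))).mul
    ((step_rad (3 * n ^ 6 + j + 1)).mono (by omega))

theorem count_ind (B m : ℕ) (y : ℝ) :
    ∑ j ∈ Finset.range (8 ^ B), ind m (j / 8 ^ (B - m)) y ≤ 8 ^ (B - m) := by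
  have hK : 0 < 8 ^ (B - m) := by positivity
  have h1 : ∑ j ∈ Finset.range (8 ^ B), ind m (j / 8 ^ (B - m)) y =
      (((Finset.range (8 ^ B)).filter (fun j => idx m y = j / 8 ^ (B - m))).card : ℝ) := by
    rw [Finset.card_filter]
    push_cast
    rfl
  rw [h1]
  have h2 : (Finset.range (8 ^ B)).filter (fun j => idx m y = j / 8 ^ (B - m)) ⊆
      Finset.Ico (idx m y * 8 ^ (B - m)) (idx m y * 8 ^ (B - m) + 8 ^ (B - m)) := by
    intro j hj
    have h3 := (Finset.mem_filter.mp hj).2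
    rw [Finset.mem_Ico, h3]
    have h4 := Nat.div_add_mod j (8 ^ (B - m))
    have h5 := Nat.mod_lt j hK
    have h6 : j / 8 ^ (B - m) * 8 ^ (B - m) = 8 ^ (B - m) * (j / 8 ^ (B - m)) := mul_comm _ _
    omega
  have h3 := Finset.card_le_card h2
  rw [Nat.card_Ico] at h3
  have h4 : ((Finset.range (8 ^ B)).filter (fun j => idx m y = j / 8 ^ (B - m))).card
      ≤ 8 ^ (B - m) := by omega
  exact_mod_cast h4

theorem V_max {n : ℕ} (hn : 1 ≤ n) (d D : ℕ → ℝ) (hD : ∀ J, 0 ≤ D J)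
    (hd : ∀ J < 8 ^ (2 * n ^ 6),
      ∑ i ∈ Finset.range (8 ^ (n ^ 6)), d (J * 8 ^ (n ^ 6) + i) ^ 2 ≤ (D J) ^ 2)
    (hsum : ∑ J ∈ Finset.range (8 ^ (2 * n ^ 6)), (D J) ^ 3 ≤ 1) (y : ℝ) :
    |Vfn n d y| ≤ 64 ^ (n ^ 6) := by
  have hK : 0 < 8 ^ (n ^ 6) := by positivity
  have hd1 : ∀ j < 8 ^ (3 * n ^ 6), |d j| ≤ 1 := by
    intro j hj
    have hJ : j / 8 ^ (n ^ 6) < 8 ^ (2 * n ^ 6) := by
      apply Nat.div_lt_of_lt_mul
      rw [← pow_add]
      have : n ^ 6 + 2 * n ^ 6 = 3 * n ^ 6 := by ring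
      rw [this]; exact hj
    have h1 := hd _ hJ
    have h2 : d j ^ 2 ≤ ∑ i ∈ Finset.range (8 ^ (n ^ 6)),
        d (j / 8 ^ (n ^ 6) * 8 ^ (n ^ 6) + i) ^ 2 := by
      have h3 : d j ^ 2 = d (j / 8 ^ (n ^ 6) * 8 ^ (n ^ 6) + j % 8 ^ (n ^ 6)) ^ 2 := by
        rw [mul_comm (j / 8 ^ (n ^ 6)), Nat.div_add_mod]
      rw [h3]
      exact Finset.single_le_sum
        (f := fun i => d (j / 8 ^ (n ^ 6) * 8 ^ (n ^ 6) + i) ^ 2) (fun _ _ => sq_nonneg _)
        (Finset.mem_range.mpr (Nat.mod_lt _ hK))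
    have h4 : D (j / 8 ^ (n ^ 6)) ^ 3 ≤ 1 :=
      (Finset.single_le_sum (f := fun J => D J ^ 3) (fun J _ => pow_nonneg (hD J) 3)
        (Finset.mem_range.mpr hJ)).trans hsum
    have h5 : D (j / 8 ^ (n ^ 6)) ≤ 1 := by
      by_contra hcon
      push Not at hcon
      have := one_lt_pow₀ hcon (n := 3) (by norm_num)
      linarith
    have h6 : d j ^ 2 ≤ 1 := by
      have h7 : D (j / 8 ^ (n ^ 6)) ^ 2 ≤ 1 := pow_le_one₀ (hD _) h5
      linarith
    rw [← sq_abs] at h6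
    have h8 : |d j| ^ 2 ≤ 1 ^ 2 := by linarith
    exact le_of_sq_le_sq h8 (by norm_num)
  have hn4 : ((n:ℝ) ^ 4)⁻¹ ≤ 1 := by
    apply inv_le_one_of_one_le₀
    have : (1:ℝ) ≤ n := by exact_mod_cast hn
    exact one_le_pow₀ this
  calc |Vfn n d y| ≤ ∑ j ∈ Finset.range (8 ^ (3 * n ^ 6)),
        |d j * vfn n j y * rad (3 * n ^ 6 + j + 1) y| := Finset.abs_sum_le_sum_abs _ _
    _ ≤ ∑ j ∈ Finset.range (8 ^ (3 * n ^ 6)),
        wf (3 * n ^ 6) (2 * n ^ 6) (3 * n ^ 6) j y := by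
        apply Finset.sum_le_sum
        intro j hj
        rw [abs_mul, abs_mul, abs_rad, mul_one, abs_of_nonneg (vfn_nonneg n j y), vfn_eq]
        have h0 := wf_nonneg (3 * n ^ 6) (2 * n ^ 6) (3 * n ^ 6) j y
        calc |d j| * (((n:ℝ) ^ 4)⁻¹ * wf (3 * n ^ 6) (2 * n ^ 6) (3 * n ^ 6) j y)
            ≤ 1 * (1 * wf (3 * n ^ 6) (2 * n ^ 6) (3 * n ^ 6) j y) := by
              apply mul_le_mul (hd1 j (Finset.mem_range.mp hj)) _ (by positivity) (by norm_num)
              exact mul_le_mul_of_nonneg_right hn4 h0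
          _ = _ := by ring
    _ = ∑ m ∈ Finset.Ico (2 * n ^ 6) (3 * n ^ 6), 2 ^ m *
          ∑ j ∈ Finset.range (8 ^ (3 * n ^ 6)), ind m (j / 8 ^ (3 * n ^ 6 - m)) y := by
        unfold wf
        rw [Finset.sum_comm]
        apply Finset.sum_congr rfl
        intro m _
        rw [Finset.mul_sum]
    _ ≤ ∑ m ∈ Finset.Ico (2 * n ^ 6) (3 * n ^ 6), (2:ℝ) ^ (5 * n ^ 6) := by
        apply Finset.sum_le_sum
        intro m hm
        obtain ⟨hm1, hm2⟩ := Finset.mem_Ico.mp hm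
        calc (2:ℝ) ^ m * ∑ j ∈ Finset.range (8 ^ (3 * n ^ 6)), ind m (j / 8 ^ (3 * n ^ 6 - m)) y
            ≤ 2 ^ m * 8 ^ (3 * n ^ 6 - m) :=
              mul_le_mul_of_nonneg_left (count_ind _ _ _) (by positivity)
          _ = 2 ^ (m + 3 * (3 * n ^ 6 - m)) := by
              rw [pow_add, pow_mul]; norm_num
          _ ≤ 2 ^ (5 * n ^ 6) := by
              apply pow_le_pow_right₀ (by norm_num)
              omega
    _ = (n ^ 6 : ℕ) * 2 ^ (5 * n ^ 6) := by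
        rw [Finset.sum_const, Nat.card_Ico, nsmul_eq_mul]
        congr 2
        omega
    _ ≤ 2 ^ (n ^ 6) * 2 ^ (5 * n ^ 6) := by
        apply mul_le_mul_of_nonneg_right _ (by positivity)
        exact_mod_cast (Nat.lt_two_pow_self).le
    _ = 64 ^ (n ^ 6) := by
        rw [← pow_add]
        have : n ^ 6 + 5 * n ^ 6 = 6 * n ^ 6 := by ring
        rw [this, pow_mul]; norm_num

theorem V_tail {n : ℕ} (hn : 1 ≤ n) (d D : ℕ → ℝ) (hD : ∀ J, 0 ≤ D J)
    (hd : ∀ J < 8 ^ (2 * n ^ 6),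
      ∑ i ∈ Finset.range (8 ^ (n ^ 6)), d (J * 8 ^ (n ^ 6) + i) ^ 2 ≤ (D J) ^ 2)
    (hsum : ∑ J ∈ Finset.range (8 ^ (2 * n ^ 6)), (D J) ^ 3 ≤ 1) (t : ℝ) (ht : 0 < t) :
    ∫⁻ y, ENNReal.ofReal (if t < |Vfn n d y| then |Vfn n d y| else 0) ∂mu ≤
      ENNReal.ofReal (5000 / ((n:ℝ) ^ 12 * t ^ 2)) := by
  have hint : Integrable (fun y => hxt t (Vfn n d y)) mu :=
    ((step_Vfn n d).comp (fun v => hxt t v)).integrable
  have h1 : ∫⁻ y, ENNReal.ofReal (if t < |Vfn n d y| then |Vfn n d y| else 0) ∂mu =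
      ENNReal.ofReal (∫ y, hxt t (Vfn n d y) ∂mu) := by
    rw [ofReal_integral_eq_lintegral_ofReal hint
      (Eventually.of_forall fun y => hxt_nonneg _ _)]
    rfl
  rw [h1]
  apply ENNReal.ofReal_le_ofReal
  have hIJ : ∀ J, Integrable (fun y => hxt t (Sf (3 * n ^ 6) (2 * n ^ 6) (3 * n ^ 6)
      (gblk n d J) y)) mu := fun J => ((step_Sf le_rfl _).comp (fun v => hxt t v)).integrable
  calc ∫ y, hxt t (Vfn n d y) ∂mu
      ≤ ∫ y, ∑ J ∈ Finset.range (8 ^ (2 * n ^ 6)),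
          hxt t (Sf (3 * n ^ 6) (2 * n ^ 6) (3 * n ^ 6) (gblk n d J) y) ∂mu := by
        apply integral_mono_ae hint
        · exact integrable_finsetSum _ fun J _ => hIJ J
        · filter_upwards [ae_idx_lt (2 * n ^ 6)] with y hy
          show hxt t (Vfn n d y) ≤ _
          rw [Vfn_eq]
          exact Finset.single_le_sum
            (f := fun J => hxt t (Sf (3 * n ^ 6) (2 * n ^ 6) (3 * n ^ 6) (gblk n d J) y))
            (fun J _ => hxt_nonneg _ _) (Finset.mem_range.mpr hy)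
    _ = ∑ J ∈ Finset.range (8 ^ (2 * n ^ 6)),
          ∫ y, hxt t (Sf (3 * n ^ 6) (2 * n ^ 6) (3 * n ^ 6) (gblk n d J) y) ∂mu :=
        integral_finsetSum _ fun J _ => hIJ J
    _ ≤ ∑ J ∈ Finset.range (8 ^ (2 * n ^ 6)), 5000 * (D J * ((n:ℝ) ^ 4)⁻¹) ^ 3 / t ^ 2 := by
        apply Finset.sum_le_sum
        intro J hJ
        exact tail_block (by omega) le_rfl _ _ (mul_nonneg (hD J) (by positivity))
          (gblk_sum d D hd J (Finset.mem_range.mp hJ)) t ht
    _ = (5000 / ((n:ℝ) ^ 12 * t ^ 2)) * ∑ J ∈ Finset.range (8 ^ (2 * n ^ 6)), D J ^ 3 := by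
        have hn0 : (0:ℝ) < n := by exact_mod_cast hn
        rw [Finset.mul_sum]
        apply Finset.sum_congr rfl
        intro J _
        field_simp
    _ ≤ (5000 / ((n:ℝ) ^ 12 * t ^ 2)) * 1 := by
        apply mul_le_mul_of_nonneg_left hsum
        positivity
    _ = _ := mul_one _

end Pool.Agent.Helper401.OB

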